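import Pool.Agent.H312R2.RG.Defs
import Pool.Agent.H398R2.PG.A

set_option autoImplicit false

/-! TEAM RG, task L1 (helper378): the sum of the Maynard weights against a function with known class sums. -/

open Finset Filter
open scoped ContDiff

namespace Pool.Agent.H312R2.RG

open Pool.Agent.H378R2
open Pool.Agent.H378R2.LSBV (QQ mem_QQ)

theorem lcm_prod_mem_QQ {K : ℕ} {E : Finset ℕ} {R W ps : ℕ} {L X : ℝ} {cF cG : Fin K → ℝ} {d e : Fin K → ℕ}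
    (hd : d ∈ supp (fun _ : Fin K => E) R L cF) (he : e ∈ supp (fun _ : Fin K => E) R L cG)
    (hPC : PC d e) (hEP : ∀ p : ℕ, p.Prime → p ∉ E → ¬ p ∣ W * ps)
    (hsz : L * (∑ j, cF j + ∑ j, cG j) ≤ 2 * LL X) :
    (∏ j, Nat.lcm (d j) (e j)) ∈ QQ W ps ⌊Real.exp (2 * LL X)⌋₊ := by
  have hdp := supp_prod_le hd
  have hep := supp_prod_le he
  rw [mem_supp] at hd he
  have hd0 : ∀ j, d j ≠ 0 := fun j => by have := (mem_adm.1 (hd j).1).1.1; omega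
  have he0 : ∀ j, e j ≠ 0 := fun j => by have := (mem_adm.1 (he j).1).1.1; omega
  have hprodpos : 0 < ∏ j, Nat.lcm (d j) (e j) :=
    Finset.prod_pos fun j _ => Nat.pos_of_ne_zero (Nat.lcm_ne_zero (hd0 j) (he0 j))
  rw [mem_QQ]
  refine ⟨⟨hprodpos, Nat.le_floor ?_⟩, ?_, ?_⟩
  · have h1 : ∏ j, Nat.lcm (d j) (e j) ≤ (∏ j, d j) * ∏ j, e j := by
      rw [← Finset.prod_mul_distrib]
      exact Finset.prod_le_prod' fun j _ => lcm_le_mul' (Nat.pos_of_ne_zero (hd0 j)) (Nat.pos_of_ne_zero (he0 j))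
    calc ((∏ j, Nat.lcm (d j) (e j) : ℕ) : ℝ) ≤ (((∏ j, d j) * ∏ j, e j : ℕ) : ℝ) := by exact_mod_cast h1
      _ = ((∏ j, d j : ℕ) : ℝ) * ((∏ j, e j : ℕ) : ℝ) := by push_cast; ring
      _ ≤ Real.exp (L * ∑ j, cF j) * Real.exp (L * ∑ j, cG j) := by
          apply mul_le_mul hdp hep (Nat.cast_nonneg _) (Real.exp_pos _).le
      _ = Real.exp (L * (∑ j, cF j + ∑ j, cG j)) := by rw [← Real.exp_add]; ring_nf
      _ ≤ _ := Real.exp_le_exp.2 hsz
  · exact squarefree_prod _ hPC fun j => sqf_lcm (mem_adm.1 (hd j).1).2.1 (mem_adm.1 (he j).1).2.1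
  · exact Nat.Coprime.prod_left fun j _ => adm_lcm_coprime (hd j).1 (he j).1 hEP

theorem sum1V {K : ℕ} (X : ℝ) (W ps a : ℕ) (hW : 0 < W) (F G : Fin K → ℝ → ℝ)
    (L : ℝ) (hL : 0 < L) (cF cG : Fin K → ℝ)
    (hF : ∀ j x, |F j x| ≤ 1) (hG : ∀ j x, |G j x| ≤ 1)
    (hF0 : ∀ j x, cF j < x → F j x = 0) (hG0 : ∀ j x, cG j < x → G j x = 0)
    (E : Finset ℕ) (R : ℕ) (t : Fin K → ℕ)
    (hEP : ∀ p : ℕ, p.Prime → p ∉ E → ¬ p ∣ W * ps)
    (hres : ∀ i j, i ≠ j → ∀ p : ℕ, p.Prime → p ∉ E → ¬ (p : ℤ) ∣ (t i : ℤ) - t j)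
    (hsz : L * (∑ j, cF j + ∑ j, cG j) ≤ 2 * LL X)
    (Gf : ℤ → ℝ) (M : ℝ) (err : ℕ → ℝ) (herr : ∀ q, 0 ≤ err q) (hcl : ClassA X W ps t Gf M err) :
    |∑ n ∈ Icc 1 ⌊3 * X⌋₊, (if n ≡ a [MOD W] then Phi (n / X) * Gf n else 0) *
        ∏ j, (VVm E R L (F j) (n + t j) * VVm E R L (G j) (n + t j)) -
      (M * (MPhi X * (1 / W))) * sieveSum K F G L (fun _ => E) (fun p _ => 1 / (p : ℝ)) R| ≤
    tot K X W ps err := by
  classical
  have hEW : ∀ p : ℕ, p.Prime → p ∉ E → ¬ p ∣ W := fun p hp h h' => hEP p hp h (h'.mul_right ps)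
  refine (expand_le (fun _ => E) R L F G ⌊3 * X⌋₊ (fun n => if n ≡ a [MOD W] then Phi (n / X) * Gf n else 0)
    (fun n j => n + t j) (M * (MPhi X * (1 / W))) (fun p _ => 1 / (p : ℝ))).trans ?_
  refine (support_bound (fun _ => E) R L 1 hL zero_le_one F G cF cG hF hG hF0 hG0 _
    (fun _ _ => abs_nonneg _)).trans ?_
  rw [one_pow, one_mul]
  unfold tot
  refine fiber_bound (supp (fun _ => E) R L cF) (supp (fun _ => E) R L cG) _ PC err herr ?_ ?_ _ ?_ ?_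
  · intro q hq
    rw [mem_QQ] at hq
    omega
  · intro d hd e he hPC
    exact lcm_prod_mem_QQ hd he hPC hEP hsz
  · intro d hd e he hPC
    have hmem := lcm_prod_mem_QQ hd he hPC hEP hsz
    rw [mem_supp] at hd he
    set D : Fin K → ℕ := fun j => Nat.lcm (d j) (e j) with hD
    have hd0 : ∀ j, d j ≠ 0 := fun j => by have := (mem_adm.1 (hd j).1).1.1; omega
    have he0 : ∀ j, e j ≠ 0 := fun j => by have := (mem_adm.1 (he j).1).1.1; omega
    have hD0 : ∀ j, D j ≠ 0 := fun j => Nat.lcm_ne_zero (hd0 j) (he0 j)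
    have hDW : ∀ j, (D j).Coprime W := fun j => adm_lcm_coprime (hd j).1 (he j).1 hEW
    have hDsq : ∀ j, Squarefree (D j) := fun j =>
      sqf_lcm (mem_adm.1 (hd j).1).2.1 (mem_adm.1 (he j).1).2.1
    obtain ⟨b, hb⟩ := class_exists W a hW.ne' D (fun _ => 1) (fun j => (t j : ℤ)) hD0 hPC hDW
      (fun _ => Nat.coprime_one_left _)
    simp only [Nat.cast_one, one_mul] at hb
    have hself := (hb b).2 rfl
    have hpr : ∀ p : ℕ, p.Prime → p ∣ ∏ j, D j → ∃ j, (p : ℤ) ∣ (b : ℤ) + t j := by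
      intro p hp hpd
      obtain ⟨j, -, hj⟩ := (Prime.dvd_finsetProd_iff hp.prime _).1 hpd
      exact ⟨j, (Int.natCast_dvd_natCast.2 hj).trans (hself.2 j)⟩
    have h2 := hcl (∏ j, D j) b hmem hpr
    have e1 : Err ⌊3 * X⌋₊ (fun n => if n ≡ a [MOD W] then Phi (n / X) * Gf n else 0)
      (fun n j => (n : ℤ) + t j) (M * (MPhi X * (1 / W))) (fun p _ => 1 / (p : ℝ)) d e =
        ∑ n ∈ (Icc 1 ⌊3 * X⌋₊).filter (fun n => n ≡ b [MOD (W * ∏ j, D j)]), Phi (n / X) * Gf n -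
          M * (MPhi X * (1 / W)) * (1 / ((∏ j, D j : ℕ) : ℝ)) := by
      unfold Err
      rw [if_pos hPC]
      congr 1
      · rw [Finset.sum_filter]
        refine Finset.sum_congr rfl fun n _ => ?_
        by_cases hn : n ≡ b [MOD (W * ∏ j, D j)]
        · have h3 := (hb n).2 hn
          have hDC : DC (fun j => (n : ℤ) + t j) d e := h3.2
          simp only [if_pos hn, if_pos hDC, if_pos h3.1]
        · rw [if_neg hn]
          by_cases hDC : DC (fun j => (n : ℤ) + t j) d e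
          · rw [if_pos hDC]
            have hna : ¬ n ≡ a [MOD W] := fun hna => hn ((hb n).1 ⟨hna, hDC⟩)
            simp only [if_neg hna]
          · rw [if_neg hDC]
      · congr 1
        have : ∀ j : Fin K, ∏ p ∈ (Nat.lcm (d j) (e j)).primeFactors, (1 : ℝ) / p = 1 / (D j : ℝ) :=
          fun j => prod_one_div (hDsq j)
        simp_rw [this]
        rw [Finset.prod_div_distrib, Finset.prod_const_one]
        push_cast
        rfl
    rw [e1]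
    exact h2
  · intro d hd e he hPC
    rw [mem_supp] at hd he
    rw [not_PC_err _ _ _ _ (fun j => (hd j).1) (fun j => (he j).1) _ hPC]
    · norm_num
    · intro i j hij p hp hpi _ n _ _ hh
      apply hres i j hij p hp hpi
      have := dvd_sub hh.1 hh.2
      have h8 : (n : ℤ) + t i - (n + t j) = t i - t j := by ring
      rwa [h8] at this

theorem tot_nonneg (K : ℕ) (X : ℝ) (W ps : ℕ) (err : ℕ → ℝ) (herr : ∀ q, 0 ≤ err q) :
    0 ≤ tot K X W ps err :=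
  Finset.sum_nonneg fun q _ => mul_nonneg (by positivity) (herr q)

/-- Task L1 -/
theorem S1_boundV (h5 : SieveAsymp) {K B : ℕ} (f : Fin B → ℝ → ℝ) (c : Fin B → ℝ)
    (A : Finset (Fin K → Fin B))
    (hsm : ∀ l, ContDiff ℝ ∞ (f l)) (hcs : ∀ l, HasCompactSupport (f l)) (hf0 : ∀ l x, c l < x → f l x = 0)
    (hc : ∀ l, 0 ≤ c l ∧ c l ≤ 1 / 2) (hA : ∀ a ∈ A, ∑ j, c (a j) ≤ 1) (hf1 : ∀ l x, |f l x| ≤ 1)
    (ε1 : ℝ) (hε1 : 0 < ε1) :
    ∀ᶠ X : ℝ in atTop, ∀ (Z ps : ℕ) (S : Finset ℕ) (a0 : ℕ) (t : Fin K → ℕ), GoodP Z ps → GoodS X S →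
      ∀ E : Finset ℕ, EE X S ps ⊆ E → E ⊆ Esup X ps →
      (∀ i j, i ≠ j → ∀ p : ℕ, p.Prime → p ∉ E → ¬ (p : ℤ) ∣ (t i : ℤ) - t j) →
      ∀ (G : ℤ → ℝ) (M : ℝ) (err : ℕ → ℝ), 0 ≤ M → (∀ q, 0 ≤ err q) →
      ClassA X (WW X S ps) ps t G M err →
      ∑ n ∈ Icc 1 ⌊3 * X⌋₊, nu X (WW X S ps) a0 n *
          (sqw E X f A (fun j => (n : ℤ) + t j) ^ 2 * G n) ≤
        M * ((MPhi X * (1 / (WW X S ps : ℝ))) * (1 / (LL X * BE E) ^ K) * (II f A + ε1)) +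
          (A.card : ℝ) ^ 2 * tot K X (WW X S ps) ps err := by
  classical
  have hev : ∀ᶠ X : ℝ in atTop, ∀ a ∈ A, ∀ b ∈ A, ∀ (ps : ℕ) (E : Fin K → Finset ℕ) (w : ℕ → Fin K → ℝ),
      (∀ j, E j ⊆ Esup X ps) → (∀ j, ∀ p : ℕ, p.Prime → p ≤ z2 X → p ∈ E j) →
      (∀ j, ∀ p : ℕ, p.Prime → |w p j - 1 / p| ≤ 2 / (p : ℝ) ^ 2) →
      |(∏ j, (LL X * BE (E j))) * sieveSum K (fun j => f (a j)) (fun j => f (b j)) (LL X) E w (RR X) -
        ∏ j, DD (f (a j)) (f (b j))| ≤ ε1 / ((A.card : ℝ) ^ 2 + 1) := by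
    rw [Filter.eventually_all_finset]
    intro a _
    rw [Filter.eventually_all_finset]
    intro b _
    exact asymp1 h5 K (fun j => f (a j)) (fun j => f (b j)) (fun j => hsm _) (fun j => hsm _)
      (fun j => hcs _) (fun j => hcs _) (fun j x hx => hf0 _ x ((hc _).2.trans_lt hx))
      (fun j x hx => hf0 _ x ((hc _).2.trans_lt hx)) _ (by positivity)
  filter_upwards [hev, EE_facts 0, eventually_ge_atTop 4, LL_tendsto.eventually_ge_atTop 1]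
    with X h1 h2 h4 h6
  intro Z ps S a0 t hps hS E hEE hEsup ht Gf M err hM herr hcl
  set W := WW X S ps with hW
  have hWpos : 0 < W := WW_pos X S ps
  have hWr : (0 : ℝ) < W := by exact_mod_cast hWpos
  have hBE : 0 < BE E := BE_pos fun p hp => Esup_prime (hEsup hp)
  have hLB : 0 < LL X * BE E := by positivity
  have hMnn : 0 ≤ MPhi X := Finset.sum_nonneg fun n _ => Phi_nonneg _
  set T := tot K X W ps err with hT
  have hone : ∀ a ∈ A, ∀ b ∈ A, ∑ n ∈ Icc 1 ⌊3 * X⌋₊, nu X W a0 n *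
      ((∏ j, (VVm E (RR X) (LL X) (f (a j)) ((n : ℤ) + t j) * VVm E (RR X) (LL X) (f (b j)) ((n : ℤ) + t j))) *
        Gf n) ≤
      (M * ((MPhi X * (1 / (W : ℝ))) * (1 / (LL X * BE E) ^ K))) *
        (∏ j, DD (f (a j)) (f (b j)) + ε1 / ((A.card : ℝ) ^ 2 + 1)) + T := by
    intro a ha b hb
    have hsum : ∑ j, c (a j) + ∑ j, c (b j) ≤ 2 := by
      have := hA a ha
      have := hA b hb
      linarith
    have k1 := sum1V X W ps a0 hWpos (fun j => f (a j)) (fun j => f (b j)) (LL X) (by linarith)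
      (fun j => c (a j)) (fun j => c (b j)) (fun j x => hf1 _ x) (fun j x => hf1 _ x)
      (fun j x hx => hf0 _ x hx) (fun j x hx => hf0 _ x hx) E (RR X) t
      (fun p hp h => not_dvd_WWps hps hp (fun h' => h (hEE h')))
      ht (by nlinarith) Gf M err herr hcl
    have k2 := h1 a ha b hb ps (fun _ => E) (fun p _ => 1 / (p : ℝ)) (fun _ => hEsup)
      (fun _ p hp hpl => hEE (EE_small hS h2.2.1 hp hpl)) (fun _ p _ => w_one p)
    have k3 : ∏ j : Fin K, (LL X * BE E) = (LL X * BE E) ^ K := by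
      rw [Finset.prod_const, Finset.card_univ, Fintype.card_fin]
    rw [k3] at k2
    have k4 := (abs_le.1 k1).2
    have k5 := (abs_le.1 k2).2
    set SS := sieveSum K (fun j => f (a j)) (fun j => f (b j)) (LL X) (fun _ => E) (fun p _ => 1 / (p : ℝ)) (RR X)
    have k6 : SS ≤ (1 / (LL X * BE E) ^ K) * (∏ j, DD (f (a j)) (f (b j)) + ε1 / ((A.card : ℝ) ^ 2 + 1)) := by
      rw [one_div, ← div_eq_inv_mul, le_div_iff₀ (by positivity)]
      linarith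
    have k7 : (M * (MPhi X * (1 / (W : ℝ)))) * SS ≤ (M * (MPhi X * (1 / (W : ℝ)))) * ((1 / (LL X * BE E) ^ K) *
        (∏ j, DD (f (a j)) (f (b j)) + ε1 / ((A.card : ℝ) ^ 2 + 1))) :=
      mul_le_mul_of_nonneg_left k6 (by positivity)
    have k9 : ∑ n ∈ Icc 1 ⌊3 * X⌋₊, nu X W a0 n *
      ((∏ j, (VVm E (RR X) (LL X) (f (a j)) ((n : ℤ) + t j) * VVm E (RR X) (LL X) (f (b j)) ((n : ℤ) + t j))) *
        Gf n) =
      ∑ n ∈ Icc 1 ⌊3 * X⌋₊, (if n ≡ a0 [MOD W] then Phi (n / X) * Gf n else 0) *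
        ∏ j, (VVm E (RR X) (LL X) (f (a j)) ((n : ℤ) + t j) *
          VVm E (RR X) (LL X) (f (b j)) ((n : ℤ) + t j)) := by
      refine Finset.sum_congr rfl fun n _ => ?_
      unfold nu
      split_ifs <;> ring
    rw [k9]
    linarith
  have hexp : ∀ n ∈ Icc 1 ⌊3 * X⌋₊, nu X W a0 n * (sqw E X f A (fun j => (n : ℤ) + t j) ^ 2 * Gf n) =
      ∑ a ∈ A, ∑ b ∈ A, nu X W a0 n *
        ((∏ j, (VVm E (RR X) (LL X) (f (a j)) ((n : ℤ) + t j) * VVm E (RR X) (LL X) (f (b j)) ((n : ℤ) + t j))) *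
          Gf n) := by
    intro n _
    rw [sqw_sq]
    simp_rw [Finset.sum_mul, Finset.mul_sum]
  rw [Finset.sum_congr rfl hexp, Finset.sum_comm]
  have hswap : ∀ a ∈ A, ∑ n ∈ Icc 1 ⌊3 * X⌋₊, ∑ b ∈ A, nu X W a0 n *
        ((∏ j, (VVm E (RR X) (LL X) (f (a j)) ((n : ℤ) + t j) * VVm E (RR X) (LL X) (f (b j)) ((n : ℤ) + t j))) *
          Gf n) ≤
      ∑ b ∈ A, ((M * ((MPhi X * (1 / (W : ℝ))) * (1 / (LL X * BE E) ^ K))) *
        (∏ j, DD (f (a j)) (f (b j)) + ε1 / ((A.card : ℝ) ^ 2 + 1)) + T) := by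
    intro a ha
    rw [Finset.sum_comm]
    exact Finset.sum_le_sum fun b hb => hone a ha b hb
  refine (Finset.sum_le_sum hswap).trans ?_
  simp_rw [Finset.sum_add_distrib, ← Finset.mul_sum, Finset.sum_add_distrib, Finset.sum_const, nsmul_eq_mul]
  have hfin : ((A.card : ℝ) * ((A.card : ℝ) * (ε1 / ((A.card : ℝ) ^ 2 + 1)))) ≤ ε1 := by
    have : (A.card : ℝ) * ((A.card : ℝ) * (ε1 / ((A.card : ℝ) ^ 2 + 1))) =
        ((A.card : ℝ) ^ 2 / ((A.card : ℝ) ^ 2 + 1)) * ε1 := by ring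
    rw [this]
    have h7 : (A.card : ℝ) ^ 2 / ((A.card : ℝ) ^ 2 + 1) ≤ 1 := by
      rw [div_le_one (by positivity)]; linarith
    nlinarith
  have hcoef : 0 ≤ M * ((MPhi X * (1 / (W : ℝ))) * (1 / (LL X * BE E) ^ K)) := by positivity
  have : (M * ((MPhi X * (1 / (W : ℝ))) * (1 / (LL X * BE E) ^ K))) *
      (∑ a ∈ A, ∑ b ∈ A, ∏ j, DD (f (a j)) (f (b j)) +
        (A.card : ℝ) * ((A.card : ℝ) * (ε1 / ((A.card : ℝ) ^ 2 + 1)))) ≤
      (M * ((MPhi X * (1 / (W : ℝ))) * (1 / (LL X * BE E) ^ K))) * (II f A + ε1) := by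
    apply mul_le_mul_of_nonneg_left _ hcoef
    unfold II
    linarith
  calc _ = (M * ((MPhi X * (1 / (W : ℝ))) * (1 / (LL X * BE E) ^ K))) *
      (∑ a ∈ A, ∑ b ∈ A, ∏ j, DD (f (a j)) (f (b j)) +
        (A.card : ℝ) * ((A.card : ℝ) * (ε1 / ((A.card : ℝ) ^ 2 + 1)))) +
          (A.card : ℝ) ^ 2 * T := by ring
    _ ≤ (M * ((MPhi X * (1 / (W : ℝ))) * (1 / (LL X * BE E) ^ K))) * (II f A + ε1) +
          (A.card : ℝ) ^ 2 * T := by linarith
    _ = _ := by ring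

end Pool.Agent.H312R2.RG
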