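import Pool.Agent.H312R2.RG.L1
import Pool.Agent.H398R2.PG.B

set_option autoImplicit false

/-! TEAM RG, task L2 (helper378): the prime sums of the Maynard weights against a function with known class
sums. -/

open Finset Filter
open scoped ContDiff

namespace Pool.Agent.H312R2.RG

open Pool.Agent.H378R2
open Pool.Agent.H378R2.LSBV (QQ mem_QQ)

theorem tot_mono {K K' : ℕ} (h : K ≤ K') (X : ℝ) (W ps : ℕ) (err : ℕ → ℝ) (herr : ∀ q, 0 ≤ err q) :
    tot K X W ps err ≤ tot K' X W ps err := by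
  unfold tot
  refine Finset.sum_le_sum fun q hq => ?_
  rw [mem_QQ] at hq
  apply mul_le_mul_of_nonneg_right _ (herr q)
  apply pow_le_pow_right₀
  · have : 1 ≤ q.divisors.card := Finset.card_pos.2 ⟨1, Nat.one_mem_divisors.2 (by omega)⟩
    exact_mod_cast this
  · omega

theorem sum2V {K0 : ℕ} (X : ℝ) (W ps a0 : ℕ) (hW : 0 < W) (t : Fin (K0 + 1) → ℕ) (i : Fin (K0 + 1))
    (hbW : (a0 + t i).Coprime W) (F G : Fin K0 → ℝ → ℝ)
    (L : ℝ) (hL : 0 < L) (cF cG : Fin K0 → ℝ)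
    (hF : ∀ j x, |F j x| ≤ 1) (hG : ∀ j x, |G j x| ≤ 1)
    (hF0 : ∀ j x, cF j < x → F j x = 0) (hG0 : ∀ j x, cG j < x → G j x = 0)
    (E : Finset ℕ) (R : ℕ)
    (hEP : ∀ p : ℕ, p.Prime → p ∉ E → ¬ p ∣ W * ps)
    (hres : ∀ i j, i ≠ j → ∀ p : ℕ, p.Prime → p ∉ E → ¬ (p : ℤ) ∣ (t i : ℤ) - t j)
    (hsz : L * (∑ j, cF j + ∑ j, cG j) ≤ 2 * LL X)
    (Gf : ℤ → ℝ) (M : ℝ) (err : ℕ → ℝ) (herr : ∀ q, 0 ≤ err q) (hcl : ClassB X W ps t i Gf M err) :
    |∑ n ∈ Icc 1 ⌊3 * X⌋₊, (if n ≡ a0 + t i [MOD W] then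
          Phi (n / X) * ArithmeticFunction.vonMangoldt n * Gf ((n : ℤ) - t i) else 0) *
        ∏ j, (VVm E R L (F j) (n + ((t (i.succAbove j) : ℤ) - t i)) *
          VVm E R L (G j) (n + ((t (i.succAbove j) : ℤ) - t i))) -
      (M * (LPhi X * (1 / W.totient))) * sieveSum K0 F G L (fun _ => E) (fun p _ => 1 / ((p : ℝ) - 1)) R| ≤
    tot (K0 + 1) X W ps err := by
  classical
  have hEW : ∀ p : ℕ, p.Prime → p ∉ E → ¬ p ∣ W := fun p hp h h' => hEP p hp h (h'.mul_right ps)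
  set h : Fin K0 → ℤ := fun j => (t (i.succAbove j) : ℤ) - t i with hh
  refine (expand_le (fun _ => E) R L F G ⌊3 * X⌋₊ (fun n => if n ≡ a0 + t i [MOD W] then
      Phi (n / X) * ArithmeticFunction.vonMangoldt n * Gf ((n : ℤ) - t i) else 0)
    (fun n j => n + h j) (M * (LPhi X * (1 / W.totient))) (fun p _ => 1 / ((p : ℝ) - 1))).trans ?_
  refine (support_bound (fun _ => E) R L 1 hL zero_le_one F G cF cG hF hG hF0 hG0 _
    (fun _ _ => abs_nonneg _)).trans ?_
  rw [one_pow, one_mul]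
  refine le_trans ?_ (tot_mono (Nat.le_succ K0) X W ps err herr)
  unfold tot
  refine fiber_bound (supp (fun _ => E) R L cF) (supp (fun _ => E) R L cG) _ PC err herr ?_ ?_ _ ?_ ?_
  · intro q hq
    rw [mem_QQ] at hq
    omega
  · intro d hd e he hPC
    exact lcm_prod_mem_QQ hd he hPC hEP hsz
  · intro d hd e he hPC
    have hmem := lcm_prod_mem_QQ hd he hPC hEP hsz
    rw [mem_supp] at hd he
    set D : Fin K0 → ℕ := fun j => Nat.lcm (d j) (e j) with hD
    have hd0 : ∀ j, d j ≠ 0 := fun j => by have := (mem_adm.1 (hd j).1).1.1; omega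
    have he0 : ∀ j, e j ≠ 0 := fun j => by have := (mem_adm.1 (he j).1).1.1; omega
    have hD0 : ∀ j, D j ≠ 0 := fun j => Nat.lcm_ne_zero (hd0 j) (he0 j)
    have hDW : ∀ j, (D j).Coprime W := fun j => adm_lcm_coprime (hd j).1 (he j).1 hEW
    have hDsq : ∀ j, Squarefree (D j) := fun j =>
      sqf_lcm (mem_adm.1 (hd j).1).2.1 (mem_adm.1 (he j).1).2.1
    obtain ⟨b', hb'⟩ := class_exists W (a0 + t i) hW.ne' D (fun _ => 1) h hD0 hPC hDW
      (fun _ => Nat.coprime_one_left _)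
    simp only [Nat.cast_one, one_mul] at hb'
    have hself := (hb' b').2 rfl
    have hcop : b'.Coprime (W * ∏ j, D j) := by
      rw [Nat.coprime_mul_iff_right]
      constructor
      · have h1 : b'.gcd W = (a0 + t i).gcd W := Nat.ModEq.gcd_eq hself.1
        rw [Nat.coprime_iff_gcd_eq_one, h1]
        exact hbW
      · apply Nat.Coprime.prod_right
        intro j _
        by_contra hcop
        obtain ⟨p, hp, hpi, hpj⟩ := Nat.Prime.not_coprime_iff_dvd.1 hcop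
        have hpE := prime_not_mem (hd j).1 (he j).1 hp hpj
        apply hres _ _ (Fin.succAbove_ne i j) p hp hpE
        have h2 : (p : ℤ) ∣ b' + h j := (Int.natCast_dvd_natCast.2 hpj).trans (hself.2 j)
        have h3 : (p : ℤ) ∣ b' := Int.natCast_dvd_natCast.2 hpi
        exact (Int.dvd_add_right h3).1 h2
    have hpr : ∀ p : ℕ, p.Prime → p ∣ ∏ j, D j → ∃ j, j ≠ i ∧ (p : ℤ) ∣ (b' : ℤ) + t j - t i := by
      intro p hp hpd
      obtain ⟨j, -, hj⟩ := (Prime.dvd_finsetProd_iff hp.prime _).1 hpd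
      refine ⟨i.succAbove j, Fin.succAbove_ne i j, ?_⟩
      have h2 : (p : ℤ) ∣ b' + h j := (Int.natCast_dvd_natCast.2 hj).trans (hself.2 j)
      have h3 : (b' : ℤ) + t (i.succAbove j) - t i = b' + h j := by rw [hh]; ring
      rw [h3]
      exact h2
    have h2 := hcl (∏ j, D j) b' hmem hcop hpr
    have e1 : Err ⌊3 * X⌋₊ (fun n => if n ≡ a0 + t i [MOD W] then
        Phi (n / X) * ArithmeticFunction.vonMangoldt n * Gf ((n : ℤ) - t i) else 0)
      (fun n j => (n : ℤ) + h j) (M * (LPhi X * (1 / W.totient))) (fun p _ => 1 / ((p : ℝ) - 1)) d e =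
        ∑ n ∈ (Icc 1 ⌊3 * X⌋₊).filter (fun n => n ≡ b' [MOD (W * ∏ j, D j)]),
          Phi (n / X) * ArithmeticFunction.vonMangoldt n * Gf ((n : ℤ) - t i) -
          M * (LPhi X * (1 / W.totient)) * (1 / ((∏ j, D j).totient : ℝ)) := by
      unfold Err
      rw [if_pos hPC]
      congr 1
      · rw [Finset.sum_filter]
        refine Finset.sum_congr rfl fun n _ => ?_
        by_cases hn : n ≡ b' [MOD (W * ∏ j, D j)]
        · have h3 := (hb' n).2 hn
          have hDC : DC (fun j => (n : ℤ) + h j) d e := h3.2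
          simp only [if_pos hn, if_pos hDC, if_pos h3.1]
        · rw [if_neg hn]
          by_cases hDC : DC (fun j => (n : ℤ) + h j) d e
          · rw [if_pos hDC]
            have hna : ¬ n ≡ a0 + t i [MOD W] := fun hna => hn ((hb' n).1 ⟨hna, hDC⟩)
            simp only [if_neg hna]
          · rw [if_neg hDC]
      · congr 1
        rw [totient_prod D hPC]
        have : ∀ j : Fin K0, ∏ p ∈ (Nat.lcm (d j) (e j)).primeFactors, (1 : ℝ) / ((p : ℝ) - 1) =
            1 / ((D j).totient : ℝ) := by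
          intro j
          rw [totient_sqf (hDsq j), Finset.prod_div_distrib, Finset.prod_const_one]
        simp_rw [this]
        rw [Finset.prod_div_distrib, Finset.prod_const_one]
        push_cast
        rfl
    rw [e1]
    exact h2
  · intro d hd e he hPC
    rw [mem_supp] at hd he
    rw [not_PC_err _ _ _ _ (fun j => (hd j).1) (fun j => (he j).1) _ hPC]
    · norm_num
    · intro j k hjk p hp hpE _ n _ _ hh'
      have hne : i.succAbove j ≠ i.succAbove k := fun h => hjk (Fin.succAbove_right_injective h)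
      apply hres _ _ hne p hp hpE
      have := dvd_sub hh'.1 hh'.2
      have h8 : (n : ℤ) + h j - (n + h k) = t (i.succAbove j) - t (i.succAbove k) := by rw [hh]; ring
      rwa [h8] at this

theorem ev_sq_half : ∀ᶠ X : ℝ in atTop, 2 * (Real.log X) ^ 2 ≤ X := by
  have h1 := (Real.isLittleO_pow_log_id_atTop (n := 2)).def (by norm_num : (0 : ℝ) < 1 / 2)
  filter_upwards [h1, eventually_ge_atTop 1] with X h2 h3
  rw [Real.norm_of_nonneg (by positivity), id, Real.norm_of_nonneg (by linarith)] at h2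
  linarith

theorem S2_pairV (h5 : SieveAsymp) {K0 B : ℕ} (f : Fin B → ℝ → ℝ) (c : Fin B → ℝ)
    (hsm : ∀ l, ContDiff ℝ ∞ (f l)) (hcs : ∀ l, HasCompactSupport (f l)) (hf0 : ∀ l x, c l < x → f l x = 0)
    (hc : ∀ l, 0 ≤ c l ∧ c l ≤ 1 / 2) (hf1 : ∀ l x, |f l x| ≤ 1)
    (ε1 : ℝ) (hε1 : 0 < ε1) (a b : Fin (K0 + 1) → Fin B) (i : Fin (K0 + 1))
    (ha : ∑ j, c (a j) ≤ 1) (hb : ∑ j, c (b j) ≤ 1) :
    ∀ᶠ X : ℝ in atTop, ∀ (Z ps : ℕ) (S : Finset ℕ) (a0 : ℕ) (t : Fin (K0 + 1) → ℕ), GoodP Z ps → GoodS X S →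
      ∀ E : Finset ℕ, EE X S ps ⊆ E → E ⊆ Esup X ps →
      (∀ i j, i ≠ j → ∀ p : ℕ, p.Prime → p ∉ E → ¬ (p : ℤ) ∣ (t i : ℤ) - t j) →
      (∀ j, (t j : ℝ) ≤ (Real.log X) ^ 2) → ((a0 + t i).Coprime (WW X S ps)) →
      ∀ (G : ℤ → ℝ) (M Gm : ℝ) (err : ℕ → ℝ), 0 ≤ M → 0 ≤ Gm → (∀ a, |G a| ≤ Gm) → (∀ q, 0 ≤ err q) →
      ClassB X (WW X S ps) ps t i G M err →
      |∑ n ∈ Icc 1 ⌊3 * X⌋₊, nu X (WW X S ps) a0 n * th (n + t i) * (PR E X f a b i t (n + t i) * G n) -
        (M * ((LPhi X * (1 / ((WW X S ps).totient : ℝ))) * (1 / (LL X * BE E) ^ K0))) *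
          ∏ j : Fin K0, DD (f (a (i.succAbove j))) (f (b (i.succAbove j)))| ≤
      (M * ((LPhi X * (1 / ((WW X S ps).totient : ℝ))) * (1 / (LL X * BE E) ^ K0))) * ε1 +
        (tot (K0 + 1) X (WW X S ps) ps err + Real.exp (2 * LL X) * Gm *
          ((4 * (Real.log X) ^ 2) * Real.log (4 * X) + 4 * Real.sqrt X * Real.log (4 * X))) := by
  classical
  have hev := asymp1 h5 K0 (fun j => f (a (i.succAbove j))) (fun j => f (b (i.succAbove j))) (fun j => hsm _) (fun j => hsm _)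
      (fun j => hcs _) (fun j => hcs _) (fun j x hx => hf0 _ x ((hc _).2.trans_lt hx))
      (fun j x hx => hf0 _ x ((hc _).2.trans_lt hx)) ε1 hε1
  filter_upwards [hev, EE_facts 0, eventually_ge_atTop 4, LL_tendsto.eventually_ge_atTop 1,
    ev_sq_half] with X h1 h2 h4 h6 h7
  intro Z ps S a0 t hps hS E hEE hEsup ht htT hcop G M Gm err hM hGm hG herr hcl
  set W := WW X S ps with hW
  have hWpos : 0 < W := WW_pos X S ps
  have hBE : 0 < BE E := BE_pos fun p hp => Esup_prime (hEsup hp)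
  have hLB : 0 < LL X * BE E := by positivity
  have hsum : ∑ j : Fin K0, c (a (i.succAbove j)) + ∑ j : Fin K0, c (b (i.succAbove j)) ≤ 2 := by
    have := sum_succAbove_le c (fun l => (hc l).1) a i
    have := sum_succAbove_le c (fun l => (hc l).1) b i
    linarith
  -- step 1 : shift
  have s1 := shift_bound X h4 W a0 (t i) (by
      have := htT i
      linarith) (fun n => PR E X f a b i t n * G ((n : ℤ) - t i)) (Real.exp (2 * LL X) * Gm) (fun n => by
        rw [abs_mul]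
        refine mul_le_mul ?_ (hG _) (abs_nonneg _) (Real.exp_pos _).le
        unfold PR
        exact prod_VV_le E (RR X) (LL X) (by linarith) f c hf0 hf1 (fun j => a (i.succAbove j))
          (fun j => b (i.succAbove j)) hsum _)
  -- step 2 : sieve
  have s2 := sum2V X W ps a0 hWpos t i hcop (fun j => f (a (i.succAbove j))) (fun j => f (b (i.succAbove j)))
    (LL X) (by linarith) (fun j => c (a (i.succAbove j))) (fun j => c (b (i.succAbove j)))
    (fun j x => hf1 _ x) (fun j x => hf1 _ x)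
    (fun j x hx => hf0 _ x hx) (fun j x hx => hf0 _ x hx) E (RR X)
    (fun p hp h => not_dvd_WWps hps hp (fun h' => h (hEE h')))
    ht (by nlinarith) G M err herr hcl
  have s3 : ∑ n ∈ Icc 1 ⌊3 * X⌋₊, (if n ≡ a0 + t i [MOD W] then Phi (n / X) * ArithmeticFunction.vonMangoldt n else 0) *
      (PR E X f a b i t n * G ((n : ℤ) - t i)) =
      ∑ n ∈ Icc 1 ⌊3 * X⌋₊, (if n ≡ a0 + t i [MOD W] then
          Phi (n / X) * ArithmeticFunction.vonMangoldt n * G ((n : ℤ) - t i) else 0) *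
        ∏ j : Fin K0, (VVm E (RR X) (LL X) (f (a (i.succAbove j))) (n + ((t (i.succAbove j) : ℤ) - t i)) *
          VVm E (RR X) (LL X) (f (b (i.succAbove j))) (n + ((t (i.succAbove j) : ℤ) - t i))) := by
    refine Finset.sum_congr rfl fun n _ => ?_
    unfold PR
    split_ifs <;> ring
  rw [← s3] at s2
  have s0 : ∑ n ∈ Icc 1 ⌊3 * X⌋₊, nu X W a0 n * th (n + t i) * (PR E X f a b i t (n + t i) * G n) =
      ∑ n ∈ Icc 1 ⌊3 * X⌋₊, nu X W a0 n * th (n + t i) *
        ((fun n : ℕ => PR E X f a b i t n * G ((n : ℤ) - t i)) (n + t i)) := by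
    refine Finset.sum_congr rfl fun n _ => ?_
    have : (((n + t i : ℕ) : ℤ) - t i) = (n : ℤ) := by push_cast; ring
    simp only [this]
  rw [← s0] at s1
  -- step 3 : asymptotics
  have s5 := h1 ps (fun _ => E) (fun p _ => 1 / ((p : ℝ) - 1)) (fun _ => hEsup)
      (fun _ p hp hpl => hEE (EE_small hS h2.2.1 hp hpl)) (fun _ p hp => w_two hp)
  have k3 : ∏ j : Fin K0, (LL X * BE E) = (LL X * BE E) ^ K0 := by
    rw [Finset.prod_const, Finset.card_univ, Fintype.card_fin]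
  rw [k3] at s5
  set SS := sieveSum K0 (fun j => f (a (i.succAbove j))) (fun j => f (b (i.succAbove j))) (LL X) (fun _ => E)
    (fun p _ => 1 / ((p : ℝ) - 1)) (RR X)
  set D := ∏ j : Fin K0, DD (f (a (i.succAbove j))) (f (b (i.succAbove j))) with hD
  have hLP : 0 ≤ LPhi X * (1 / (W.totient : ℝ)) := by
    apply mul_nonneg
    · unfold LPhi
      exact Finset.sum_nonneg fun n _ => mul_nonneg (Phi_nonneg _) ArithmeticFunction.vonMangoldt_nonneg
    · positivity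
  have s6 : |(M * (LPhi X * (1 / (W.totient : ℝ)))) * SS -
      (M * ((LPhi X * (1 / (W.totient : ℝ))) * (1 / (LL X * BE E) ^ K0))) * D| ≤
      (M * ((LPhi X * (1 / (W.totient : ℝ))) * (1 / (LL X * BE E) ^ K0))) * ε1 := by
    have : (M * (LPhi X * (1 / (W.totient : ℝ)))) * SS -
      (M * ((LPhi X * (1 / (W.totient : ℝ))) * (1 / (LL X * BE E) ^ K0))) * D =
      (M * ((LPhi X * (1 / (W.totient : ℝ))) * (1 / (LL X * BE E) ^ K0))) * ((LL X * BE E) ^ K0 * SS - D) := by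
      field_simp
    rw [this, abs_mul, abs_of_nonneg (by positivity)]
    exact mul_le_mul_of_nonneg_left s5 (by positivity)
  have s7 : Real.exp (2 * LL X) * Gm * ((4 * (t i : ℝ)) * Real.log (4 * X) + 4 * Real.sqrt X * Real.log (4 * X)) ≤
      Real.exp (2 * LL X) * Gm * ((4 * (Real.log X) ^ 2) * Real.log (4 * X) + 4 * Real.sqrt X * Real.log (4 * X)) := by
    have hti : (t i : ℝ) ≤ (Real.log X) ^ 2 := htT i
    have hl : 0 ≤ Real.log (4 * X) := Real.log_nonneg (by linarith)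
    gcongr
  have s8 := abs_le.1 s1
  have s9 := abs_le.1 s2
  have s10 := abs_le.1 s6
  rw [abs_le]
  constructor <;> linarith [s8.1, s8.2, s9.1, s9.2, s10.1, s10.2, s7]

/-- Task L2 -/
theorem S2_boundV (h5 : SieveAsymp) {K0 B : ℕ} (f : Fin B → ℝ → ℝ) (c : Fin B → ℝ)
    (A : Finset (Fin (K0 + 1) → Fin B))
    (hsm : ∀ l, ContDiff ℝ ∞ (f l)) (hcs : ∀ l, HasCompactSupport (f l)) (hf0 : ∀ l x, c l < x → f l x = 0)
    (hc : ∀ l, 0 ≤ c l ∧ c l ≤ 1 / 2) (hA : ∀ a ∈ A, ∑ j, c (a j) ≤ 1) (hf1 : ∀ l x, |f l x| ≤ 1)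
    (ε1 : ℝ) (hε1 : 0 < ε1) :
    ∀ᶠ X : ℝ in atTop, ∀ (Z ps : ℕ) (S : Finset ℕ) (a0 : ℕ) (t : Fin (K0 + 1) → ℕ),
      GoodP Z ps → GoodS X S →
      ∀ E : Finset ℕ, EE X S ps ⊆ E → E ⊆ Esup X ps →
      (∀ i j, i ≠ j → ∀ p : ℕ, p.Prime → p ∉ E → ¬ (p : ℤ) ∣ (t i : ℤ) - t j) →
      (∀ j, (t j : ℝ) ≤ (Real.log X) ^ 2) → (∀ i, (a0 + t i).Coprime (WW X S ps)) →
      ∀ (G : ℤ → ℝ) (M Gm : ℝ) (err : ℕ → ℝ), 0 ≤ M → 0 ≤ Gm → (∀ a, |G a| ≤ Gm) → (∀ q, 0 ≤ err q) →
      ∀ i, ClassB X (WW X S ps) ps t i G M err →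
      M * ((LPhi X * (1 / ((WW X S ps).totient : ℝ))) * (1 / (LL X * BE E) ^ K0) * (JJ f A i - ε1)) -
        (A.card : ℝ) ^ 2 * (tot (K0 + 1) X (WW X S ps) ps err + Real.exp (2 * LL X) * Gm *
          ((4 * (Real.log X) ^ 2) * Real.log (4 * X) + 4 * Real.sqrt X * Real.log (4 * X))) ≤
      ∑ n ∈ Icc 1 ⌊3 * X⌋₊, nu X (WW X S ps) a0 n *
        (sqw E X f A (fun j => (n : ℤ) + t j) ^ 2 * G n * th (n + t i)) := by
  classical
  have hev : ∀ i : Fin (K0 + 1), ∀ᶠ X : ℝ in atTop, ∀ a ∈ A, ∀ b ∈ A,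
    ∀ (Z ps : ℕ) (S : Finset ℕ) (a0 : ℕ) (t : Fin (K0 + 1) → ℕ), GoodP Z ps → GoodS X S →
      ∀ E : Finset ℕ, EE X S ps ⊆ E → E ⊆ Esup X ps →
      (∀ i j, i ≠ j → ∀ p : ℕ, p.Prime → p ∉ E → ¬ (p : ℤ) ∣ (t i : ℤ) - t j) →
      (∀ j, (t j : ℝ) ≤ (Real.log X) ^ 2) → ((a0 + t i).Coprime (WW X S ps)) →
      ∀ (G : ℤ → ℝ) (M Gm : ℝ) (err : ℕ → ℝ), 0 ≤ M → 0 ≤ Gm → (∀ a, |G a| ≤ Gm) → (∀ q, 0 ≤ err q) →
      ClassB X (WW X S ps) ps t i G M err →
      |∑ n ∈ Icc 1 ⌊3 * X⌋₊, nu X (WW X S ps) a0 n * th (n + t i) * (PR E X f a b i t (n + t i) * G n) -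
        (M * ((LPhi X * (1 / ((WW X S ps).totient : ℝ))) * (1 / (LL X * BE E) ^ K0))) *
          ∏ j : Fin K0, DD (f (a (i.succAbove j))) (f (b (i.succAbove j)))| ≤
      (M * ((LPhi X * (1 / ((WW X S ps).totient : ℝ))) * (1 / (LL X * BE E) ^ K0))) * (ε1 / ((A.card : ℝ) ^ 2 + 1)) +
        (tot (K0 + 1) X (WW X S ps) ps err + Real.exp (2 * LL X) * Gm *
          ((4 * (Real.log X) ^ 2) * Real.log (4 * X) + 4 * Real.sqrt X * Real.log (4 * X))) := by
    intro i
    rw [Filter.eventually_all_finset]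
    intro a ha
    rw [Filter.eventually_all_finset]
    intro b hb
    exact S2_pairV h5 f c hsm hcs hf0 hc hf1 _ (by positivity) a b i (hA a ha) (hA b hb)
  rw [← Filter.eventually_all] at hev
  have hR : ∀ᶠ X : ℝ in atTop, 1 ≤ RR X ∧ (RR X : ℝ) < X := by
    filter_upwards [LL_tendsto.eventually_ge_atTop 1, eventually_gt_atTop 1] with X h1 h2
    have hlog : 0 < Real.log X := Real.log_pos h2
    constructor
    · unfold RR
      apply Nat.le_floor
      rw [Nat.cast_one]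
      exact Real.one_le_exp (by linarith)
    · unfold RR
      calc (⌊Real.exp (LL X)⌋₊ : ℝ) ≤ Real.exp (LL X) := Nat.floor_le (Real.exp_pos _).le
        _ < Real.exp (Real.log X) := by
            apply Real.exp_lt_exp.2
            unfold LL
            linarith
        _ = X := Real.exp_log (by linarith)
  filter_upwards [hev, hR, eventually_ge_atTop 4] with X h1 h2 h4
  intro Z ps S a0 t hps hS E hEE hEsup ht htT hcop G M Gm err hM hGm hG herr i hcl
  set W := WW X S ps with hW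
  have hterm : ∀ n ∈ Icc 1 ⌊3 * X⌋₊, nu X W a0 n * (sqw E X f A (fun j => (n : ℤ) + t j) ^ 2 * G n * th (n + t i)) =
      ∑ a ∈ A, ∑ b ∈ A, f (a i) 0 * f (b i) 0 *
        (nu X W a0 n * th (n + t i) * (PR E X f a b i t (n + t i) * G n)) := by
    intro n _
    by_cases hz : nu X W a0 n * th (n + t i) = 0
    · have e1 : nu X W a0 n * (sqw E X f A (fun j => (n : ℤ) + t j) ^ 2 * G n * th (n + t i)) =
        (nu X W a0 n * th (n + t i)) * (sqw E X f A (fun j => (n : ℤ) + t j) ^ 2 * G n) := by ring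
      rw [e1, hz, zero_mul]
      symm
      apply Finset.sum_eq_zero; intro a _
      apply Finset.sum_eq_zero; intro b _
      rw [zero_mul, mul_zero]
    · have hnu : nu X W a0 n ≠ 0 := fun h => hz (by rw [h, zero_mul])
      have hth : th (n + t i) ≠ 0 := fun h => hz (by rw [h, mul_zero])
      have hp : (n + t i).Prime := by
        by_contra hnp
        apply hth
        unfold th
        rw [if_neg hnp]
      have hXn : X < n := by
        by_contra hle
        push Not at hle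
        apply hnu
        unfold nu
        rw [Phi_eq_zero_of_le (by positivity) (by rw [div_le_one (by linarith)]; exact hle), ite_self]
      have hRn : RR X < n + t i := by
        have h3 : (RR X : ℝ) < n := h2.2.trans hXn
        have h5 : RR X < n := by exact_mod_cast h3
        omega
      rw [sqw_at_prime E X f A i t n h2.1 hp hRn, Finset.sum_mul, Finset.sum_mul, Finset.mul_sum]
      refine Finset.sum_congr rfl fun a _ => ?_
      rw [Finset.sum_mul, Finset.sum_mul, Finset.mul_sum]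
      refine Finset.sum_congr rfl fun b _ => ?_
      ring
  rw [Finset.sum_congr rfl hterm]
  have hexch : ∑ n ∈ Icc 1 ⌊3 * X⌋₊, ∑ a ∈ A, ∑ b ∈ A,
      f (a i) 0 * f (b i) 0 * (nu X W a0 n * th (n + t i) * (PR E X f a b i t (n + t i) * G n)) =
      ∑ a ∈ A, ∑ b ∈ A, f (a i) 0 * f (b i) 0 *
        ∑ n ∈ Icc 1 ⌊3 * X⌋₊, nu X W a0 n * th (n + t i) * (PR E X f a b i t (n + t i) * G n) := by
    rw [Finset.sum_comm]
    refine Finset.sum_congr rfl fun a _ => ?_
    rw [Finset.sum_comm]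
    refine Finset.sum_congr rfl fun b _ => ?_
    rw [Finset.mul_sum]
  rw [hexch]
  set M1 := M * ((LPhi X * (1 / (W.totient : ℝ))) * (1 / (LL X * BE E) ^ K0)) with hM1
  set Er := tot (K0 + 1) X W ps err + Real.exp (2 * LL X) * Gm *
          ((4 * (Real.log X) ^ 2) * Real.log (4 * X) + 4 * Real.sqrt X * Real.log (4 * X)) with hEr
  have hpair : ∀ a ∈ A, ∀ b ∈ A, M1 * (f (a i) 0 * f (b i) 0 * ∏ j : Fin K0, DD (f (a (i.succAbove j))) (f (b (i.succAbove j)))) -
      (M1 * (ε1 / ((A.card : ℝ) ^ 2 + 1)) + Er) ≤ f (a i) 0 * f (b i) 0 *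
        ∑ n ∈ Icc 1 ⌊3 * X⌋₊, nu X W a0 n * th (n + t i) * (PR E X f a b i t (n + t i) * G n) := by
    intro a ha b hb
    have k1 := h1 i a ha b hb Z ps S a0 t hps hS E hEE hEsup ht htT (hcop i) G M Gm err hM hGm hG herr hcl
    have k2 : |f (a i) 0 * f (b i) 0| ≤ 1 := by
      rw [abs_mul]
      calc |f (a i) 0| * |f (b i) 0| ≤ 1 * 1 := mul_le_mul (hf1 _ _) (hf1 _ _) (abs_nonneg _) zero_le_one
        _ = 1 := one_mul 1
    set U := ∑ n ∈ Icc 1 ⌊3 * X⌋₊, nu X W a0 n * th (n + t i) * (PR E X f a b i t (n + t i) * G n)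
    set D := ∏ j : Fin K0, DD (f (a (i.succAbove j))) (f (b (i.succAbove j)))
    have k3 : |f (a i) 0 * f (b i) 0 * (U - M1 * D)| ≤ M1 * (ε1 / ((A.card : ℝ) ^ 2 + 1)) + Er := by
      rw [abs_mul]
      calc |f (a i) 0 * f (b i) 0| * |U - M1 * D| ≤ 1 * (M1 * (ε1 / ((A.card : ℝ) ^ 2 + 1)) + Er) :=
            mul_le_mul k2 k1 (abs_nonneg _) zero_le_one
        _ = _ := one_mul _
    have k4 := (abs_le.1 k3).1
    have k5 : f (a i) 0 * f (b i) 0 * (U - M1 * D) = f (a i) 0 * f (b i) 0 * U - M1 * (f (a i) 0 * f (b i) 0 * D) := by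
      ring
    rw [k5] at k4
    linarith
  refine le_trans ?_ (Finset.sum_le_sum fun a ha => Finset.sum_le_sum fun b hb => hpair a ha b hb)
  simp_rw [Finset.sum_sub_distrib, ← Finset.mul_sum, Finset.sum_const, nsmul_eq_mul]
  have hfin : ((A.card : ℝ) * ((A.card : ℝ) * (ε1 / ((A.card : ℝ) ^ 2 + 1)))) ≤ ε1 := by
    have : (A.card : ℝ) * ((A.card : ℝ) * (ε1 / ((A.card : ℝ) ^ 2 + 1))) =
        ((A.card : ℝ) ^ 2 / ((A.card : ℝ) ^ 2 + 1)) * ε1 := by ring
    rw [this]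
    have h7 : (A.card : ℝ) ^ 2 / ((A.card : ℝ) ^ 2 + 1) ≤ 1 := by
      rw [div_le_one (by positivity)]; linarith
    nlinarith
  have hM1nn : 0 ≤ M1 := by
    rw [hM1]
    apply mul_nonneg hM
    apply mul_nonneg
    · apply mul_nonneg
      · unfold LPhi
        exact Finset.sum_nonneg fun n _ => mul_nonneg (Phi_nonneg _) ArithmeticFunction.vonMangoldt_nonneg
      · positivity
    · apply one_div_nonneg.2
      apply pow_nonneg
      apply mul_nonneg
      · unfold LL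
        have := Real.log_nonneg (by linarith : (1 : ℝ) ≤ X)
        positivity
      · exact (BE_pos fun p hp => Esup_prime (hEsup hp)).le
  have hJ : JJ f A i = ∑ a ∈ A, ∑ b ∈ A, f (a i) 0 * f (b i) 0 * ∏ j : Fin K0, DD (f (a (i.succAbove j))) (f (b (i.succAbove j))) := rfl
  rw [← hJ]
  have := mul_le_mul_of_nonneg_left hfin hM1nn
  calc M * ((LPhi X * (1 / (W.totient : ℝ))) * (1 / (LL X * BE E) ^ K0) * (JJ f A i - ε1)) - (A.card : ℝ) ^ 2 * Er =
        M1 * JJ f A i - M1 * ε1 - (A.card : ℝ) ^ 2 * Er := by rw [hM1]; ring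
    _ ≤ M1 * JJ f A i - M1 * ((A.card : ℝ) * ((A.card : ℝ) * (ε1 / ((A.card : ℝ) ^ 2 + 1)))) - (A.card : ℝ) ^ 2 * Er := by
        linarith
    _ = _ := by ring

end Pool.Agent.H312R2.RG
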