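import Pool.Agent.H312R2.RG.A2
import Pool.Agent.H312R2.RG.L1
import Pool.Agent.H312R2.RG.L2

set_option autoImplicit false

/-! TEAM RG: assembly of Maynard-Tao inside the record windows -/

open Finset Filter
open scoped ContDiff

namespace Pool.Agent.H312R2.RG

open Pool.Agent.H378R2
open Pool.Agent.H398R2.PG (Et EE_sub_Et Et_res familyR ev_RR)
open Pool.Agent.H256R2.SC (ff)


/-- conclusion from a good `n` -/
theorem finishRG (K0 r : ℕ) (F X : ℝ) (ps a0 : ℕ) (S : Finset ℕ) (t : Fin (K0 + 1) → ℕ)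
    (htT : ∀ j, (t j : ℝ) ≤ F)
    (hX40 : 40 ≤ X) (hFX : F ≤ X) (hyX : (yy X : ℝ) < X)
    (U : Finset ℕ) (hU : ∀ s : ℕ, (s : ℝ) ≤ F → (∀ j, s ≠ t j) → (a0 + s).Coprime (WW X S ps) → s ∈ U)
    (T : ℤ → ℝ) (hTnn : ∀ a, 0 ≤ T a)
    (hTU : ∀ a, T a < 1 → ∀ k ∈ U, ∃ p : ℕ, p.Prime ∧ (p : ℝ) ≤ X ^ (1 / 100 : ℝ) ∧ (p : ℤ) ∣ a + k)
    (bad : Finset ℕ) (n : ℕ) (hXn : X < n) (hn3 : (n : ℝ) ≤ 3 * X) (hcl : n ≡ a0 [MOD WW X S ps])
    (hBr : 0 < (∑ i, th (n + t i)) / Real.log (4 * X) - r - ((K0 + 1 : ℕ) : ℝ) * T n -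
      ((K0 + 1 : ℕ) : ℝ) * (if n ∈ bad then 1 else 0)) :
    n ∉ bad ∧ r ≤ ((univ : Finset (Fin (K0 + 1))).filter (fun j => (n + t j).Prime)).card ∧
    ∀ s : ℕ, (s : ℝ) ≤ F → (n + s).Prime → ∃ j, s = t j := by
  classical
  have hXpos : 0 < X := by linarith
  set l4 := Real.log (4 * X) with hl4
  have hl4pos : 0 < l4 := Real.log_pos (by linarith)
  have hth : ∀ i, th (n + t i) / l4 ≤ if (n + t i).Prime then 1 else 0 := by
    intro i
    unfold th
    split_ifs with hp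
    · rw [div_le_one hl4pos, hl4]
      apply Real.log_le_log (by exact_mod_cast hp.pos)
      push_cast
      have h1 := htT i
      linarith
    · rw [zero_div]
  have hthsum : (∑ i, th (n + t i)) / l4 ≤ ((univ.filter (fun i => (n + t i).Prime)).card : ℝ) := by
    rw [Finset.sum_div]
    refine (Finset.sum_le_sum fun i _ => hth i).trans ?_
    rw [Finset.sum_boole]
  have hcardK : ((univ.filter (fun i => (n + t i).Prime)).card : ℝ) ≤ ((K0 + 1 : ℕ) : ℝ) := by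
    have h1 : (univ.filter (fun i => (n + t i).Prime)).card ≤ K0 + 1 := by
      refine (Finset.card_filter_le _ _).trans ?_
      rw [Finset.card_univ, Fintype.card_fin]
    exact_mod_cast h1
  set K : ℝ := ((K0 + 1 : ℕ) : ℝ) with hKdef
  have hKpos : 0 < K := by rw [hKdef]; positivity
  have hrnn : (0 : ℝ) ≤ r := Nat.cast_nonneg r
  have hTn := hTnn n
  have hKT : 0 ≤ K * T n := by positivity
  have hbdnn : (0 : ℝ) ≤ K * (if n ∈ bad then 1 else 0) := by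
    split_ifs
    · rw [mul_one]; exact hKpos.le
    · rw [mul_zero]
  refine ⟨?_, ?_, ?_⟩
  · intro hb
    rw [if_pos hb] at hBr
    linarith
  · have h1 : (r : ℝ) < ((univ.filter (fun i => (n + t i).Prime)).card : ℝ) := by linarith
    have h2 : r < (univ.filter (fun i => (n + t i).Prime)).card := by exact_mod_cast h1
    exact h2.le
  · intro s hs hp
    by_contra hcon
    push Not at hcon
    by_cases hcop : (a0 + s).Coprime (WW X S ps)
    · have hsU := hU s hs hcon hcop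
      have hT1 : T n < 1 := by
        by_contra h
        push Not at h
        have h3 : K * 1 ≤ K * T n := mul_le_mul_of_nonneg_left h hKpos.le
        linarith
      obtain ⟨p, hpp, hpX, hpd⟩ := hTU n hT1 s hsU
      have h4 : p ∣ n + s := by exact_mod_cast hpd
      have h5 : p = n + s := (Nat.prime_dvd_prime_iff_eq hpp hp).1 h4
      have h6 : X ^ (1 / 100 : ℝ) ≤ X := by
        calc X ^ (1 / 100 : ℝ) ≤ X ^ (1 : ℝ) := Real.rpow_le_rpow_of_exponent_le (by linarith) (by norm_num)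
          _ = X := Real.rpow_one X
      have h8 : (n : ℝ) ≤ p := by
        rw [h5]; push_cast
        have : (0 : ℝ) ≤ s := Nat.cast_nonneg s
        linarith
      linarith
    · obtain ⟨p, hpp, h1, h2⟩ := Nat.Prime.not_coprime_iff_dvd.1 hcop
      have hpPW := (prime_dvd_WW hpp).1 h2
      have h3 : n + s ≡ a0 + s [MOD p] := (hcl.of_dvd h2).add_right s
      have h4 : p ∣ n + s := (Nat.modEq_zero_iff_dvd.1 (h3.trans (Nat.modEq_zero_iff_dvd.2 h1)))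
      have h5 : p = n + s := (Nat.prime_dvd_prime_iff_eq hpp hp).1 h4
      have h6 : p ≤ yy X := (mem_PW.1 hpPW).1
      have h7 : (p : ℝ) ≤ yy X := by exact_mod_cast h6
      have h8 : (n : ℝ) ≤ p := by
        rw [h5]; push_cast
        have : (0 : ℝ) ≤ s := Nat.cast_nonneg s
        linarith
      linarith

/-- growth facts for the main error terms -/
theorem ev_main (K0 r : ℕ) (cA I : ℝ) (hI : 0 < I) : ∀ᶠ X : ℝ in atTop,
    (2 * ((K0 + 1 : ℕ) : ℝ) + r) * cA ^ 2 * 160 / I ≤ (Real.log X) ^ 3 ∧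
    8 * ((K0 + 1 : ℕ) : ℝ) ≤ (Real.log X) ^ (K0 + 5) ∧ 1 ≤ Real.log X := by
  filter_upwards [Real.tendsto_log_atTop.eventually_ge_atTop
      ((2 * ((K0 + 1 : ℕ) : ℝ) + r) * cA ^ 2 * 160 / I),
    Real.tendsto_log_atTop.eventually_ge_atTop (8 * ((K0 + 1 : ℕ) : ℝ)),
    Real.tendsto_log_atTop.eventually_ge_atTop 1] with X h1 h2 h3
  refine ⟨h1.trans ?_, h2.trans ?_, h3⟩
  · calc Real.log X = (Real.log X) ^ 1 := (pow_one _).symm
      _ ≤ _ := pow_le_pow_right₀ h3 (by norm_num)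
  · calc Real.log X = (Real.log X) ^ 1 := (pow_one _).symm
      _ ≤ _ := pow_le_pow_right₀ h3 (by omega)

/-- the total of the class errors -/
theorem tot_err (K0 r : ℕ) (cA I X W Z₁ t1 t2 t3 : ℝ) (hI : 0 < I) (hX : 0 < X) (hW : 0 < W)
    (hZ : 1 ≤ Z₁) (hl : 1 ≤ Real.log X)
    (h1 : (2 * ((K0 + 1 : ℕ) : ℝ) + r) * cA ^ 2 * 160 / I ≤ (Real.log X) ^ 3)
    (e1 : t1 ≤ Z₁ * (X / (W * (Real.log X) ^ (K0 + 5))))
    (e2 : t2 ≤ Z₁ * (X / (W * (Real.log X) ^ (K0 + 5))))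
    (e3 : t3 ≤ Z₁ * (X / (W * (Real.log X) ^ (K0 + 5)))) :
    ((K0 + 1 : ℕ) : ℝ) * (cA ^ 2 * t3) + r * (cA ^ 2 * t1) + ((K0 + 1 : ℕ) : ℝ) * (cA ^ 2 * t2) ≤
      Z₁ * ((X / (W * (Real.log X) ^ (K0 + 1))) * (I / 160)) := by
  set l := Real.log X with hl'
  set P := X / (W * l ^ (K0 + 5)) with hP
  have hlpos : 0 < l := by linarith
  have hPnn : 0 ≤ P := by rw [hP]; positivity
  have hK : (0 : ℝ) ≤ ((K0 + 1 : ℕ) : ℝ) := Nat.cast_nonneg _
  have hr : (0 : ℝ) ≤ r := Nat.cast_nonneg _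
  have hc : 0 ≤ cA ^ 2 := sq_nonneg _
  have hl4 : l ^ 3 ≤ l ^ 4 := pow_le_pow_right₀ hl (by norm_num)
  calc ((K0 + 1 : ℕ) : ℝ) * (cA ^ 2 * t3) + r * (cA ^ 2 * t1) + ((K0 + 1 : ℕ) : ℝ) * (cA ^ 2 * t2)
      ≤ ((K0 + 1 : ℕ) : ℝ) * (cA ^ 2 * (Z₁ * P)) + r * (cA ^ 2 * (Z₁ * P)) +
        ((K0 + 1 : ℕ) : ℝ) * (cA ^ 2 * (Z₁ * P)) := by gcongr
    _ = Z₁ * P * ((2 * ((K0 + 1 : ℕ) : ℝ) + r) * cA ^ 2) := by ring
    _ = Z₁ * P * (((2 * ((K0 + 1 : ℕ) : ℝ) + r) * cA ^ 2 * 160 / I) * (I / 160)) := by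
        field_simp
    _ ≤ Z₁ * P * (l ^ 4 * (I / 160)) := by
        apply mul_le_mul_of_nonneg_left _ (by positivity)
        apply mul_le_mul_of_nonneg_right _ (by positivity)
        linarith
    _ = Z₁ * ((X / (W * l ^ (K0 + 1))) * (I / 160)) := by
        rw [hP, show K0 + 5 = (K0 + 1) + 4 by omega, pow_add]
        field_simp

/-- (RG) Maynard-Tao inside the record windows -/
theorem mtrg_of (h5 : Pool.Agent.H378R2.SieveAsymp) (hbv : Pool.Agent.H378R2.BVrel) (hcov : CovR)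
    (hw : Weights) : MTRG := by
  classical
  intro r
  obtain ⟨K0, B, f, c, A, hsm, hcs, hf0, hc, hA, hf1, hIpos, hratio, hrK⟩ := familyR (1600000 * (r + 3)) r
  have hKpos : (0 : ℝ) < ((K0 + 1 : ℕ) : ℝ) := by positivity
  obtain ⟨ε1, hε1⟩ : ∃ ε1 : ℝ, ε1 = II f A / (((K0 + 1 : ℕ) : ℝ) + r + 1) := ⟨_, rfl⟩
  have hrnn : (0 : ℝ) ≤ r := Nat.cast_nonneg r
  have hden : (0 : ℝ) < ((K0 + 1 : ℕ) : ℝ) + r + 1 := by positivity
  have hε1pos : 0 < ε1 := by rw [hε1]; positivity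
  have hε1eq : (((K0 + 1 : ℕ) : ℝ) + r + 1) * ε1 = II f A := by
    rw [hε1]; field_simp
  have hε1le : (((K0 + 1 : ℕ) : ℝ) + r) * ε1 ≤ II f A := by linarith
  have hε1le2 : ε1 ≤ II f A := by
    have : 0 ≤ (((K0 + 1 : ℕ) : ℝ) + r) * ε1 := by positivity
    linarith
  obtain ⟨Aw, c₃, hc₃, hw1⟩ := hw (K0 + 1) (K0 + 5)
  obtain ⟨c₂, hc₂, Z, X2, hcov1⟩ := hcov (K0 + 1) (c₃ / 2) (by positivity)
  obtain ⟨X3, hbvX⟩ := hbv Aw (max Z 4)
  have hw2 := hw1 (max Z 4)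
  refine ⟨K0 + 1, hrK, c₂, hc₂, ?_⟩
  have hη : 0 < II f A / 160 := by positivity
  rw [← Filter.eventually_atTop]
  filter_upwards [S1_boundV h5 f c A hsm hcs hf0 hc hA hf1 ε1 hε1pos,
    S2_boundV h5 f c A hsm hcs hf0 hc hA hf1 ε1 hε1pos,
    EE_facts 0, LPhi_ge, errRG (K0 + 1) A.card (II f A / 160) (Nat.cast_nonneg _) hη,
    LL_tendsto.eventually_ge_atTop 1, eventually_ge_atTop 40, eventually_ge_atTop X2, eventually_ge_atTop X3,
    Et2_sub (K := K0 + 1), BE_Et2_ge (K0 + 1), ev_ff c₂ hc₂, hw2,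
    ev_main K0 r A.card (II f A) hIpos, Real.tendsto_log_atTop.eventually_ge_atTop (2 / c₃)]
    with X hS1 hS2 hEf hLP herr hL1 hX40 hX2 hX3 hEtsub hBEt hff hwX hmain hlc
  intro t htinj htup bad hbad
  obtain ⟨ps, S, hps, hS, hbvS⟩ := hbvX X hX3
  have hpsZ : GoodP Z ps := by
    rcases hps with h | h
    · exact Or.inl h
    · exact Or.inr ⟨h.1, lt_of_le_of_lt (le_max_left _ _) h.2⟩
  obtain ⟨a0, hcop, hcard⟩ := hcov1 X hX2 ps S hpsZ hS t htup
  have htT : ∀ j, (t j : ℝ) ≤ c₂ * ff X := fun j => (htup j).2.2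
  have htl : ∀ j, (t j : ℝ) ≤ (Real.log X) ^ 2 := fun j => (htT j).trans hff.1
  have hWpos : 0 < WW X S ps := WW_pos X S ps
  have hWr : (0 : ℝ) < (WW X S ps : ℝ) := by exact_mod_cast hWpos
  have hXpos : 0 < X := by linarith
  have hlX : 1 ≤ Real.log X := hmain.2.2
  have hffnn : 0 ≤ c₂ * ff X := mul_nonneg hc₂.le hff.2.1
  -- the survivors
  set U0 := (range (⌊c₂ * ff X⌋₊ + 1)).filter (fun s => (∀ j, s ≠ t j) ∧ (a0 + s).Coprime (WW X S ps)) with hU0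
  set U := insert 0 U0 with hU
  have hUcard : (U.card : ℝ) ≤ c₃ * Real.log X := by
    have h1 : (U.card : ℝ) ≤ U0.card + 1 := by
      rw [hU]
      exact_mod_cast Finset.card_insert_le 0 U0
    have h2 : 2 / c₃ * c₃ ≤ Real.log X * c₃ := mul_le_mul_of_nonneg_right hlc hc₃.le
    have h3 : 2 / c₃ * c₃ = 2 := by field_simp
    rw [h3] at h2
    have h4 : c₃ / 2 * Real.log X = Real.log X * c₃ / 2 := by ring
    rw [h4] at hcard
    linarith
  have hUk : ∀ k ∈ U, (k : ℝ) ≤ (Real.log X) ^ 2 := by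
    intro k hk
    rw [hU, Finset.mem_insert] at hk
    rcases hk with rfl | hk
    · push_cast; positivity
    · rw [hU0, Finset.mem_filter, Finset.mem_range] at hk
      have h1 : (k : ℝ) ≤ c₂ * ff X := (Nat.le_floor_iff hffnn).1 (by omega)
      exact h1.trans hff.1
  have hUt : ∀ j, t j ∉ U := by
    intro j hj
    rw [hU, Finset.mem_insert] at hj
    rcases hj with hj | hj
    · exact (htup j).1.ne_zero hj
    · rw [hU0, Finset.mem_filter] at hj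
      exact hj.2.1 j rfl
  have hUne : U.Nonempty := ⟨0, by rw [hU]; exact Finset.mem_insert_self _ _⟩
  obtain ⟨V, T, Z₁, M, M', M₂, e₁, e₂, e₃, hV, hTnn, hTU, hZ1, hM1, hMZ, hM', hM₂0, hM₂le, he, hcA, hcA2, hcB,
    ht1, ht2, ht3⟩ := hwX ps S hps hS hbvS t U htl hUk hUt hUne hUcard
  set E := Et X S ps t with hE
  have hEE : EE X S ps ⊆ E := EE_sub_Et X S ps t
  have hEsup : E ⊆ Esup X ps := hEtsub ps S t htl
  have hres := Et_res (X := X) (S := S) (ps := ps) htinj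
  have hMM : MPhi X / 400 ≤ LPhi X := by
    have := MPhi_le X (by linarith)
    linarith
  have hM0 : 0 ≤ M := by linarith
  have hM'0 : 0 ≤ M' := by linarith
  have hM₂s : ((K0 + 1 : ℕ) : ℝ) * M₂ ≤ Z₁ / 8 := by
    have h1 : ((K0 + 1 : ℕ) : ℝ) * M₂ ≤ ((K0 + 1 : ℕ) : ℝ) * (Z₁ / (Real.log X) ^ (K0 + 5)) :=
      mul_le_mul_of_nonneg_left hM₂le hKpos.le
    refine h1.trans ?_
    have hlp : 0 < (Real.log X) ^ (K0 + 5) := by positivity
    rw [mul_div_assoc', div_le_div_iff₀ hlp (by norm_num)]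
    have h2 := mul_le_mul_of_nonneg_left hmain.2.1 (show (0 : ℝ) ≤ Z₁ by linarith)
    linarith
  have ht3nn : 0 ≤ tot (K0 + 1) X (WW X S ps) ps e₃ := by
    unfold tot
    exact Finset.sum_nonneg fun q _ => mul_nonneg (by positivity) (he q).2.2
  have hVT : ∀ a, 0 ≤ (fun a => V a * T a) a := fun a => mul_nonneg (hV a).1 (hTnn a)
  have hpos := pos_atRG K0 B r f c A hf0 hA hf1 hIpos ε1 X hε1pos hε1le hε1le2 hratio ps a0 S t hX40 hL1 hMM
    E hEsup (hBEt (max Z 4) ps S t (le_max_right _ _) hps hS htl) V T Z₁ M M' M₂ _ _ _ hV hZ1 hM1 hMZ hM' hM₂0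
    hM₂s ht3nn
    (hS1 (max Z 4) ps S a0 t hps hS E hEE hEsup hres V M e₁ hM0 (fun q => (he q).1) hcA)
    (fun i => hS2 (max Z 4) ps S a0 t hps hS E hEE hEsup hres htl hcop V M' (X ^ (1 / 100 : ℝ)) e₃ hM'0
      (by positivity) (fun a => by rw [abs_of_nonneg (hV a).1]; exact (hV a).2) (fun q => (he q).2.2) i (hcB i))
    (hS1 (max Z 4) ps S a0 t hps hS E hEE hEsup hres (fun a => V a * T a) M₂ e₂ hM₂0 (fun q => (he q).2.1) hcA2)
    (tot_err K0 r A.card (II f A) X (WW X S ps) Z₁ _ _ _ hIpos hXpos hWr hZ1 hlX hmain.1 ht1 ht2 ht3)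
    (herr _ hWr (WW_le X (by linarith) S ps)) bad hbad
  obtain ⟨n, hn, hnpos⟩ : ∃ n ∈ Icc 1 ⌊3 * X⌋₊, 0 < (nu X (WW X S ps) a0 n *
      sqw E X f A (fun j => (n : ℤ) + t j) ^ 2 * V n) *
      ((∑ i, th (n + t i)) / Real.log (4 * X) - r - ((K0 + 1 : ℕ) : ℝ) * T n -
      ((K0 + 1 : ℕ) : ℝ) * (if n ∈ bad then 1 else 0)) := by
    by_contra hcon
    push Not at hcon
    exact absurd hpos (not_lt.2 (Finset.sum_nonpos hcon))
  have hWnn : 0 ≤ nu X (WW X S ps) a0 n * sqw E X f A (fun j => (n : ℤ) + t j) ^ 2 * V n :=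
    mul_nonneg (mul_nonneg (nu_nonneg _ _ _ _) (sq_nonneg _)) (hV n).1
  have hWpos' : 0 < nu X (WW X S ps) a0 n * sqw E X f A (fun j => (n : ℤ) + t j) ^ 2 * V n := by
    rcases hWnn.eq_or_lt with h | h
    · rw [← h, zero_mul] at hnpos; exact absurd hnpos (lt_irrefl _)
    · exact h
  have hBrpos := (mul_pos_iff_of_pos_left hWpos').1 hnpos
  have hnu : nu X (WW X S ps) a0 n ≠ 0 := by
    intro h
    rw [h, zero_mul, zero_mul] at hWpos'
    exact lt_irrefl _ hWpos'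
  have hXn : X < n := by
    by_contra hle
    push Not at hle
    apply hnu
    unfold nu
    rw [Phi_eq_zero_of_le (by positivity) (by rw [div_le_one hXpos]; exact hle), ite_self]
  have hcl : n ≡ a0 [MOD WW X S ps] := by
    by_contra h
    apply hnu
    unfold nu
    rw [if_neg h]
  have hn3 : (n : ℝ) ≤ 3 * X := by
    rw [Finset.mem_Icc] at hn
    exact (Nat.cast_le.2 hn.2).trans (Nat.floor_le (by linarith))
  have hyX : (yy X : ℝ) < X := by
    have h1 : (yy X : ℝ) ≤ Real.log X / 1000 := Nat.floor_le (by positivity)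
    have h2 := Real.log_le_sub_one_of_pos hXpos
    linarith
  have hfin := finishRG K0 r (c₂ * ff X) X ps a0 S t htT hX40 (by linarith [hff.2.2]) hyX U (by
    intro s hs hst hsc
    rw [hU, Finset.mem_insert]
    right
    rw [hU0, Finset.mem_filter, Finset.mem_range, Nat.lt_succ_iff]
    exact ⟨Nat.le_floor hs, hst, hsc⟩) T hTnn hTU bad n hXn hn3 hcl hBrpos
  exact ⟨n, hXn, hn3, hfin.1, hfin.2.1, hfin.2.2⟩

end Pool.Agent.H312R2.RG
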