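import Pool.Agent.H312R2.RG.Defs
import Pool.Agent.H398R2.PG.G

set_option autoImplicit false

/-! TEAM RG: assembly, preliminary facts -/

open Finset Filter

namespace Pool.Agent.H312R2.RG

open Pool.Agent.H378R2
open Pool.Agent.H398R2.PG (Et natAbs_sub_le' mem_Esup_of_le card_primeFactors_le one_sub_sum_le_prod)
open Pool.Agent.H256R2.SC (ff)

/-- the final combination -/
theorem combineRG (Mm M2 II ε1 K r l4 L JJs Z M M' M₂ S1v S2v Tv Bv E1 E2 E3 E4 : ℝ)
    (hMm : 0 < Mm) (hII : 0 < II) (hε1 : 0 < ε1) (hK : 0 < K) (hr : 0 ≤ r) (hl4 : 1 ≤ l4)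
    (hl4L : l4 ≤ 400 * L) (hL : 0 < L) (hε1le : (K + r) * ε1 ≤ II) (hε1le2 : ε1 ≤ II)
    (hJ : 1600000 * (r + 3) * II ≤ JJs) (hM2 : Mm * (L / 800) ≤ M2) (hZ : 1 ≤ Z)
    (hM1 : 3 / 4 * Z ≤ M) (hMZ : M ≤ Z) (hM' : 3 / 4 * M ≤ M') (hM₂0 : 0 ≤ M₂) (hE2 : 0 ≤ E2)
    (H1 : S1v ≤ M * (Mm * (II + ε1)) + E1) (H2 : M' * (M2 * (JJs - K * ε1)) - E2 ≤ S2v)
    (H3 : Tv ≤ M₂ * (Mm * (II + ε1)) + E3) (H4 : Bv ≤ E4)
    (hE : E2 + r * E1 + K * E3 + K * E4 ≤ Z * Mm * II / 4) (hM₂ : K * M₂ ≤ Z / 8) :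
    0 < S2v / l4 - r * S1v - K * Tv - K * Bv := by
  have hZMI : 0 < Z * Mm * II := by positivity
  have hMpos : 0 < M := by linarith
  have hM'pos : 0 < M' := by linarith
  have hrε : 0 ≤ r * ε1 := by positivity
  have hJge : 1600000 * (r + 3) * II - II ≤ JJs - K * ε1 := by nlinarith
  have hJnn : 0 ≤ 1600000 * (r + 3) * II - II := by nlinarith
  have hrII : 0 ≤ r * II := by positivity
  -- S2
  have g1 : M' * (Mm * (1 / 320000) * (1600000 * (r + 3) * II - II)) - E2 ≤ S2v / l4 := by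
    rw [le_div_iff₀ (by linarith)]
    refine le_trans ?_ H2
    have h1 : M' * (Mm * (1 / 320000) * (1600000 * (r + 3) * II - II)) * l4 ≤
        M' * (M2 * (JJs - K * ε1)) := by
      calc M' * (Mm * (1 / 320000) * (1600000 * (r + 3) * II - II)) * l4
          ≤ M' * (Mm * (1 / 320000) * (1600000 * (r + 3) * II - II)) * (400 * L) :=
            mul_le_mul_of_nonneg_left hl4L (by positivity)
        _ = M' * ((Mm * (L / 800)) * (1600000 * (r + 3) * II - II)) := by ring
        _ ≤ M' * (M2 * (JJs - K * ε1)) := by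
            apply mul_le_mul_of_nonneg_left _ hM'pos.le
            apply mul_le_mul hM2 hJge hJnn
            exact le_trans (by positivity) hM2
    have h2 : E2 * 1 ≤ E2 * l4 := mul_le_mul_of_nonneg_left hl4 hE2
    rw [sub_mul]
    linarith
  have g1' : Z * Mm * II * (9 / 16 * (5 * (r + 3) - 1 / 320000)) - E2 ≤ S2v / l4 := by
    refine le_trans ?_ g1
    have h1 : Z * (9 / 16) ≤ M' := by linarith
    have h2 : 0 ≤ Mm * (1 / 320000) * (1600000 * (r + 3) * II - II) := by positivity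
    have h3 := mul_le_mul_of_nonneg_right h1 h2
    have h4 : Z * (9 / 16) * (Mm * (1 / 320000) * (1600000 * (r + 3) * II - II)) =
        Z * Mm * II * (9 / 16 * (5 * (r + 3) - 1 / 320000)) := by ring
    linarith
  -- S1
  have g2 : r * S1v ≤ Z * Mm * II * (2 * r) + r * E1 := by
    have h1 : M * (Mm * (II + ε1)) ≤ Z * (Mm * (2 * II)) := by
      apply mul_le_mul hMZ _ (by positivity) (by linarith)
      apply mul_le_mul_of_nonneg_left _ hMm.le
      linarith
    have h2 := mul_le_mul_of_nonneg_left (H1.trans (add_le_add_left h1 E1)) hr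
    calc r * S1v ≤ r * (Z * (Mm * (2 * II)) + E1) := h2
      _ = _ := by ring
  -- T
  have g3 : K * Tv ≤ Z * Mm * II * (1 / 4) + K * E3 := by
    have h1 : M₂ * (Mm * (II + ε1)) ≤ M₂ * (Mm * (2 * II)) := by
      apply mul_le_mul_of_nonneg_left _ hM₂0
      apply mul_le_mul_of_nonneg_left _ hMm.le
      linarith
    have h2 := mul_le_mul_of_nonneg_left (H3.trans (add_le_add_left h1 E3)) hK.le
    have h3 : K * M₂ * (Mm * (2 * II)) ≤ Z / 8 * (Mm * (2 * II)) :=
      mul_le_mul_of_nonneg_right hM₂ (by positivity)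
    calc K * Tv ≤ K * (M₂ * (Mm * (2 * II)) + E3) := h2
      _ = K * M₂ * (Mm * (2 * II)) + K * E3 := by ring
      _ ≤ Z / 8 * (Mm * (2 * II)) + K * E3 := by linarith
      _ = _ := by ring
  have g4 : K * Bv ≤ K * E4 := mul_le_mul_of_nonneg_left H4 hK.le
  have h5 : Z * Mm * II * (9 / 16 * (5 * (r + 3) - 1 / 320000)) - Z * Mm * II * (2 * r) -
      Z * Mm * II * (1 / 4) - Z * Mm * II / 4 =
      Z * Mm * II * ((9 / 16 * (5 * (r + 3) - 1 / 320000)) - 2 * r - 1 / 4 - 1 / 4) := by ring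
  have h6 : 0 < Z * Mm * II * ((9 / 16 * (5 * (r + 3) - 1 / 320000)) - 2 * r - 1 / 4 - 1 / 4) := by
    apply mul_pos hZMI
    nlinarith
  linarith

/-- the secondary error terms -/
theorem errRG (K : ℕ) (cA η : ℝ) (_hcA : 0 ≤ cA) (hη : 0 < η) :
    ∀ᶠ X : ℝ in atTop, ∀ W : ℝ, 0 < W → W ≤ Real.exp (Real.log X / 700) →
      (K : ℝ) * (cA ^ 2 * (Real.exp (2 * LL X) * X ^ (1 / 100 : ℝ) *
        ((4 * (Real.log X) ^ 2) * Real.log (4 * X) + 4 * Real.sqrt X * Real.log (4 * X)))) +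
      (K : ℝ) * (X ^ (9 / 10 : ℝ) * (cA ^ 2 * Real.exp (2 * LL X) * X ^ (1 / 100 : ℝ))) ≤
      (X / (W * (Real.log X) ^ K)) * η := by
  set C : ℝ := (K : ℝ) * cA ^ 2 * 16 + K * cA ^ 2 with hC
  have hCnn : 0 ≤ C := by rw [hC]; positivity
  have h1 := Real.tendsto_log_atTop.eventually (ev_pow_exp (3 + K) (1 / 20) (C / η) (by norm_num))
  filter_upwards [h1, eventually_ge_atTop 4, Real.tendsto_log_atTop.eventually_ge_atTop 2] with X h2 h4 h5
  intro W hW hWle
  rw [exp_two_LL X (by linarith)]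
  set l := Real.log X with hl
  have hX0 : 0 < X := by linarith
  have hXexp : X = Real.exp l := (Real.exp_log (by linarith)).symm
  set s := X ^ (9 / 10 : ℝ) with hs
  set q := X ^ (1 / 100 : ℝ) with hq
  have hsexp : s = Real.exp (9 / 10 * l) := by
    rw [hs, Real.rpow_def_of_pos (by linarith), ← hl]
    congr 1; ring
  have hqexp : q = Real.exp (1 / 100 * l) := by
    rw [hq, Real.rpow_def_of_pos (by linarith), ← hl]
    congr 1; ring
  have hq0 : 0 < q := by rw [hqexp]; exact Real.exp_pos _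
  have hs1 : 1 ≤ s := by rw [hsexp]; exact Real.one_le_exp (by linarith)
  have hsq : Real.sqrt X ≤ s := by
    rw [Real.sqrt_eq_rpow, hs]
    exact Real.rpow_le_rpow_of_exponent_le (by linarith) (by norm_num)
  have hlog4 : Real.log (4 * X) ≤ 2 * l := by
    rw [Real.log_mul (by norm_num) (by linarith), ← hl]
    have h6 : Real.log 4 ≤ 2 := by
      have : Real.log 4 = 2 * Real.log 2 := by
        rw [show (4 : ℝ) = 2 ^ 2 by norm_num, Real.log_pow]; norm_num
      have := Real.log_two_lt_d9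
      linarith
    linarith
  have hlog4nn : 0 ≤ Real.log (4 * X) := Real.log_nonneg (by linarith)
  have hl3 : 1 ≤ l ^ 3 := one_le_pow₀ (by linarith)
  have hll3 : l ≤ l ^ 3 := by nlinarith [sq_nonneg (l - 1), sq_nonneg l]
  have t1 : (K : ℝ) * (cA ^ 2 * (q * q * ((4 * l ^ 2) * Real.log (4 * X) +
      4 * Real.sqrt X * Real.log (4 * X)))) ≤ ((K : ℝ) * cA ^ 2 * 16) * (l ^ 3 * s * (q * q)) := by
    have h6 : (4 * l ^ 2) * Real.log (4 * X) + 4 * Real.sqrt X * Real.log (4 * X) ≤ 16 * (l ^ 3 * s) := by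
      have h7 : (4 * l ^ 2) * Real.log (4 * X) ≤ 8 * (l ^ 3 * s) := by
        calc (4 * l ^ 2) * Real.log (4 * X) ≤ (4 * l ^ 2) * (2 * l) := by gcongr
          _ = (8 * l ^ 3) * 1 := by ring
          _ ≤ (8 * l ^ 3) * s := mul_le_mul_of_nonneg_left hs1 (by positivity)
          _ = _ := by ring
      have h8 : 4 * Real.sqrt X * Real.log (4 * X) ≤ 8 * (l ^ 3 * s) := by
        calc 4 * Real.sqrt X * Real.log (4 * X) ≤ 4 * s * (2 * l) := by gcongr
          _ = 8 * (l * s) := by ring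
          _ ≤ 8 * (l ^ 3 * s) := by gcongr
      linarith
    calc (K : ℝ) * (cA ^ 2 * (q * q * ((4 * l ^ 2) * Real.log (4 * X) + 4 * Real.sqrt X * Real.log (4 * X))))
        ≤ (K : ℝ) * (cA ^ 2 * (q * q * (16 * (l ^ 3 * s)))) := by gcongr
      _ = _ := by ring
  have t4 : (K : ℝ) * (s * (cA ^ 2 * q * q)) ≤ (K * cA ^ 2) * (l ^ 3 * s * (q * q)) := by
    calc (K : ℝ) * (s * (cA ^ 2 * q * q)) = (K * cA ^ 2) * (1 * s * (q * q)) := by ring
      _ ≤ _ := by gcongr
  have ttot : (K : ℝ) * (cA ^ 2 * (q * q * ((4 * l ^ 2) * Real.log (4 * X) +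
      4 * Real.sqrt X * Real.log (4 * X)))) + (K : ℝ) * (s * (cA ^ 2 * q * q)) ≤ C * (l ^ 3 * s * (q * q)) := by
    rw [hC]
    linarith
  refine ttot.trans ?_
  have hlpos : 0 < l := by linarith
  rw [div_mul_eq_mul_div, le_div_iff₀ (by positivity)]
  have h6 : C * l ^ (3 + K) ≤ η * Real.exp (1 / 20 * l) := by
    have : C / η * l ^ (3 + K) * η ≤ Real.exp (1 / 20 * l) * η := mul_le_mul_of_nonneg_right h2 hη.le
    have h7 : C / η * l ^ (3 + K) * η = C * l ^ (3 + K) := by field_simp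
    rw [h7] at this
    linarith
  calc C * (l ^ 3 * s * (q * q)) * (W * l ^ K) = (C * l ^ (3 + K)) * (s * (q * q) * W) := by ring
    _ ≤ (η * Real.exp (1 / 20 * l)) * (s * (q * q) * Real.exp (l / 700)) := by
        gcongr
    _ = η * Real.exp (1 / 20 * l + 9 / 10 * l + 1 / 100 * l + 1 / 100 * l + l / 700) := by
        rw [Real.exp_add, Real.exp_add, Real.exp_add, Real.exp_add, hsexp, hqexp]
        ring
    _ ≤ η * Real.exp l := by
        apply mul_le_mul_of_nonneg_left _ hη.le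
        apply Real.exp_le_exp.2
        linarith
    _ = X * η := by rw [← hXexp]; ring

theorem ev_L_cube : ∀ᶠ X : ℝ in atTop, (Real.log X) ^ 2 ≤ (2 * Real.log X) ^ 3 - 1 ∧ 1 ≤ Real.log X := by
  filter_upwards [Real.tendsto_log_atTop.eventually_ge_atTop 1] with X h
  refine ⟨?_, h⟩
  set l := Real.log X
  have h2 : l ^ 2 ≤ l ^ 3 := pow_le_pow_right₀ h (by norm_num)
  have h3 : 1 ≤ l ^ 3 := one_le_pow₀ h
  nlinarith

theorem Et2_sub {K : ℕ} : ∀ᶠ X : ℝ in atTop, ∀ (ps : ℕ) (S : Finset ℕ) (t : Fin K → ℕ),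
    (∀ j, (t j : ℝ) ≤ (Real.log X) ^ 2) → Et X S ps t ⊆ Esup X ps := by
  filter_upwards [ev_L_cube, EE_facts 0] with X h1 h2
  intro ps S t ht
  unfold Et
  apply Finset.union_subset (EE_sub h2.2.2)
  intro p hp
  rw [Finset.mem_biUnion] at hp
  obtain ⟨ij, _, hp⟩ := hp
  have hpp := Nat.prime_of_mem_primeFactors hp
  have hpd := Nat.le_of_mem_primeFactors hp
  apply mem_Esup_of_le hpp
  apply Nat.le_floor
  have h3 := natAbs_sub_le' (t ij.1) (t ij.2) _ (ht ij.1) (ht ij.2)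
  have h4 : (p : ℝ) ≤ ((((t ij.1 : ℤ) - t ij.2).natAbs : ℕ) : ℝ) := by exact_mod_cast hpd
  linarith [h1.1]

/-- growth fact -/
theorem ev_small2 (K : ℕ) : ∀ᶠ X : ℝ in atTop,
    (K : ℝ) ^ 2 * (2 * Real.log ((Real.log X) ^ 2 + 1)) ≤ (3 / 10) * (Real.log (Real.log X)) ^ 3 ∧
    0 < Real.log (Real.log X) := by
  have hll : Tendsto (fun X : ℝ => Real.log (Real.log X)) atTop atTop :=
    Real.tendsto_log_atTop.comp Real.tendsto_log_atTop
  filter_upwards [hll.eventually_ge_atTop (2 : ℝ), hll.eventually_ge_atTop (20 * (K : ℝ) ^ 2 + 1),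
    Real.tendsto_log_atTop.eventually_ge_atTop 1] with X h1 h2 h3
  set u := Real.log (Real.log X) with hu
  have h4 : Real.log ((Real.log X) ^ 2 + 1) ≤ 3 * u := by
    calc Real.log ((Real.log X) ^ 2 + 1) ≤ Real.log (2 * (Real.log X) ^ 2) := by
          apply Real.log_le_log (by positivity)
          have : 1 ≤ (Real.log X) ^ 2 := one_le_pow₀ h3
          linarith
      _ = Real.log 2 + 2 * u := by
          rw [Real.log_mul (by norm_num) (by positivity), Real.log_pow]; push_cast; rfl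
      _ ≤ 3 * u := by have := Real.log_two_lt_d9; linarith
  have hu1 : 1 ≤ u := by linarith
  have hK2 : (0 : ℝ) ≤ (K : ℝ) ^ 2 := by positivity
  refine ⟨?_, by linarith⟩
  calc (K : ℝ) ^ 2 * (2 * Real.log ((Real.log X) ^ 2 + 1)) ≤ (K : ℝ) ^ 2 * (2 * (3 * u)) := by gcongr
    _ = (6 * (K : ℝ) ^ 2) * u := by ring
    _ ≤ (3 / 10 * u ^ 2) * u := by
        apply mul_le_mul_of_nonneg_right _ (by linarith)
        nlinarith
    _ = _ := by ring

theorem BE_Et2_ge (K : ℕ) : ∀ᶠ X : ℝ in atTop, ∀ (Z ps : ℕ) (S : Finset ℕ) (t : Fin K → ℕ),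
    4 ≤ Z → GoodP Z ps → GoodS X S → (∀ j, (t j : ℝ) ≤ (Real.log X) ^ 2) →
    BE (PW X S ps) / 2 ≤ BE (Et X S ps t) := by
  classical
  filter_upwards [ev_small2 K, EE_facts 0] with X h1 h2
  intro Z ps S t hZ hps hS ht
  have hPWsub : PW X S ps ⊆ Et X S ps t := by
    unfold Et EE
    exact Finset.subset_union_left.trans Finset.subset_union_left
  set D := (univ : Finset (Fin K × Fin K)).biUnion (fun ij => ((t ij.1 : ℤ) - t ij.2).natAbs.primeFactors) with hD
  have hz2 : (Real.log (Real.log X)) ^ 3 ≤ z2 X := Nat.le_ceil _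
  have hu3 : 0 < (Real.log (Real.log X)) ^ 3 := pow_pos h1.2 3
  have hz2pos : (0 : ℝ) < z2 X := lt_of_lt_of_le hu3 hz2
  -- the set of additional primes
  have hrest : Et X S ps t \ PW X S ps ⊆ ({ps} : Finset ℕ).filter Nat.Prime ∪ (D \ EE X S ps) := by
    intro p hp
    rw [Finset.mem_sdiff] at hp
    have h3 := hp.1
    unfold Et at h3
    rw [← hD, Finset.mem_union] at h3
    rw [Finset.mem_union]
    by_cases h4 : p ∈ EE X S ps
    · left
      unfold EE at h4
      rw [Finset.mem_union] at h4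
      rcases h4 with h4 | h4
      · exact absurd h4 hp.2
      · exact h4
    · right
      rcases h3 with h3 | h3
      · exact absurd h3 h4
      · exact Finset.mem_sdiff.2 ⟨h3, h4⟩
  have hDprime : ∀ p ∈ D, p.Prime := by
    intro p hp
    rw [hD, Finset.mem_biUnion] at hp
    obtain ⟨ij, _, hp⟩ := hp
    exact Nat.prime_of_mem_primeFactors hp
  have hDcard : (D.card : ℝ) ≤ (3 / 10) * (Real.log (Real.log X)) ^ 3 := by
    have h3 : (D.card : ℝ) ≤ ∑ ij : Fin K × Fin K, ((((t ij.1 : ℤ) - t ij.2).natAbs.primeFactors).card : ℝ) := by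
      rw [hD]
      exact_mod_cast Finset.card_biUnion_le
    have h4 : ∀ ij : Fin K × Fin K, ((((t ij.1 : ℤ) - t ij.2).natAbs.primeFactors).card : ℝ) ≤
        2 * Real.log ((Real.log X) ^ 2 + 1) := by
      intro ij
      refine (card_primeFactors_le _).trans ?_
      have h5 := natAbs_sub_le' (t ij.1) (t ij.2) _ (ht ij.1) (ht ij.2)
      have h6 : (0 : ℝ) ≤ (((t ij.1 : ℤ) - t ij.2).natAbs : ℕ) := Nat.cast_nonneg _
      have := Real.log_le_log (by linarith) (add_le_add_left h5 1)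
      linarith
    refine (h3.trans (Finset.sum_le_sum fun ij _ => h4 ij)).trans ?_
    rw [Finset.sum_const, Finset.card_univ, Fintype.card_prod, Fintype.card_fin, nsmul_eq_mul]
    refine le_trans (le_of_eq ?_) h1.1
    push_cast; ring
  have hsum : ∑ p ∈ Et X S ps t \ PW X S ps, (1 : ℝ) / p ≤ 1 / 2 := by
    refine (Finset.sum_le_sum_of_subset_of_nonneg hrest fun _ _ _ => by positivity).trans ?_
    have h3 := Finset.sum_union_inter (s₁ := ({ps} : Finset ℕ).filter Nat.Prime) (s₂ := D \ EE X S ps)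
      (f := fun p : ℕ => (1 : ℝ) / p)
    have h4 : 0 ≤ ∑ p ∈ ({ps} : Finset ℕ).filter Nat.Prime ∩ (D \ EE X S ps), (1 : ℝ) / (p : ℝ) :=
      Finset.sum_nonneg fun _ _ => by positivity
    have h5 : ∑ p ∈ ({ps} : Finset ℕ).filter Nat.Prime, (1 : ℝ) / (p : ℝ) ≤ 1 / 5 := by
      rw [Finset.filter_singleton]
      split_ifs with h
      · rw [Finset.sum_singleton]
        rcases hps with h6 | h6
        · rw [h6] at h; exact absurd h Nat.not_prime_one
        · have h7 : (5 : ℝ) ≤ ps := by exact_mod_cast (by omega : 5 ≤ ps)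
          exact one_div_le_one_div_of_le (by norm_num) h7
      · rw [Finset.sum_empty]; norm_num
    have h6 : ∑ p ∈ D \ EE X S ps, (1 : ℝ) / (p : ℝ) ≤ 3 / 10 := by
      have h7 : ∀ p ∈ D \ EE X S ps, (1 : ℝ) / (p : ℝ) ≤ 1 / (z2 X : ℝ) := by
        intro p hp
        rw [Finset.mem_sdiff] at hp
        apply one_div_le_one_div_of_le hz2pos
        have : z2 X < p := by
          by_contra hle
          push Not at hle
          exact hp.2 (EE_small hS h2.2.1 (hDprime p hp.1) hle)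
        exact_mod_cast this.le
      refine (Finset.sum_le_sum h7).trans ?_
      rw [Finset.sum_const, nsmul_eq_mul, mul_one_div, div_le_iff₀ hz2pos]
      have h8 : ((D \ EE X S ps).card : ℝ) ≤ D.card := by exact_mod_cast Finset.card_le_card Finset.sdiff_subset
      linarith
    linarith
  have hPWp : ∀ p ∈ PW X S ps, p.Prime := fun p hp => (mem_PW.1 hp).2.1
  have hpos := BE_pos hPWp
  have hprod : (1 : ℝ) / 2 ≤ ∏ p ∈ Et X S ps t \ PW X S ps, (1 - 1 / (p : ℝ)) := by
    refine le_trans ?_ (one_sub_sum_le_prod _ (fun p => 1 / (p : ℝ)) (fun p _ => by positivity) ?_)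
    · linarith
    · intro p hp
      have : p.Prime := by
        have h3 := hrest hp
        rw [Finset.mem_union] at h3
        rcases h3 with h3 | h3
        · exact (Finset.mem_filter.1 h3).2
        · exact hDprime p (Finset.mem_sdiff.1 h3).1
      have h3 : (1 : ℝ) ≤ p := by exact_mod_cast this.one_lt.le
      rw [div_le_one (by linarith)]
      exact h3
  unfold BE at hpos ⊢
  rw [← Finset.prod_sdiff hPWsub]
  nlinarith

/-- the record function is below the square of the logarithm -/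
theorem ev_ff (c : ℝ) (hc : 0 < c) : ∀ᶠ X : ℝ in atTop, c * ff X ≤ (Real.log X) ^ 2 ∧ 0 ≤ ff X ∧
    2 * (c * ff X) ≤ X := by
  have t1 := Real.tendsto_log_atTop
  have t2 : Tendsto (fun X : ℝ => Real.log (Real.log X)) atTop atTop := t1.comp t1
  have t3 : Tendsto (fun X : ℝ => Real.log (Real.log (Real.log X))) atTop atTop := t1.comp t2
  have t4 : Tendsto (fun X : ℝ => Real.log (Real.log (Real.log (Real.log X)))) atTop atTop := t1.comp t3
  have hlog : ∀ᶠ t : ℝ in atTop, c * (Real.log t) ^ 2 ≤ t := by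
    have h := (Real.isLittleO_pow_log_id_atTop (n := 2)).def (show (0 : ℝ) < 1 / (c + 1) by positivity)
    filter_upwards [h, eventually_ge_atTop (1 : ℝ)] with t ht h1
    simp only [id, Real.norm_eq_abs, abs_of_nonneg (sq_nonneg (Real.log t)),
      abs_of_nonneg (by linarith : (0 : ℝ) ≤ t)] at ht
    rw [div_mul_eq_mul_div, one_mul, le_div_iff₀ (by positivity)] at ht
    nlinarith [sq_nonneg (Real.log t)]
  have hlsq : ∀ᶠ t : ℝ in atTop, 2 * (Real.log t) ^ 2 ≤ t := by
    have h := (Real.isLittleO_pow_log_id_atTop (n := 2)).def (show (0 : ℝ) < 1 / 2 by norm_num)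
    filter_upwards [h, eventually_ge_atTop (1 : ℝ)] with t ht h1
    simp only [id, Real.norm_eq_abs, abs_of_nonneg (sq_nonneg (Real.log t)),
      abs_of_nonneg (by linarith : (0 : ℝ) ≤ t)] at ht
    linarith
  filter_upwards [t1.eventually hlog, t3.eventually_ge_atTop 1, t4.eventually_ge_atTop 1, hlsq,
    t2.eventually_ge_atTop 1, t1.eventually_ge_atTop 1, eventually_ge_atTop 1] with X h1 h3 h4 h5 h6 h7 h8
  set l1 := Real.log X with hl1
  set l2 := Real.log l1 with hl2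
  set l3 := Real.log l2 with hl3
  have hff : ff X = l1 * l2 ^ 2 * Real.log l3 / l3 ^ 2 := rfl
  have h9 : Real.log l3 ≤ l3 ^ 2 := by
    have := Real.log_le_sub_one_of_pos (show (0 : ℝ) < l3 by linarith)
    nlinarith
  have h10 : Real.log l3 / l3 ^ 2 ≤ 1 := by
    rw [div_le_one (by positivity)]; exact h9
  have h11 : 0 ≤ Real.log l3 / l3 ^ 2 := by positivity
  have h12 : ff X ≤ l1 * l2 ^ 2 := by
    rw [hff, mul_div_assoc]
    calc l1 * l2 ^ 2 * (Real.log l3 / l3 ^ 2) ≤ l1 * l2 ^ 2 * 1 :=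
          mul_le_mul_of_nonneg_left h10 (by positivity)
      _ = _ := by ring
  have h13 : c * ff X ≤ l1 ^ 2 := by
    calc c * ff X ≤ c * (l1 * l2 ^ 2) := mul_le_mul_of_nonneg_left h12 hc.le
      _ = l1 * (c * l2 ^ 2) := by ring
      _ ≤ l1 * l1 := mul_le_mul_of_nonneg_left h1 (by linarith)
      _ = _ := by ring
  refine ⟨h13, ?_, by linarith⟩
  rw [hff]
  positivity

end Pool.Agent.H312R2.RG
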