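import Pool.Agent.H312R2.RG.A1

set_option autoImplicit false

/-! TEAM RG: assembly, positivity at a single `X` -/

open Finset Filter

namespace Pool.Agent.H312R2.RG

open Pool.Agent.H378R2

/-- the positivity statement at a single `X` -/
theorem pos_atRG (K0 B r : ℕ) (f : Fin B → ℝ → ℝ) (c : Fin B → ℝ)
    (A : Finset (Fin (K0 + 1) → Fin B)) (hf0 : ∀ l x, c l < x → f l x = 0)
    (hA : ∀ a ∈ A, ∑ j, c (a j) ≤ 1) (hf1 : ∀ l x, |f l x| ≤ 1) (hIpos : 0 < II f A)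
    (ε1 X : ℝ) (hε1 : 0 < ε1)
    (hε1le : (((K0 + 1 : ℕ) : ℝ) + r) * ε1 ≤ II f A) (hε1le2 : ε1 ≤ II f A)
    (hratio : 1600000 * ((r : ℝ) + 3) * II f A ≤ ∑ i, JJ f A i)
    (ps a0 : ℕ) (S : Finset ℕ) (t : Fin (K0 + 1) → ℕ)
    (hX40 : 40 ≤ X) (hL1 : 1 ≤ LL X)
    (hMM : MPhi X / 400 ≤ LPhi X)
    (E : Finset ℕ) (hEsup : E ⊆ Esup X ps)
    (hBEPW : BE (PW X S ps) / 2 ≤ BE E)
    (V T : ℤ → ℝ) (Z₁ M M' M₂ t1 t2 t3 : ℝ)
    (hV : ∀ a, 0 ≤ V a ∧ V a ≤ X ^ (1 / 100 : ℝ)) (hZ : 1 ≤ Z₁) (hM1 : 3 / 4 * Z₁ ≤ M) (hMZ : M ≤ Z₁)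
    (hM' : 3 / 4 * M ≤ M') (hM₂0 : 0 ≤ M₂) (hM₂ : ((K0 + 1 : ℕ) : ℝ) * M₂ ≤ Z₁ / 8) (ht3nn : 0 ≤ t3)
    (S1 : ∑ n ∈ Icc 1 ⌊3 * X⌋₊, nu X (WW X S ps) a0 n *
          (sqw E X f A (fun j => (n : ℤ) + t j) ^ 2 * V n) ≤
        M * ((MPhi X * (1 / (WW X S ps : ℝ))) * (1 / (LL X * BE E) ^ (K0 + 1)) * (II f A + ε1)) +
          (A.card : ℝ) ^ 2 * t1)
    (S2 : ∀ i, M' * ((LPhi X * (1 / ((WW X S ps).totient : ℝ))) * (1 / (LL X * BE E) ^ K0) *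
          (JJ f A i - ε1)) -
        (A.card : ℝ) ^ 2 * (t3 + Real.exp (2 * LL X) * X ^ (1 / 100 : ℝ) *
          ((4 * (Real.log X) ^ 2) * Real.log (4 * X) + 4 * Real.sqrt X * Real.log (4 * X))) ≤
      ∑ n ∈ Icc 1 ⌊3 * X⌋₊, nu X (WW X S ps) a0 n *
        (sqw E X f A (fun j => (n : ℤ) + t j) ^ 2 * V n * th (n + t i)))
    (TS : ∑ n ∈ Icc 1 ⌊3 * X⌋₊, nu X (WW X S ps) a0 n *
          (sqw E X f A (fun j => (n : ℤ) + t j) ^ 2 * (V n * T n)) ≤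
        M₂ * ((MPhi X * (1 / (WW X S ps : ℝ))) * (1 / (LL X * BE E) ^ (K0 + 1)) * (II f A + ε1)) +
          (A.card : ℝ) ^ 2 * t2)
    (ht : ((K0 + 1 : ℕ) : ℝ) * ((A.card : ℝ) ^ 2 * t3) + r * ((A.card : ℝ) ^ 2 * t1) +
      ((K0 + 1 : ℕ) : ℝ) * ((A.card : ℝ) ^ 2 * t2) ≤
      Z₁ * ((X / ((WW X S ps : ℝ) * (Real.log X) ^ (K0 + 1))) * (II f A / 160)))
    (herr : ((K0 + 1 : ℕ) : ℝ) * ((A.card : ℝ) ^ 2 * (Real.exp (2 * LL X) * X ^ (1 / 100 : ℝ) *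
        ((4 * (Real.log X) ^ 2) * Real.log (4 * X) + 4 * Real.sqrt X * Real.log (4 * X)))) +
      ((K0 + 1 : ℕ) : ℝ) * (X ^ (9 / 10 : ℝ) * ((A.card : ℝ) ^ 2 * Real.exp (2 * LL X) * X ^ (1 / 100 : ℝ))) ≤
      (X / ((WW X S ps : ℝ) * (Real.log X) ^ (K0 + 1))) * (II f A / 160))
    (bad : Finset ℕ) (hbad : (bad.card : ℝ) ≤ X ^ (9 / 10 : ℝ)) :
    0 < ∑ n ∈ Icc 1 ⌊3 * X⌋₊, (nu X (WW X S ps) a0 n * sqw E X f A (fun j => (n : ℤ) + t j) ^ 2 * V n) *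
      ((∑ i, th (n + t i)) / Real.log (4 * X) - r - ((K0 + 1 : ℕ) : ℝ) * T n -
      ((K0 + 1 : ℕ) : ℝ) * (if n ∈ bad then 1 else 0)) := by
  classical
  have hXpos : 0 < X := by linarith
  have hLl : LL X = Real.log X / 200 := rfl
  have hlogX : 200 ≤ Real.log X := by linarith
  have hWpos : 0 < WW X S ps := WW_pos X S ps
  have hWr : (0 : ℝ) < (WW X S ps : ℝ) := by exact_mod_cast hWpos
  have hBE : 0 < BE E := BE_pos fun p hp => Esup_prime (hEsup hp)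
  have hBE1 : BE E ≤ 1 := BE_le_one fun p hp => Esup_prime (hEsup hp)
  have hPWpos : 0 < BE (PW X S ps) := BE_pos fun p hp => (mem_PW.1 hp).2.1
  have hMge := MPhi_ge X hX40
  have hMpos : 0 < MPhi X := lt_of_lt_of_le (by positivity) hMge
  set Wn : ℕ → ℝ := fun n => nu X (WW X S ps) a0 n * sqw E X f A (fun j => (n : ℤ) + t j) ^ 2 * V n with hWn
  set bd : ℕ → ℝ := fun n => if n ∈ bad then 1 else 0 with hbd
  have hl4 : 1 ≤ Real.log (4 * X) := by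
    rw [Real.log_mul (by norm_num) hXpos.ne']
    have := Real.log_nonneg (by norm_num : (1 : ℝ) ≤ 4)
    linarith
  have hl4le : Real.log (4 * X) ≤ 400 * LL X := by
    rw [Real.log_mul (by norm_num) hXpos.ne']
    have h2 : Real.log 4 ≤ 2 := by
      have : Real.log 4 = 2 * Real.log 2 := by
        rw [show (4 : ℝ) = 2 ^ 2 by norm_num, Real.log_pow]; norm_num
      have := Real.log_two_lt_d9
      linarith
    rw [hLl]
    linarith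
  set Mm : ℝ := (MPhi X * (1 / (WW X S ps : ℝ))) * (1 / (LL X * BE E) ^ (K0 + 1)) with hMm
  set M2 : ℝ := (LPhi X * (1 / ((WW X S ps).totient : ℝ))) * (1 / (LL X * BE E) ^ K0) with hM2
  set sm : ℝ := Real.exp (2 * LL X) * X ^ (1 / 100 : ℝ) *
        ((4 * (Real.log X) ^ 2) * Real.log (4 * X) + 4 * Real.sqrt X * Real.log (4 * X)) with hsm
  have E1 : ∑ n ∈ Icc 1 ⌊3 * X⌋₊, Wn n ≤ M * (Mm * (II f A + ε1)) + (A.card : ℝ) ^ 2 * t1 := by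
    refine le_trans (le_of_eq ?_) S1
    refine Finset.sum_congr rfl fun n _ => ?_
    simp only [hWn]
    ring
  have E2 : M' * (M2 * (∑ i, JJ f A i - ((K0 + 1 : ℕ) : ℝ) * ε1)) -
      ((K0 + 1 : ℕ) : ℝ) * ((A.card : ℝ) ^ 2 * (t3 + sm)) ≤
      ∑ n ∈ Icc 1 ⌊3 * X⌋₊, Wn n * ∑ i, th (n + t i) := by
    have h1 : ∑ n ∈ Icc 1 ⌊3 * X⌋₊, Wn n * ∑ i, th (n + t i) =
        ∑ i, ∑ n ∈ Icc 1 ⌊3 * X⌋₊, nu X (WW X S ps) a0 n *
          (sqw E X f A (fun j => (n : ℤ) + t j) ^ 2 * V n * th (n + t i)) := by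
      rw [Finset.sum_comm]
      refine Finset.sum_congr rfl fun n _ => ?_
      rw [Finset.mul_sum]
      refine Finset.sum_congr rfl fun i _ => ?_
      simp only [hWn]
      ring
    rw [h1]
    refine le_trans (le_of_eq ?_) (Finset.sum_le_sum fun i _ => S2 i)
    rw [Finset.sum_sub_distrib, ← Finset.mul_sum, ← Finset.mul_sum, Finset.sum_sub_distrib, Finset.sum_const,
      Finset.sum_const, Finset.card_univ, Fintype.card_fin, nsmul_eq_mul, nsmul_eq_mul]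
  have E3 : ∑ n ∈ Icc 1 ⌊3 * X⌋₊, Wn n * T n ≤ M₂ * (Mm * (II f A + ε1)) + (A.card : ℝ) ^ 2 * t2 := by
    refine le_trans (le_of_eq ?_) TS
    refine Finset.sum_congr rfl fun n _ => ?_
    simp only [hWn]
    ring
  have E4 : ∑ n ∈ Icc 1 ⌊3 * X⌋₊, Wn n * bd n ≤
      X ^ (9 / 10 : ℝ) * ((A.card : ℝ) ^ 2 * Real.exp (2 * LL X) * X ^ (1 / 100 : ℝ)) := by
    have hq0 : 0 ≤ X ^ (1 / 100 : ℝ) := by positivity
    have h1 : ∀ n, Wn n ≤ (A.card : ℝ) ^ 2 * Real.exp (2 * LL X) * X ^ (1 / 100 : ℝ) := by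
      intro n
      have h2 := sqw_sq_le E X (by linarith) f c A hf0 hA hf1 (fun j => (n : ℤ) + t j)
      have h3 : nu X (WW X S ps) a0 n ≤ 1 := by
        unfold nu
        split_ifs
        · exact Phi_le_one _
        · exact zero_le_one
      have h4 : nu X (WW X S ps) a0 n * sqw E X f A (fun j => (n : ℤ) + t j) ^ 2 ≤
          (A.card : ℝ) ^ 2 * Real.exp (2 * LL X) := by
        calc nu X (WW X S ps) a0 n * sqw E X f A (fun j => (n : ℤ) + t j) ^ 2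
            ≤ 1 * sqw E X f A (fun j => (n : ℤ) + t j) ^ 2 := mul_le_mul_of_nonneg_right h3 (sq_nonneg _)
          _ ≤ _ := by rw [one_mul]; exact h2
      exact mul_le_mul h4 (hV n).2 (hV n).1 (by positivity)
    have h2 : ∑ n ∈ Icc 1 ⌊3 * X⌋₊, Wn n * bd n = ∑ n ∈ (Icc 1 ⌊3 * X⌋₊).filter (fun n => n ∈ bad), Wn n := by
      rw [Finset.sum_filter]
      refine Finset.sum_congr rfl fun n _ => ?_
      simp only [hbd]
      split_ifs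
      · rw [mul_one]
      · rw [mul_zero]
    rw [h2]
    refine (Finset.sum_le_sum fun n _ => h1 n).trans ?_
    rw [Finset.sum_const, nsmul_eq_mul]
    apply mul_le_mul_of_nonneg_right _ (by positivity)
    refine le_trans ?_ hbad
    have h3 : ((Icc 1 ⌊3 * X⌋₊).filter (fun n => n ∈ bad)).card ≤ bad.card := by
      apply Finset.card_le_card
      intro n hn
      exact (Finset.mem_filter.1 hn).2
    exact_mod_cast h3
  have e0 : ∑ n ∈ Icc 1 ⌊3 * X⌋₊, Wn n * ((∑ i, th (n + t i)) / Real.log (4 * X) - r -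
      ((K0 + 1 : ℕ) : ℝ) * T n - ((K0 + 1 : ℕ) : ℝ) * bd n) =
      (∑ n ∈ Icc 1 ⌊3 * X⌋₊, Wn n * ∑ i, th (n + t i)) / Real.log (4 * X) -
      r * ∑ n ∈ Icc 1 ⌊3 * X⌋₊, Wn n - ((K0 + 1 : ℕ) : ℝ) * ∑ n ∈ Icc 1 ⌊3 * X⌋₊, Wn n * T n -
      ((K0 + 1 : ℕ) : ℝ) * ∑ n ∈ Icc 1 ⌊3 * X⌋₊, Wn n * bd n := by
    rw [Finset.sum_div, Finset.mul_sum, Finset.mul_sum, Finset.mul_sum, ← Finset.sum_sub_distrib,
      ← Finset.sum_sub_distrib, ← Finset.sum_sub_distrib]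
    refine Finset.sum_congr rfl fun n _ => ?_
    ring
  have hM2ge : Mm * (LL X / 800) ≤ M2 := by
    rw [hMm, hM2, totient_WW]
    exact M2_real (MPhi X) (LPhi X) (WW X S ps) (BE E) (BE (PW X S ps)) (LL X) K0 hMpos.le hWr hBE
      hPWpos (by linarith) hBEPW hMM
  have hMmge : X / ((WW X S ps : ℝ) * (Real.log X) ^ (K0 + 1)) / 20 ≤ Mm :=
    Mm_real X (MPhi X) (WW X S ps) (BE E) (LL X) (Real.log X) (K0 + 1) hXpos hWr hBE hBE1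
      (by linarith) (by rw [hLl]; linarith) hMge
  have hMmpos : 0 < Mm := by
    have : 0 < LL X := by linarith
    rw [hMm]
    positivity
  have hsmnn : 0 ≤ sm := by
    have : 0 ≤ Real.log (4 * X) := by linarith
    rw [hsm]
    positivity
  set P0 : ℝ := X / ((WW X S ps : ℝ) * (Real.log X) ^ (K0 + 1)) with hP0
  have hP0nn : 0 ≤ P0 := by rw [hP0]; positivity
  have hEtot : ((K0 + 1 : ℕ) : ℝ) * ((A.card : ℝ) ^ 2 * (t3 + sm)) + r * ((A.card : ℝ) ^ 2 * t1) +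
      ((K0 + 1 : ℕ) : ℝ) * ((A.card : ℝ) ^ 2 * t2) +
      ((K0 + 1 : ℕ) : ℝ) * (X ^ (9 / 10 : ℝ) * ((A.card : ℝ) ^ 2 * Real.exp (2 * LL X) * X ^ (1 / 100 : ℝ))) ≤
      Z₁ * Mm * II f A / 4 := by
    have h1 : P0 * (II f A / 160) ≤ Z₁ * (P0 * (II f A / 160)) :=
      le_mul_of_one_le_left (by positivity) hZ
    have h2 : Z₁ * (P0 * (II f A / 160)) + Z₁ * (P0 * (II f A / 160)) ≤ Z₁ * Mm * II f A / 4 := by
      have h3 : P0 / 20 * (Z₁ * II f A / 4) ≤ Mm * (Z₁ * II f A / 4) :=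
        mul_le_mul_of_nonneg_right hMmge (by positivity)
      calc Z₁ * (P0 * (II f A / 160)) + Z₁ * (P0 * (II f A / 160)) = P0 / 20 * (Z₁ * II f A / 4) := by ring
        _ ≤ Mm * (Z₁ * II f A / 4) := h3
        _ = _ := by ring
    have h4 : ((K0 + 1 : ℕ) : ℝ) * ((A.card : ℝ) ^ 2 * (t3 + sm)) =
        ((K0 + 1 : ℕ) : ℝ) * ((A.card : ℝ) ^ 2 * t3) + ((K0 + 1 : ℕ) : ℝ) * ((A.card : ℝ) ^ 2 * sm) := by ring
    rw [h4]
    linarith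
  have hgoal := combineRG Mm M2 (II f A) ε1 ((K0 + 1 : ℕ) : ℝ) r (Real.log (4 * X)) (LL X) (∑ i, JJ f A i)
    Z₁ M M' M₂ _ _ _ _ _ _ _ _ hMmpos hIpos hε1 (by positivity) (Nat.cast_nonneg _) hl4 hl4le
    (by linarith) hε1le hε1le2 hratio hM2ge hZ hM1 hMZ hM' hM₂0 (by positivity) E1 E2 E3 E4 hEtot hM₂
  calc _ < _ := hgoal
    _ = _ := e0.symm

end Pool.Agent.H312R2.RG
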