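import Pool.Agent.H312R2.RG.A1
import Pool.Agent.H378R2.RGT

set_option autoImplicit false

/-! TEAM RG, task C1 (helper273): chains of record gaps. -/

namespace Pool.Agent.H312R2.RG

open Finset Filter
open Pool.Agent.H256R2.SC (ff)
open Pool.Agent.H378R2 (yy)

/-- well separated primes -/
theorem c1_primes (K Y : ℕ) (H : ℝ) (hH : 4 ^ (K + 1) * ((Y : ℝ) + 2) ≤ H) :
    ∃ t : Fin K → ℕ, (∀ j, (t j).Prime ∧ Y < t j ∧ (t j : ℝ) ≤ H) ∧
      ∀ i j : Fin K, i < j → H / 4 ^ K ≤ (t i : ℝ) - t j := by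
  have hY0 : (0 : ℝ) ≤ Y := Nat.cast_nonneg _
  have hH0 : 0 < H := lt_of_lt_of_le (by positivity) hH
  have hex : ∀ j : Fin K, ∃ p : ℕ, p.Prime ∧ H / (2 * 4 ^ (j : ℕ)) < p ∧ (p : ℝ) ≤ H / 4 ^ (j : ℕ) := by
    intro j
    have h4 : (0 : ℝ) < 4 ^ (j : ℕ) := by positivity
    have hjK : (4 : ℝ) ^ (j : ℕ) ≤ 4 ^ K := pow_le_pow_right₀ (by norm_num) j.2.le
    have hbig : 1 ≤ H / (2 * 4 ^ (j : ℕ)) := by
      rw [le_div_iff₀ (by positivity), one_mul]
      refine le_trans ?_ hH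
      rw [pow_succ]
      nlinarith [hjK, hY0, mul_nonneg (show (0 : ℝ) ≤ 4 ^ K by positivity) hY0]
    have hn0 : ⌊H / (2 * 4 ^ (j : ℕ))⌋₊ ≠ 0 := by
      have : 0 < ⌊H / (2 * 4 ^ (j : ℕ))⌋₊ := Nat.floor_pos.mpr hbig
      omega
    obtain ⟨p, hp, h1, h2⟩ := Nat.exists_prime_lt_and_le_two_mul _ hn0
    refine ⟨p, hp, ?_, ?_⟩
    · exact (Nat.floor_lt (by positivity)).mp h1
    · have h3 : (p : ℝ) ≤ 2 * (⌊H / (2 * 4 ^ (j : ℕ))⌋₊ : ℝ) := by exact_mod_cast h2
      have h5 : (⌊H / (2 * 4 ^ (j : ℕ))⌋₊ : ℝ) ≤ H / (2 * 4 ^ (j : ℕ)) := Nat.floor_le (by positivity)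
      calc (p : ℝ) ≤ 2 * (H / (2 * 4 ^ (j : ℕ))) := by linarith
        _ = H / 4 ^ (j : ℕ) := by field_simp
  choose t ht1 ht2 ht3 using hex
  refine ⟨t, fun j => ⟨ht1 j, ?_, ?_⟩, ?_⟩
  · have h4 : (0 : ℝ) < 4 ^ (j : ℕ) := by positivity
    have hjK : (4 : ℝ) ^ (j : ℕ) ≤ 4 ^ K := pow_le_pow_right₀ (by norm_num) j.2.le
    have h1 : (Y : ℝ) < H / (2 * 4 ^ (j : ℕ)) := by
      rw [lt_div_iff₀ (by positivity)]
      refine lt_of_lt_of_le ?_ hH
      rw [pow_succ]
      nlinarith [hjK, hY0, mul_nonneg (show (0 : ℝ) ≤ 4 ^ K by positivity) hY0,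
        mul_le_mul_of_nonneg_left hjK hY0]
    have h2 : (Y : ℝ) < t j := h1.trans (ht2 j)
    exact_mod_cast h2
  · refine (ht3 j).trans ?_
    exact div_le_self hH0.le (one_le_pow₀ (by norm_num))
  · intro i j hij
    have hij' : (i : ℕ) + 1 ≤ j := hij
    have h4 : (4 : ℝ) ^ ((i : ℕ) + 1) ≤ 4 ^ (j : ℕ) := pow_le_pow_right₀ (by norm_num) hij'
    have h5 : H / 4 ^ (j : ℕ) ≤ H / 4 ^ ((i : ℕ) + 1) :=
      div_le_div_of_nonneg_left hH0.le (by positivity) h4
    have h6 : H / 4 ^ ((i : ℕ) + 1) = H / 4 ^ (i : ℕ) / 4 := by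
      rw [pow_succ, div_div]
    have h7 : H / (2 * 4 ^ (i : ℕ)) = H / 4 ^ (i : ℕ) / 2 := by
      rw [mul_comm, div_div]
    have h8 : (4 : ℝ) ^ ((i : ℕ) + 1) ≤ 4 ^ K := pow_le_pow_right₀ (by norm_num) (by
      have := j.2
      omega)
    have h9 : H / 4 ^ K ≤ H / 4 ^ ((i : ℕ) + 1) :=
      div_le_div_of_nonneg_left hH0.le (by positivity) h8
    have := ht2 i
    have := ht3 j
    linarith

/-- the record function beats every multiple of the logarithm -/
theorem c1_ff_log (A : ℝ) : ∀ᶠ X : ℝ in atTop, A * Real.log X ≤ ff X := by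
  have hl := Real.tendsto_log_atTop
  have t2 : Tendsto (fun X : ℝ => Real.log (Real.log X)) atTop atTop := hl.comp hl
  have t3 : Tendsto (fun X : ℝ => Real.log (Real.log (Real.log X))) atTop atTop := hl.comp t2
  have t4 : Tendsto (fun X : ℝ => Real.log (Real.log (Real.log (Real.log X)))) atTop atTop :=
    hl.comp t3
  filter_upwards [t2.eventually Pool.Agent.H256R2.SC.ev_log_sq, t2.eventually_ge_atTop (max A 1),
    t4.eventually_ge_atTop 1, t3.eventually_ge_atTop 1, hl.eventually_ge_atTop 1] with X h1 h2 h3 h4 h5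
  set l1 := Real.log X with hl1
  set l2 := Real.log l1 with hl2
  set l3 := Real.log l2 with hl3
  have hff : ff X = l1 * l2 ^ 2 * Real.log l3 / l3 ^ 2 := rfl
  have hA : A ≤ l2 := (le_max_left _ _).trans h2
  have h21 : 1 ≤ l2 := (le_max_right _ _).trans h2
  have h6 : 0 < l3 ^ 2 := by positivity
  rw [hff, le_div_iff₀ h6]
  have h7 : A * l1 * l3 ^ 2 ≤ l2 * l1 * l3 ^ 2 := by
    apply mul_le_mul_of_nonneg_right _ h6.le
    exact mul_le_mul_of_nonneg_right hA (by linarith)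
  have h8 : l2 * l1 * l3 ^ 2 ≤ l2 * l1 * l2 := by
    apply mul_le_mul_of_nonneg_left _ (by positivity)
    linarith
  have h9 : l2 * l1 * l2 = l1 * l2 ^ 2 * 1 := by ring
  have h10 : l1 * l2 ^ 2 * 1 ≤ l1 * l2 ^ 2 * Real.log l3 :=
    mul_le_mul_of_nonneg_left h3 (by positivity)
  linarith

theorem c1_card : ∀ᶠ x : ℝ in atTop, x ^ (7 / 8 : ℝ) * ((Real.log (x / 5)) ^ 2 + 1) ≤
    (x / 5) ^ (9 / 10 : ℝ) := by
  have h1 := Real.tendsto_log_atTop.eventually
    (Pool.Agent.H378R2.ev_pow_exp 2 (1 / 40) (2 * Real.exp (9 / 10 * Real.log 5)) (by norm_num))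
  filter_upwards [h1, Real.tendsto_log_atTop.eventually_ge_atTop 2, eventually_ge_atTop 5] with x h2 h3 h4
  have hx0 : 0 < x := by linarith
  have h5 : Real.log (x / 5) ≤ Real.log x := Real.log_le_log (by positivity) (by linarith)
  have h6 : 0 ≤ Real.log (x / 5) := Real.log_nonneg (by linarith)
  have h7 : (Real.log (x / 5)) ^ 2 + 1 ≤ 2 * Real.log x ^ 2 := by
    have : (Real.log (x / 5)) ^ 2 ≤ Real.log x ^ 2 := pow_le_pow_left₀ h6 h5 2
    nlinarith
  have h8 : (x / 5) ^ (9 / 10 : ℝ) = x ^ (7 / 8 : ℝ) * (Real.exp (1 / 40 * Real.log x) *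
      Real.exp (-(9 / 10 * Real.log 5))) := by
    rw [Real.rpow_def_of_pos (by positivity), Real.rpow_def_of_pos hx0,
      Real.log_div hx0.ne' (by norm_num), ← Real.exp_add, ← Real.exp_add]
    congr 1
    ring
  rw [h8]
  apply mul_le_mul_of_nonneg_left _ (by positivity)
  refine h7.trans ?_
  rw [Real.exp_neg, ← div_eq_mul_inv, le_div_iff₀ (Real.exp_pos _)]
  linarith

open Classical in
/-- Task C1: chains of record gaps -/
theorem chains_of (h : MTRG) : ∀ k : ℕ, ∃ c : ℝ, 0 < c ∧ ∀ᶠ x : ℝ in atTop,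
    x ^ (7 / 8 : ℝ) ≤ (((Finset.range ⌊x⌋₊).filter (fun n : ℕ => (Nat.nth Nat.Prime (n + k) : ℝ) ≤ x ∧
      ∀ i < k, c * ff x ≤ (Nat.nth Nat.Prime (n + i + 1) : ℝ) - Nat.nth Nat.Prime (n + i))).card : ℝ) := by
  intro k
  obtain ⟨K, -, c0, hc0, X0, hX0⟩ := h (k + 1)
  refine ⟨c0 / (2 * 4 ^ K), by positivity, ?_⟩
  have tX : Tendsto (fun x : ℝ => x / 5) atTop atTop := tendsto_id.atTop_div_const (by norm_num)
  filter_upwards [tX.eventually_ge_atTop X0, tX.eventually (c1_ff_log (4 ^ (K + 1) * 3 / c0)),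
    tX.eventually (ev_ff c0 hc0), Pool.Agent.H378R2.RGT.ff_half, c1_card,
    tX.eventually (Real.tendsto_log_atTop.eventually_ge_atTop 1), eventually_ge_atTop 10]
    with x e1 e2 e3 e4 e5 e6 e7
  set X : ℝ := x / 5 with hX
  have hx5 : x = 5 * X := by rw [hX]; ring
  obtain ⟨f1, f2, f3⟩ := e3
  set H : ℝ := c0 * ff X with hH
  have hH0 : 0 ≤ H := mul_nonneg hc0.le f2
  have hyy : (yy X : ℝ) ≤ Real.log X := by
    unfold yy
    refine (Nat.floor_le (by positivity)).trans ?_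
    linarith
  have hHbig : 4 ^ (K + 1) * ((yy X : ℝ) + 2) ≤ H := by
    have h1 : (4 ^ (K + 1) * 3 / c0 * Real.log X) * c0 ≤ ff X * c0 :=
      mul_le_mul_of_nonneg_right e2 hc0.le
    have h2 : (4 ^ (K + 1) * 3 / c0 * Real.log X) * c0 = 4 ^ (K + 1) * (3 * Real.log X) := by
      field_simp
    have h3 : (4 : ℝ) ^ (K + 1) * ((yy X : ℝ) + 2) ≤ 4 ^ (K + 1) * (3 * Real.log X) := by
      apply mul_le_mul_of_nonneg_left _ (by positivity)
      linarith
    rw [hH, mul_comm c0]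
    linarith
  have hHpos : 0 < H := lt_of_lt_of_le (by positivity) hHbig
  obtain ⟨t, ht, hsep⟩ := c1_primes K (yy X) H hHbig
  have hgap : 0 < H / 4 ^ K := by positivity
  have hinj : Function.Injective t := by
    intro i j hij
    rcases lt_trichotomy i j with hlt | heq | hlt
    · have := hsep i j hlt
      rw [hij] at this
      linarith
    · exact heq
    · have := hsep j i hlt
      rw [hij] at this
      linarith
  by_contra hcon
  push Not at hcon
  set Ch : Finset ℕ := (Finset.range ⌊x⌋₊).filter (fun n : ℕ => (Nat.nth Nat.Prime (n + k) : ℝ) ≤ x ∧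
      ∀ i < k, c0 / (2 * 4 ^ K) * ff x ≤
        (Nat.nth Nat.Prime (n + i + 1) : ℝ) - Nat.nth Nat.Prime (n + i)) with hCh
  -- the bad set
  set B : ℕ := ⌊H⌋₊ with hB
  let bad : Finset ℕ := Ch.biUnion (fun n => Finset.Icc (Nat.nth Nat.Prime n - B) (Nat.nth Nat.Prime n))
  have hBle : (B : ℝ) ≤ H := Nat.floor_le hH0
  have hbad : (bad.card : ℝ) ≤ X ^ (9 / 10 : ℝ) := by
    have h1 : bad.card ≤ ∑ n ∈ Ch, (B + 1) := by
      refine Finset.card_biUnion_le.trans (Finset.sum_le_sum fun n _ => ?_)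
      rw [Nat.card_Icc]
      omega
    rw [Finset.sum_const, smul_eq_mul] at h1
    have h2 : (bad.card : ℝ) ≤ (Ch.card : ℝ) * ((B : ℝ) + 1) := by exact_mod_cast h1
    refine h2.trans (le_trans ?_ e5)
    apply mul_le_mul hcon.le _ (by positivity) (by positivity)
    linarith
  obtain ⟨N, hN1, hN2, hNbad, hNr, hNs⟩ := hX0 X e1 t hinj ht bad hbad
  -- the index
  set n : ℕ := Nat.count Nat.Prime N with hn
  have hcount : n + (k + 1) ≤ Nat.count Nat.Prime (N + (B + 1)) := by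
    rw [Nat.count_add, ← hn]
    apply Nat.add_le_add_left
    rw [Nat.count_eq_card_filter_range]
    refine hNr.trans ?_
    refine Finset.card_le_card_of_injOn t ?_ (fun i _ j _ hij => hinj hij)
    intro j hj
    simp only [Finset.coe_filter, Finset.mem_univ, true_and, Set.mem_ofPred_eq] at hj
    simp only [Finset.coe_filter, Finset.mem_range, Set.mem_ofPred_eq]
    refine ⟨?_, hj⟩
    have : t j ≤ B := Nat.le_floor (ht j).2.2
    omega
  have hprime : ∀ i, (Nat.nth Nat.Prime i).Prime := fun i => Nat.prime_nth_prime i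
  have hlo : ∀ i, N ≤ Nat.nth Nat.Prime (n + i) := by
    intro i
    have h1 : Nat.nth Nat.Prime n ≤ Nat.nth Nat.Prime (n + i) :=
      Nat.nth_monotone Nat.infinite_setOfPred_prime (Nat.le_add_right n i)
    refine le_trans ?_ h1
    by_contra hc
    push Not at hc
    have h2 : Nat.count Nat.Prime (Nat.nth Nat.Prime n + 1) ≤ Nat.count Nat.Prime N :=
      Nat.count_monotone _ hc
    rw [Nat.count_succ, Nat.count_nth_of_infinite Nat.infinite_setOfPred_prime,
      if_pos (hprime n)] at h2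
    omega
  have hhi : ∀ i, i ≤ k → Nat.nth Nat.Prime (n + i) ≤ N + B := by
    intro i hi
    have h1 : Nat.nth Nat.Prime (n + i) < N + (B + 1) := Nat.nth_lt_of_lt_count (by omega)
    omega
  have hform : ∀ i, i ≤ k → ∃ j, Nat.nth Nat.Prime (n + i) = N + t j := by
    intro i hi
    obtain ⟨s, hs⟩ := Nat.exists_eq_add_of_le (hlo i)
    have hsB : s ≤ B := by
      have := hhi i hi
      omega
    have hsH : (s : ℝ) ≤ H := le_trans (by exact_mod_cast hsB) hBle
    have hp : (N + s).Prime := hs ▸ hprime (n + i)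
    obtain ⟨j, hj⟩ := hNs s hsH hp
    exact ⟨j, by rw [hs, hj]⟩
  have hgaps : ∀ i < k, c0 / (2 * 4 ^ K) * ff x ≤
      (Nat.nth Nat.Prime (n + i + 1) : ℝ) - Nat.nth Nat.Prime (n + i) := by
    intro i hi
    obtain ⟨j, hj⟩ := hform i hi.le
    obtain ⟨j', hj'⟩ := hform (i + 1) hi
    have hlt : Nat.nth Nat.Prime (n + i) < Nat.nth Nat.Prime (n + (i + 1)) :=
      Nat.nth_strictMono Nat.infinite_setOfPred_prime (by omega)
    have hdiff : (Nat.nth Nat.Prime (n + i + 1) : ℝ) - Nat.nth Nat.Prime (n + i) =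
        (t j' : ℝ) - t j := by
      rw [add_assoc n i 1, hj, hj']
      push_cast
      ring
    rw [hdiff]
    have htt : t j < t j' := by
      rw [hj, hj'] at hlt
      omega
    have hne : j ≠ j' := fun he => by
      rw [he] at htt
      exact lt_irrefl _ htt
    have hlarge : H / 4 ^ K ≤ (t j' : ℝ) - t j := by
      rcases lt_or_gt_of_ne hne with hc | hc
      · have h1 := hsep j j' hc
        have h2 : (t j : ℝ) < t j' := by exact_mod_cast htt
        linarith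
      · exact hsep j' j hc
    refine le_trans ?_ hlarge
    calc c0 / (2 * 4 ^ K) * ff x = c0 / 4 ^ K * (ff x / 2) := by field_simp
      _ ≤ c0 / 4 ^ K * ff X := mul_le_mul_of_nonneg_left e4 (by positivity)
      _ = H / 4 ^ K := by rw [hH]; ring
  have hn_mem : n ∈ Ch := by
    rw [hCh, Finset.mem_filter, Finset.mem_range]
    refine ⟨?_, ?_, hgaps⟩
    · have h1 : n ≤ N := Nat.count_le _
      have h2 : ((n + 1 : ℕ) : ℝ) ≤ x := by
        push_cast
        have : (n : ℝ) ≤ N := by exact_mod_cast h1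
        linarith
      exact Nat.le_floor h2
    · have h1 := hhi k le_rfl
      have h2 : (Nat.nth Nat.Prime (n + k) : ℝ) ≤ N + B := by exact_mod_cast h1
      linarith
  apply hNbad
  simp only [bad, Finset.mem_biUnion]
  refine ⟨n, hn_mem, ?_⟩
  rw [Finset.mem_Icc]
  have h1 := hlo 0
  have h2 := hhi 0 (Nat.zero_le _)
  rw [add_zero] at h1 h2
  omega

end Pool.Agent.H312R2.RG
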