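import Pool.Agent.H312R2.RG.Defs
import Pool.Agent.H312R2.RG.A1
import Pool.Agent.H378R2.RGT

set_option autoImplicit false

/-! TEAM RG, task C2 (helper378): bounded clusters of primes isolated by record gaps on both sides. -/

open Finset Filter

namespace Pool.Agent.H312R2.RG

open Pool.Agent.H256R2.SC (ff)
open Pool.Agent.H378R2 (yy)

/-- the record function is much larger than the logarithm -/
theorem ff_gt_log (C : ℝ) (hC : 0 < C) : ∀ᶠ X : ℝ in atTop, C * Real.log X ≤ ff X := by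
  have h1 : ∀ᶠ X : ℝ in atTop, Real.log (Real.log (Real.log X)) ≤ (1 / (C + 1)) * Real.log (Real.log X) :=
    Pool.Agent.H256R2.SC.t2.eventually (Pool.Agent.H256R2.SC.ev_log (by positivity))
  filter_upwards [h1, Pool.Agent.H256R2.SC.t1.eventually_ge_atTop 1,
    Pool.Agent.H256R2.SC.t2.eventually_ge_atTop 1, Pool.Agent.H256R2.SC.t3.eventually_ge_atTop 1,
    Pool.Agent.H256R2.SC.t4.eventually_ge_atTop 1] with X g1 g2 g3 g4 g5
  set a := Real.log X
  set b := Real.log (Real.log X)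
  set d := Real.log (Real.log (Real.log X))
  set e := Real.log (Real.log (Real.log (Real.log X)))
  have hff : ff X = a * b ^ 2 * e / d ^ 2 := rfl
  rw [hff, le_div_iff₀ (by positivity)]
  have h2 : (C + 1) * d ≤ b := by
    have : (C + 1) * d ≤ (C + 1) * (1 / (C + 1) * b) := mul_le_mul_of_nonneg_left g1 (by positivity)
    have h3 : (C + 1) * (1 / (C + 1) * b) = b := by field_simp
    linarith
  have h3 : ((C + 1) * d) ^ 2 ≤ b ^ 2 := by
    apply pow_le_pow_left₀ (by positivity) h2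
  have h4 : C * d ^ 2 ≤ b ^ 2 := by
    have : C * d ^ 2 ≤ ((C + 1) * d) ^ 2 := by
      have h5 : ((C + 1) * d) ^ 2 = (C + 1) ^ 2 * d ^ 2 := by ring
      rw [h5]
      apply mul_le_mul_of_nonneg_right _ (by positivity)
      nlinarith
    linarith
  calc C * a * d ^ 2 = a * (C * d ^ 2) * 1 := by ring
    _ ≤ a * b ^ 2 * e := by
        apply mul_le_mul _ g5 zero_le_one (by positivity)
        exact mul_le_mul_of_nonneg_left h4 (by linarith)

open Classical in
/-- Task C2: bounded clusters isolated by record gaps on both sides (`hb` is the conclusion of `mt_bounded`) -/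
theorem clusters_of (hb : ∀ r : ℕ, ∃ C : ℕ, ∃ X0 : ℝ, ∀ X : ℝ, X0 ≤ X →
      ∃ n : ℕ, X < n ∧ (n : ℝ) ≤ 3 * X ∧ r ≤ ((Finset.Icc n (n + C)).filter Nat.Prime).card) (h : MTRG) :
    ∀ m : ℕ, ∃ C : ℕ, ∃ c : ℝ, 0 < c ∧ ∀ᶠ x : ℝ in atTop,
    x ^ (7 / 8 : ℝ) ≤ (((Finset.range (⌊x⌋₊ + 1)).filter (fun p : ℕ => p.Prime ∧
      m ≤ ((Finset.Icc p (p + C)).filter Nat.Prime).card ∧
      ∀ q : ℕ, q.Prime → |(q : ℝ) - p| ≤ c * ff x → p ≤ q ∧ q ≤ p + C)).card : ℝ) := by
  intro m
  obtain ⟨K, hrK, c0, hc0, X0, hX0⟩ := h (m + 1)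
  obtain ⟨C, Y0, hY0⟩ := hb K
  refine ⟨C, c0 / 20, by positivity, ?_⟩
  have t5 : Tendsto (fun x : ℝ => x / 5) atTop atTop := tendsto_id.atTop_div_const (by norm_num)
  have e1 : ∀ᶠ x : ℝ in atTop, ((c0 * (x / 5) ^ (1 / 80 : ℝ)) + 2) * x ^ (7 / 8 : ℝ) ≤ (x / 5) ^ (9 / 10 : ℝ) := by
    have h1 : Tendsto (fun x : ℝ => x ^ (1 / 80 : ℝ)) atTop atTop := tendsto_rpow_atTop (by norm_num)
    have h2 := h1.eventually_ge_atTop ((c0 + 2) * 5 ^ (9 / 10 : ℝ))
    filter_upwards [h2, eventually_ge_atTop 5] with x g1 g2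
    have hx : 0 < x := by linarith
    rw [Real.div_rpow hx.le (by norm_num) (9 / 10), le_div_iff₀ (by positivity)]
    have h3 : (x / 5) ^ (1 / 80 : ℝ) ≤ x ^ (1 / 80 : ℝ) :=
      Real.rpow_le_rpow (by positivity) (by linarith) (by norm_num)
    have h4 : 1 ≤ x ^ (1 / 80 : ℝ) := Real.one_le_rpow (by linarith) (by norm_num)
    calc (c0 * (x / 5) ^ (1 / 80 : ℝ) + 2) * x ^ (7 / 8 : ℝ) * 5 ^ (9 / 10 : ℝ) ≤
        ((c0 + 2) * x ^ (1 / 80 : ℝ)) * x ^ (7 / 8 : ℝ) * 5 ^ (9 / 10 : ℝ) := by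
          gcongr
          nlinarith
      _ = ((c0 + 2) * 5 ^ (9 / 10 : ℝ)) * (x ^ (1 / 80 : ℝ) * x ^ (7 / 8 : ℝ)) := by ring
      _ ≤ x ^ (1 / 80 : ℝ) * (x ^ (1 / 80 : ℝ) * x ^ (7 / 8 : ℝ)) := by gcongr
      _ = x ^ (9 / 10 : ℝ) := by
          rw [← Real.rpow_add hx, ← Real.rpow_add hx]; norm_num
  have e2 : ∀ᶠ X : ℝ in atTop, c0 * ff X ≤ c0 * X ^ (1 / 80 : ℝ) := by
    have h1 := ev_ff 1 one_pos
    have h2 := (isLittleO_log_rpow_rpow_atTop 2 (show (0 : ℝ) < 1 / 80 by norm_num)).def one_pos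
    filter_upwards [h1, h2, eventually_ge_atTop 1] with X g1 g2 g3
    apply mul_le_mul_of_nonneg_left _ hc0.le
    have hl : 0 ≤ Real.log X := Real.log_nonneg g3
    rw [one_mul, Real.norm_of_nonneg (by positivity), Real.norm_of_nonneg (by positivity)] at g2
    rw [Real.rpow_two] at g2
    linarith [g1.1]
  have e3 := ev_ff (5 * c0) (by positivity)
  have e4 := ff_gt_log (9 / c0) (by positivity)
  have e5 : ∀ᶠ x : ℝ in atTop, |Y0| + 6 * C + 6 ≤ Real.log x :=
    Real.tendsto_log_atTop.eventually_ge_atTop _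
  filter_upwards [e1, t5.eventually e2, t5.eventually e3, t5.eventually e4, t5.eventually e5,
    Pool.Agent.H378R2.RGT.ff_half, t5.eventually_ge_atTop X0, eventually_ge_atTop 5]
    with x f1 f2 f3 f4 f5 f6 f7 f8
  set X := x / 5 with hX
  have hXpos : 0 < X := by positivity
  have hCnn : (0 : ℝ) ≤ C := Nat.cast_nonneg C
  have hY0nn : 0 ≤ |Y0| := abs_nonneg _
  set H := c0 * ff X with hH
  have hlog : 6 ≤ Real.log X := by linarith
  have hH1 : 9 * Real.log X ≤ H := by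
    have h1 := mul_le_mul_of_nonneg_left f4 hc0.le
    have h2 : c0 * (9 / c0 * Real.log X) = 9 * Real.log X := by field_simp
    rw [h2] at h1
    exact h1
  have hHX : H ≤ X := by
    have h1 := f3.2.2
    have h2 : 2 * (5 * c0 * ff X) = 10 * H := by rw [hH]; ring
    rw [h2] at h1
    have h3 : 0 ≤ H := mul_nonneg hc0.le f3.2.1
    linarith
  have hHx : c0 / 20 * ff x ≤ H / 10 := by
    have h1 : c0 / 10 * (ff x / 2) ≤ c0 / 10 * ff X := mul_le_mul_of_nonneg_left f6 (by positivity)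
    have h2 : c0 / 10 * ff X = H / 10 := by rw [hH]; ring
    linarith
  -- a bounded cluster of shifts
  obtain ⟨n0, hn1, hn2, hn3⟩ := hY0 (H / 9) (by
    have := le_abs_self Y0
    linarith)
  obtain ⟨B, hB, hBK⟩ := Finset.exists_subset_card_eq hn3
  set t : Fin K → ℕ := fun j => B.orderEmbOfFin hBK j with ht
  have htB : ∀ j, t j ∈ B := fun j => B.orderEmbOfFin_mem hBK j
  have htinj : Function.Injective t := (B.orderEmbOfFin hBK).injective
  have htp : ∀ j, (t j).Prime ∧ n0 ≤ t j ∧ t j ≤ n0 + C := by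
    intro j
    have h1 := Finset.mem_filter.1 (hB (htB j))
    rw [Finset.mem_Icc] at h1
    exact ⟨h1.2, h1.1.1, h1.1.2⟩
  have htle : ∀ j, (t j : ℝ) ≤ H / 2 := by
    intro j
    have h1 : (t j : ℝ) ≤ n0 + C := by exact_mod_cast (htp j).2.2
    linarith
  have htge : ∀ j, H / 9 < (t j : ℝ) := by
    intro j
    have h1 : (n0 : ℝ) ≤ t j := by exact_mod_cast (htp j).2.1
    linarith
  have hyy : (yy X : ℝ) ≤ H / 9 := by
    have h1 : (yy X : ℝ) ≤ Real.log X / 1000 := Nat.floor_le (by linarith)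
    linarith
  have htup : ∀ j, (t j).Prime ∧ yy X < t j ∧ (t j : ℝ) ≤ c0 * ff X := fun j =>
    ⟨(htp j).1, by exact_mod_cast lt_of_le_of_lt hyy (htge j), by
      have := htle j
      have h3 : 0 ≤ H := by linarith
      linarith⟩
  set Gd : Finset ℕ := (Finset.range (⌊x⌋₊ + 1)).filter (fun p : ℕ => p.Prime ∧
      m ≤ ((Finset.Icc p (p + C)).filter Nat.Prime).card ∧
      ∀ q : ℕ, q.Prime → |(q : ℝ) - p| ≤ c0 / 20 * ff x → p ≤ q ∧ q ≤ p + C) with hGd
  by_contra hcon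
  push Not at hcon
  set bad : Finset ℕ := Gd.biUnion (fun p => Icc (p - ⌊H⌋₊) p) with hbad
  have hHnn : 0 ≤ H := by linarith
  have hbc : (bad.card : ℝ) ≤ X ^ (9 / 10 : ℝ) := by
    have h1 : bad.card ≤ ∑ p ∈ Gd, (Icc (p - ⌊H⌋₊) p).card := Finset.card_biUnion_le
    have h2 : ∀ p ∈ Gd, ((Icc (p - ⌊H⌋₊) p).card) ≤ ⌊H⌋₊ + 1 := by
      intro p _
      rw [Nat.card_Icc]; omega
    have h3 : bad.card ≤ Gd.card * (⌊H⌋₊ + 1) := by
      refine h1.trans ((Finset.sum_le_sum h2).trans ?_)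
      rw [Finset.sum_const, smul_eq_mul]
    have h4 : (bad.card : ℝ) ≤ (Gd.card : ℝ) * (⌊H⌋₊ + 1) := by exact_mod_cast h3
    have h5 : (⌊H⌋₊ : ℝ) ≤ H := Nat.floor_le hHnn
    calc (bad.card : ℝ) ≤ (Gd.card : ℝ) * (⌊H⌋₊ + 1) := h4
      _ ≤ x ^ (7 / 8 : ℝ) * (c0 * X ^ (1 / 80 : ℝ) + 2) := by
          apply mul_le_mul hcon.le _ (by positivity) (by positivity)
          linarith
      _ ≤ X ^ (9 / 10 : ℝ) := by rw [mul_comm]; exact f1
  obtain ⟨N, hN1, hN2, hN3, hN4, hN5⟩ := hX0 X f7 t htinj htup bad hbc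
  apply hN3
  set J := (univ : Finset (Fin K)).filter (fun j => (N + t j).Prime) with hJ
  have hJne : J.Nonempty := by rw [← Finset.card_pos]; omega
  obtain ⟨j0, hj0, hmin⟩ := Finset.exists_min_image J t hJne
  have hj0' : (N + t j0).Prime := (Finset.mem_filter.1 hj0).2
  rw [hbad, Finset.mem_biUnion]
  refine ⟨N + t j0, ?_, ?_⟩
  · rw [hGd, Finset.mem_filter, Finset.mem_range]
    refine ⟨?_, hj0', ?_, ?_⟩
    · rw [Nat.lt_succ_iff]
      apply Nat.le_floor
      push_cast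
      have h1 := htle j0
      have h2 : X = x / 5 := hX
      linarith
    · have h1 : J.card ≤ ((Finset.Icc (N + t j0) (N + t j0 + C)).filter Nat.Prime).card := by
        apply Finset.card_le_card_of_injOn (fun j => N + t j)
        · intro j hj
          rw [Finset.mem_coe] at hj
          rw [Finset.mem_coe, Finset.mem_filter, Finset.mem_Icc]
          have h2 := hmin j hj
          have h3 := (htp j).2.2
          have h4 := (htp j0).2.1
          refine ⟨⟨?_, ?_⟩, (Finset.mem_filter.1 hj).2⟩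
          · show N + t j0 ≤ N + t j
            omega
          · show N + t j ≤ N + t j0 + C
            omega
        · intro i _ j _ hij
          simp only at hij
          exact htinj (by omega)
      omega
    · intro q hq hqd
      have hqd' : |(q : ℝ) - (N + t j0 : ℕ)| ≤ H / 10 := hqd.trans hHx
      rw [abs_le] at hqd'
      push_cast at hqd'
      have h1 := htge j0
      have h2 := htle j0
      have h3 : (N : ℝ) ≤ q := by linarith
      have h4 : N ≤ q := by exact_mod_cast h3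
      obtain ⟨s, rfl⟩ := Nat.exists_eq_add_of_le h4
      have h5 : (s : ℝ) ≤ c0 * ff X := by
        have h6 : ((N + s : ℕ) : ℝ) = N + s := by push_cast; ring
        rw [h6] at hqd'
        linarith
      obtain ⟨j, rfl⟩ := hN5 s h5 hq
      have hjJ : j ∈ J := Finset.mem_filter.2 ⟨Finset.mem_univ _, hq⟩
      have h6 := hmin j hjJ
      have h7 := (htp j).2.2
      have h8 := (htp j0).2.1
      omega
  · rw [Finset.mem_Icc]
    have h1 : t j0 ≤ ⌊H⌋₊ := by
      apply Nat.le_floor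
      have := htle j0
      linarith
    omega

end Pool.Agent.H312R2.RG
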