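import Pool.Agent.H398R2.PG.G

set_option autoImplicit false

/-! TEAM RG, task C2a (helper378): Maynard-Tao in every dyadic interval, avoiding a sparse set. -/

open Finset Filter
open scoped ContDiff

namespace Pool.Agent.H312R2.RG

open Pool.Agent.H378R2 Pool.Agent.H398R2.PG

/-- a class modulo the big modulus which keeps an admissible tuple alive -/
theorem class_alive {K : ℕ} (h : Fin K → ℕ) (hadm : ∀ p : ℕ, p.Prime → ∃ a : ℕ, ∀ j, ¬ p ∣ a + h j)
    (X : ℝ) (S : Finset ℕ) (ps : ℕ) : ∃ a0 : ℕ, ∀ j, (a0 + h j).Coprime (WW X S ps) := by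
  classical
  choose! a ha using hadm
  have hPp : ∀ p ∈ PW X S ps, p.Prime := fun p hp => (mem_PW.1 hp).2.1
  obtain ⟨a0, ha0⟩ := Nat.chineseRemainderOfFinset a (fun p => p) (PW X S ps)
    (fun p hp => (hPp p hp).ne_zero)
    (by
      intro p hp q hq hpq
      exact (Nat.coprime_primes (hPp p (Finset.mem_coe.1 hp)) (hPp q (Finset.mem_coe.1 hq))).2 hpq)
  refine ⟨a0, fun j => ?_⟩
  by_contra hcop
  obtain ⟨p, hp, h1, h2⟩ := Nat.Prime.not_coprime_iff_dvd.1 hcop
  have hpP := (prime_dvd_WW hp).1 h2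
  have h3 := ha0 p hpP
  have h4 : a0 + h j ≡ a p + h j [MOD p] := h3.add_right _
  exact ha p hp j ((Nat.modEq_zero_iff_dvd).1 (h4.symm.trans (Nat.modEq_zero_iff_dvd.2 h1)))

/-- Maynard-Tao for all admissible tuples in every interval `(X, 3X]`, outside a sparse bad set -/
theorem mt_all (h5 : SieveAsymp) (hbv : BVrel) (r : ℕ) : ∃ K : ℕ, r ≤ K ∧ ∀ h : Fin K → ℕ,
    Function.Injective h → (∀ p : ℕ, p.Prime → ∃ a : ℕ, ∀ j, ¬ p ∣ a + h j) → ∃ X0 : ℝ, ∀ X : ℝ, X0 ≤ X →
    ∀ bad : Finset ℕ, (bad.card : ℝ) ≤ X ^ (9 / 10 : ℝ) →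
    ∃ n : ℕ, X < n ∧ (n : ℝ) ≤ 3 * X ∧ n ∉ bad ∧
      r ≤ ((univ : Finset (Fin K)).filter (fun j => (n + h j).Prime)).card := by
  classical
  obtain ⟨c0, hc0, X1, hset⟩ := setfacts
  have hset' : ∀ᶠ X : ℝ in atTop, ∀ (ps : ℕ) (E : Finset ℕ), E ⊆ Esup X ps → c0 / Real.log (Real.log X) ≤ BE E := by
    filter_upwards [eventually_ge_atTop X1] with X hX
    exact fun ps E hE => (hset X hX ps E hE).2.2
  obtain ⟨K0, B, f, c, A, hsm, hcs, hf0, hc, hA, hf1, hIpos, hratio, hrK⟩ := familyR (1600000 * (r + 3)) r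
  have hKpos : (0 : ℝ) < ((K0 + 1 : ℕ) : ℝ) := by positivity
  obtain ⟨ε1, hε1⟩ : ∃ ε1 : ℝ, ε1 = II f A / (((K0 + 1 : ℕ) : ℝ) + r + 1) := ⟨_, rfl⟩
  have hrnn : (0 : ℝ) ≤ r := Nat.cast_nonneg r
  have hden : (0 : ℝ) < ((K0 + 1 : ℕ) : ℝ) + r + 1 := by positivity
  have hε1pos : 0 < ε1 := by rw [hε1]; positivity
  have hε1eq : (((K0 + 1 : ℕ) : ℝ) + r + 1) * ε1 = II f A := by
    rw [hε1]; field_simp
  have hε1le : (((K0 + 1 : ℕ) : ℝ) + r) * ε1 ≤ II f A := by linarith
  have hε1le2 : ε1 ≤ II f A := by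
    have : 0 ≤ (((K0 + 1 : ℕ) : ℝ) + r) * ε1 := by positivity
    linarith
  obtain ⟨δ, hδ⟩ : ∃ δ : ℝ, δ = (1 / 2) * c0 / (400 * ((K0 + 1 : ℕ) : ℝ) * (2 * gam + 1)) := ⟨_, rfl⟩
  have hgam := gam_pos
  have hδpos : 0 < δ := by rw [hδ]; positivity
  refine ⟨K0 + 1, hrK, ?_⟩
  intro t htinj hadm
  have hT : (1 : ℝ) ≤ 1 := le_rfl
  obtain ⟨X3, hbvX⟩ := hbv (2 * K0 + 2) 4
  have hη : 0 < II f A / 80 := by positivity
  have hcc : 0 ≤ ((K0 + 1 : ℕ) : ℝ) * (A.card : ℝ) ^ 2 := by positivity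
  have hsmall : ∀ᶠ X : ℝ in atTop, ∀ j, (t j : ℝ) ≤ 1 * Real.log X := by
    rw [Filter.eventually_all]
    intro j
    filter_upwards [Real.tendsto_log_atTop.eventually_ge_atTop (t j : ℝ)] with X hX
    linarith
  rw [← Filter.eventually_atTop]
  filter_upwards [S1_boundE h5 f c A hsm hcs hf0 hc hA hf1 ε1 hε1pos,
    S2_boundE h5 f c A hsm hcs hf0 hc hA hf1 1 ε1 hε1pos,
    T_sumE h5 f c A hsm hcs hf0 hc hA hf1 hIpos.le c0 hc0 hset' 1 hT δ ε1 hδpos hε1pos,
    EE_facts 0, hset', LPhi_ge, errBE (K0 + 1) r 1 A.card (1 / 2) (II f A / 80) hT (Nat.cast_nonneg _) (by norm_num) hη,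
    errBV K0 (((K0 + 1 : ℕ) : ℝ) * (A.card : ℝ) ^ 2) c0 (II f A / 80) hcc hc0 hη,
    LL_tendsto.eventually_ge_atTop 1, eventually_ge_atTop 40, eventually_ge_atTop X3,
    Et_sub (K := K0 + 1) 1, BE_Et_ge (K0 + 1) 1 hT, ev_T_half 1, ev_RR, hsmall,
    (Real.tendsto_log_atTop.comp Real.tendsto_log_atTop).eventually_gt_atTop 0]
    with X hS1 hS2 hTs hEf hBEl hLP herrB herrBV hL1 hX40 hX3 hEtsub hBEt hTX hRR htT hll
  intro bad hbad
  simp only [Function.comp] at hll
  obtain ⟨ps, S, hps, hS, hbvS⟩ := hbvX X hX3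
  obtain ⟨a0, hcop⟩ := class_alive t hadm X S ps
  have hWpos : 0 < WW X S ps := WW_pos X S ps
  obtain ⟨Bc, hBc1, hBc2⟩ := Bc_exists X (WW X S ps) hWpos
  set E := Et X S ps t with hE
  have hEE : EE X S ps ⊆ E := EE_sub_Et X S ps t
  have hEsup : E ⊆ Esup X ps := hEtsub ps S t htT
  have hres := Et_res (X := X) (S := S) (ps := ps) htinj
  have hPWsub : PW X S ps ⊆ Esup X ps := by
    refine Finset.Subset.trans ?_ (EE_sub hEf.2.2 (S := S))
    unfold EE
    exact Finset.subset_union_left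
  have hBVle : BVerr K0 X S ps Bc ≤ X / ((WW X S ps * BE (PW X S ps)) * (Real.log X) ^ (2 * K0 + 2)) := by
    have h1 := hbvS Bc hBc1
    rw [totient_WW] at h1
    refine le_trans ?_ h1
    unfold BVerr
    apply Finset.sum_le_sum
    intro q hq
    apply mul_le_mul_of_nonneg_right _ (abs_nonneg _)
    rw [Finset.mem_filter, Finset.mem_Icc] at hq
    have h2 : (1 : ℝ) ≤ (q.divisors.card : ℝ) := by
      have : 0 < q.divisors.card := Finset.card_pos.2 ⟨1, Nat.one_mem_divisors.2 (by omega)⟩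
      exact_mod_cast this
    exact pow_le_pow_right₀ h2 (by omega)
  have hMM : MPhi X / 400 ≤ LPhi X := by
    have := MPhi_le X (by linarith)
    linarith
  have hlX : 0 ≤ Real.log X := Real.log_nonneg (by linarith)
  have hpos := pos_atE K0 B r 1 hT f c A hf0 hA hf1 hIpos c0 (1 / 2) ε1 δ X hc0 (by norm_num) hε1pos hε1le hε1le2 hδ hratio
    ps a0 S t Bc hX40 hL1 hMM E hEsup hPWsub (hBEt 4 ps S t le_rfl hps hS htT) ∅ hBEl
    (hS1 ps S a0 t hS E hEE hEsup hres) (hS2 4 ps S a0 t hps hS E hEE hEsup hres htT hcop Bc hBc2)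
    (hTs ps S a0 t hS E hEE hEsup hres htT ∅ (by simp) (by
      rw [Finset.card_empty, Nat.cast_zero]; positivity)) hBVle herrB herrBV bad hbad
  obtain ⟨n, hn, hnpos⟩ : ∃ n ∈ Icc 1 ⌊3 * X⌋₊, 0 < (nu X (WW X S ps) a0 n *
      sqw E X f A (fun j => (n : ℤ) + t j) ^ 2) *
      ((∑ i, th (n + t i)) / Real.log (4 * X) - r -
      ((K0 + 1 : ℕ) : ℝ) / (1 / 2) * (∑ s ∈ (∅ : Finset ℕ), (VVm (Es X S ps t s) (RR X) (LL X) fst ((n : ℤ) + s)) ^ 2) -
      ((K0 + 1 : ℕ) : ℝ) * (if n ∈ bad then 1 else 0)) := by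
    by_contra hcon
    push Not at hcon
    exact absurd hpos (not_lt.2 (Finset.sum_nonpos hcon))
  have hWnn : 0 ≤ nu X (WW X S ps) a0 n * sqw E X f A (fun j => (n : ℤ) + t j) ^ 2 :=
    mul_nonneg (nu_nonneg _ _ _ _) (sq_nonneg _)
  have hWpos' : 0 < nu X (WW X S ps) a0 n * sqw E X f A (fun j => (n : ℤ) + t j) ^ 2 := by
    rcases hWnn.eq_or_lt with h | h
    · rw [← h, zero_mul] at hnpos; exact absurd hnpos (lt_irrefl _)
    · exact h
  have hBrpos := (mul_pos_iff_of_pos_left hWpos').1 hnpos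
  have hnu : nu X (WW X S ps) a0 n ≠ 0 := by
    intro h
    rw [h, zero_mul] at hWpos'
    exact lt_irrefl _ hWpos'
  have hXpos : 0 < X := by linarith
  have hXn : X < n := by
    by_contra hle
    push Not at hle
    apply hnu
    unfold nu
    rw [Phi_eq_zero_of_le (by positivity) (by rw [div_le_one hXpos]; exact hle), ite_self]
  have hn3 : (n : ℝ) ≤ 3 * X := by
    rw [Finset.mem_Icc] at hn
    exact (Nat.cast_le.2 hn.2).trans (Nat.floor_le (by linarith))
  rw [Finset.sum_empty, mul_zero, sub_zero] at hBrpos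
  refine ⟨n, hXn, hn3, ?_, ?_⟩
  all_goals
    set l4 := Real.log (4 * X) with hl4
    have hl4pos : 0 < l4 := Real.log_pos (by linarith)
    have hth : ∀ i, th (n + t i) / l4 ≤ if (n + t i).Prime then 1 else 0 := by
      intro i
      unfold th
      split_ifs with hp
      · rw [div_le_one hl4pos, hl4]
        apply Real.log_le_log (by exact_mod_cast hp.pos)
        push_cast
        have h1 := htT i
        linarith
      · rw [zero_div]
    have hthsum : (∑ i, th (n + t i)) / l4 ≤ ((univ.filter (fun i => (n + t i).Prime)).card : ℝ) := by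
      rw [Finset.sum_div]
      refine (Finset.sum_le_sum fun i _ => hth i).trans ?_
      rw [Finset.sum_boole]
    have hcardK : ((univ.filter (fun i => (n + t i).Prime)).card : ℝ) ≤ ((K0 + 1 : ℕ) : ℝ) := by
      have h1 : (univ.filter (fun i => (n + t i).Prime)).card ≤ K0 + 1 := by
        refine (Finset.card_filter_le _ _).trans ?_
        rw [Finset.card_univ, Fintype.card_fin]
      exact_mod_cast h1
  · intro hb
    rw [if_pos hb, mul_one] at hBrpos
    linarith
  · have hbdnn : (0 : ℝ) ≤ ((K0 + 1 : ℕ) : ℝ) * (if n ∈ bad then 1 else 0) := by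
      split_ifs
      · rw [mul_one]; exact hKpos.le
      · rw [mul_zero]
    have h1 : (r : ℝ) < ((univ.filter (fun i => (n + t i).Prime)).card : ℝ) := by linarith
    have h2 : r < (univ.filter (fun i => (n + t i).Prime)).card := by exact_mod_cast h1
    exact h2.le

/-- Task C2a: bounded gaps in every dyadic interval -/
theorem mt_bounded (h5 : SieveAsymp) (hbv : BVrel) :
    ∀ r : ℕ, ∃ C : ℕ, ∃ X0 : ℝ, ∀ X : ℝ, X0 ≤ X →
      ∃ n : ℕ, X < n ∧ (n : ℝ) ≤ 3 * X ∧ r ≤ ((Finset.Icc n (n + C)).filter Nat.Prime).card := by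
  intro r
  obtain ⟨K, hrK, hK⟩ := mt_all h5 hbv r
  -- the tuple `(j+1) K!`
  set h : Fin K → ℕ := fun j => ((j : ℕ) + 1) * K.factorial with hh
  have hinj : Function.Injective h := by
    intro i j hij
    simp only [hh] at hij
    have := Nat.eq_of_mul_eq_mul_right (Nat.factorial_pos K) hij
    exact Fin.ext (by omega)
  have hadm : ∀ p : ℕ, p.Prime → ∃ a : ℕ, ∀ j, ¬ p ∣ a + h j := by
    intro p hp
    rcases le_or_gt p K with hpK | hpK
    · refine ⟨1, fun j hd => ?_⟩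
      have h1 : p ∣ h j := (Nat.dvd_factorial hp.pos hpK).mul_left _
      have h2 := (Nat.dvd_add_left h1).1 hd
      exact hp.one_lt.ne' (Nat.dvd_one.1 h2)
    · -- `K < p` classes cannot be all
      by_contra hcon
      push Not at hcon
      choose g hg using hcon
      have hle : p ≤ K := by
        have h1 : Function.Injective (fun a : Fin p => g a) := by
          intro a b hab
          simp only at hab
          have h2 := hg a
          have h3 := hg b
          rw [← hab] at h3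
          have h4 : ((a : ℕ) : ℤ) - b = (((a : ℕ) + h (g a) : ℕ) : ℤ) - (((b : ℕ) + h (g a) : ℕ) : ℤ) := by
            push_cast; ring
          have h5 : (p : ℤ) ∣ ((a : ℕ) : ℤ) - b := by
            rw [h4]
            exact dvd_sub (Int.natCast_dvd_natCast.2 h2) (Int.natCast_dvd_natCast.2 h3)
          have h6 := Int.eq_zero_of_abs_lt_dvd h5 (by
            have := a.2
            have := b.2
            rw [abs_lt]
            constructor <;> omega)
          exact Fin.ext (by omega)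
        have h2 := Fintype.card_le_of_injective _ h1
        rwa [Fintype.card_fin, Fintype.card_fin] at h2
      omega
  obtain ⟨X0, hX0⟩ := hK h hinj hadm
  refine ⟨K * K.factorial, max X0 1, fun X hX => ?_⟩
  obtain ⟨n, hn1, hn2, -, hn3⟩ := hX0 X ((le_max_left _ _).trans hX) ∅ (by
    rw [Finset.card_empty, Nat.cast_zero]
    have : 1 ≤ X := (le_max_right _ _).trans hX
    positivity)
  refine ⟨n, hn1, hn2, hn3.trans ?_⟩
  apply Finset.card_le_card_of_injOn (fun j => n + h j)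
  · intro j hj
    rw [Finset.mem_coe, Finset.mem_filter] at hj
    rw [Finset.mem_coe, Finset.mem_filter, Finset.mem_Icc]
    refine ⟨⟨Nat.le_add_right _ _, ?_⟩, hj.2⟩
    have h1 : (j : ℕ) + 1 ≤ K := j.2
    have h2 : h j ≤ K * K.factorial := Nat.mul_le_mul_right _ h1
    show n + h j ≤ n + K * K.factorial
    omega
  · intro i _ j _ hij
    simp only at hij
    exact hinj (by omega)

end Pool.Agent.H312R2.RG
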