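import Pool.Agent.H256R2.SC.Par
import Pool.Agent.Helper923.PNT

set_option autoImplicit false

/-! TEAM RG, task C3 (helper488): preparations: slow variation of the record function, primes in
short intervals (prime number theorem), consecutive primes. -/

open Finset Filter Topology

namespace Pool.Agent.H312R2.RG.C3

open Pool.Agent.H256R2.SC (ff t1 t2 t3 t4 ev_log_sq ev_log)

/-- pairs `(X, y)` with `X → ∞` and `X ≤ y ≤ 4 X` -/
def FF : Filter (ℝ × ℝ) := comap Prod.fst atTop ⊓ 𝓟 {p | p.1 ≤ p.2 ∧ p.2 ≤ 4 * p.1}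

theorem ev_FF {P : ℝ × ℝ → Prop} : (∀ᶠ p in FF, P p) ↔
    ∀ᶠ X : ℝ in atTop, ∀ y, X ≤ y → y ≤ 4 * X → P (X, y) := by
  unfold FF
  rw [eventually_inf_principal, eventually_comap]
  constructor
  · intro h
    filter_upwards [h] with X hX y h1 h2
    exact hX (X, y) rfl ⟨h1, h2⟩
  · intro h
    filter_upwards [h] with X hX
    rintro ⟨X', y⟩ rfl ⟨h1, h2⟩
    exact hX y h1 h2

theorem tend_fst {f : ℝ → ℝ} (hf : Tendsto f atTop atTop) :
    Tendsto (fun p : ℝ × ℝ => f p.1) FF atTop :=
  hf.comp (tendsto_comap.mono_left inf_le_left)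

theorem tend_snd {f : ℝ → ℝ} (hf : Tendsto f atTop atTop) :
    Tendsto (fun p : ℝ × ℝ => f p.2) FF atTop := by
  refine hf.comp ?_
  rw [tendsto_atTop]
  intro b
  rw [ev_FF]
  filter_upwards [eventually_ge_atTop b] with X hX y h1 _
  exact hX.trans h1

/-- the logarithm of a function of bounded ratio varies slowly -/
theorem log_step {f : ℝ → ℝ} (hf : Tendsto f atTop atTop)
    (hb : ∀ᶠ p : ℝ × ℝ in FF, 1 / 4 ≤ f p.2 / f p.1 ∧ f p.2 / f p.1 ≤ 4) :
    Tendsto (fun p : ℝ × ℝ => Real.log (f p.2) / Real.log (f p.1)) FF (𝓝 1) := by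
  have h1 : Tendsto (fun p : ℝ × ℝ => Real.log 4 / Real.log (f p.1)) FF (𝓝 0) :=
    Tendsto.div_atTop tendsto_const_nhds (Real.tendsto_log_atTop.comp (tend_fst hf))
  rw [tendsto_iff_norm_sub_tendsto_zero]
  refine squeeze_zero' (Eventually.of_forall fun p => norm_nonneg _) ?_ h1
  filter_upwards [hb, (tend_fst hf).eventually_gt_atTop 1, (tend_snd hf).eventually_gt_atTop 1]
    with p h2 h3 h4
  have h5 : 0 < Real.log (f p.1) := Real.log_pos h3
  have h6 : Real.log (f p.2) / Real.log (f p.1) - 1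
      = Real.log (f p.2 / f p.1) / Real.log (f p.1) := by
    rw [Real.log_div (by linarith) (by linarith)]
    field_simp
  rw [h6, Real.norm_eq_abs, abs_div, abs_of_pos h5]
  refine div_le_div_of_nonneg_right ?_ h5.le
  rw [abs_le]
  constructor
  · have h7 : Real.log (1 / 4) ≤ Real.log (f p.2 / f p.1) :=
      Real.log_le_log (by norm_num) h2.1
    rw [one_div, Real.log_inv] at h7
    exact h7
  · exact Real.log_le_log (by linarith [h2.1]) h2.2

theorem bdd_of_tend {f : ℝ → ℝ}
    (h : Tendsto (fun p : ℝ × ℝ => f p.2 / f p.1) FF (𝓝 1)) :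
    ∀ᶠ p : ℝ × ℝ in FF, 1 / 4 ≤ f p.2 / f p.1 ∧ f p.2 / f p.1 ≤ 4 := by
  have h1 := h.eventually (Icc_mem_nhds (show (1 / 4 : ℝ) < 1 by norm_num)
    (show (1 : ℝ) < 4 by norm_num))
  exact h1

theorem s1 : Tendsto (fun p : ℝ × ℝ => Real.log p.2 / Real.log p.1) FF (𝓝 1) := by
  refine log_step (f := id) tendsto_id ?_
  rw [ev_FF]
  filter_upwards [eventually_gt_atTop 0] with X hX y h1 h2
  simp only [id]
  constructor
  · rw [le_div_iff₀ hX]
    linarith
  · rw [div_le_iff₀ hX]
    exact h2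

theorem s2 : Tendsto (fun p : ℝ × ℝ => Real.log (Real.log p.2) / Real.log (Real.log p.1)) FF
    (𝓝 1) := log_step t1 (bdd_of_tend s1)

theorem s3 : Tendsto (fun p : ℝ × ℝ => Real.log (Real.log (Real.log p.2)) /
    Real.log (Real.log (Real.log p.1))) FF (𝓝 1) := log_step (f := fun X : ℝ => Real.log (Real.log X)) t2
      (bdd_of_tend (f := fun X : ℝ => Real.log (Real.log X)) s2)

theorem s4 : Tendsto (fun p : ℝ × ℝ => Real.log (Real.log (Real.log (Real.log p.2))) /
    Real.log (Real.log (Real.log (Real.log p.1)))) FF (𝓝 1) := log_step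
      (f := fun X : ℝ => Real.log (Real.log (Real.log X))) t3
      (bdd_of_tend (f := fun X : ℝ => Real.log (Real.log (Real.log X))) s3)

theorem ff_ratio : Tendsto (fun p : ℝ × ℝ => ff p.2 / ff p.1) FF (𝓝 1) := by
  have h := ((s1.mul (s2.pow 2)).mul s4).div (s3.pow 2) (by norm_num)
  norm_num at h
  refine h.congr' ?_
  filter_upwards [(tend_fst t1).eventually_gt_atTop 0, (tend_fst t2).eventually_gt_atTop 0,
    (tend_fst t3).eventually_gt_atTop 0, (tend_fst t4).eventually_gt_atTop 0,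
    (tend_snd t1).eventually_gt_atTop 0, (tend_snd t2).eventually_gt_atTop 0,
    (tend_snd t3).eventually_gt_atTop 0, (tend_snd t4).eventually_gt_atTop 0] with p a1 a2 a3 a4
      b1 b2 b3 b4
  unfold ff
  have := a1.ne'
  have := a2.ne'
  have := a3.ne'
  have := a4.ne'
  have := b1.ne'
  have := b2.ne'
  have := b3.ne'
  have := b4.ne'
  simp only [Pi.div_apply]
  field_simp

theorem ff_slow (δ : ℝ) (hδ : 0 < δ) : ∀ᶠ X : ℝ in atTop, ∀ y, X ≤ y → y ≤ 4 * X →
    |ff X / ff y - 1| < δ := by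
  have h1 : Tendsto (fun p : ℝ × ℝ => ff p.1 / ff p.2) FF (𝓝 1) := by
    have := ff_ratio.inv₀ one_ne_zero
    rw [inv_one] at this
    refine this.congr fun p => ?_
    rw [inv_div]
  have h2 := h1.eventually (Metric.ball_mem_nhds 1 hδ)
  rw [ev_FF] at h2
  filter_upwards [h2] with X hX y h3 h4
  have := hX y h3 h4
  rw [Real.dist_eq] at this
  exact this

/-- `log X * log log X ≤ ff X` -/
theorem ff_lower : ∀ᶠ X : ℝ in atTop, Real.log X * Real.log (Real.log X) ≤ ff X := by
  filter_upwards [t1.eventually_gt_atTop 0, t2.eventually_gt_atTop 0, t3.eventually_gt_atTop 0,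
    t4.eventually_ge_atTop 1, t2.eventually ev_log_sq] with X h1 h2 h3 h4 h5
  unfold ff
  rw [le_div_iff₀ (by positivity)]
  have h6 : Real.log (Real.log (Real.log X)) ^ 2 ≤ Real.log (Real.log X) := by linarith
  calc Real.log X * Real.log (Real.log X) * Real.log (Real.log (Real.log X)) ^ 2
      ≤ Real.log X * Real.log (Real.log X) * Real.log (Real.log X) := by gcongr
    _ = Real.log X * Real.log (Real.log X) ^ 2 * 1 := by ring
    _ ≤ _ := by gcongr

/-- `ff X ≤ (log X)^4` -/
theorem ff_upper : ∀ᶠ X : ℝ in atTop, ff X ≤ Real.log X ^ 4 := by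
  filter_upwards [t1.eventually_gt_atTop 0, t2.eventually_gt_atTop 0, t3.eventually_ge_atTop 1,
    t4.eventually_ge_atTop 1] with X h1 h2 h3 h4
  have h5 : Real.log (Real.log X) ≤ Real.log X := Real.log_le_self h1.le
  have h6 : Real.log (Real.log (Real.log X)) ≤ Real.log X :=
    (Real.log_le_self h2.le).trans h5
  have h7 : Real.log (Real.log (Real.log (Real.log X))) ≤ Real.log X :=
    (Real.log_le_self (by linarith)).trans h6
  unfold ff
  rw [div_le_iff₀ (by positivity)]
  calc Real.log X * Real.log (Real.log X) ^ 2 * Real.log (Real.log (Real.log (Real.log X)))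
      ≤ Real.log X * Real.log X ^ 2 * Real.log X := by gcongr
    _ = Real.log X ^ 4 * 1 ^ 2 := by ring
    _ ≤ _ := by gcongr

theorem ff_small (C : ℝ) (hC : 0 < C) : ∀ᶠ X : ℝ in atTop, C * ff X ≤ X := by
  have h := (Real.isLittleO_pow_log_id_atTop (n := 4)).def (show (0 : ℝ) < 1 / C by positivity)
  filter_upwards [h, ff_upper, eventually_gt_atTop (1 : ℝ)] with X h1 h2 h3
  simp only [id, Real.norm_eq_abs] at h1
  rw [abs_of_nonneg (by have := Real.log_pos h3; positivity), abs_of_pos (by linarith)] at h1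
  have h4 : Real.log X ^ 4 * C ≤ X := by
    have := mul_le_mul_of_nonneg_right h1 hC.le
    have h5 : 1 / C * X * C = X := by field_simp
    linarith
  nlinarith

theorem ff_tendsto : Tendsto ff atTop atTop := by
  have h1 : Tendsto (fun X : ℝ => Real.log X * Real.log (Real.log X)) atTop atTop :=
    t1.atTop_mul_atTop₀ t2
  exact tendsto_atTop_mono' _ ff_lower h1

/-- prime number theorem in short intervals -/
theorem exists_prime_Ioc (δ : ℝ) (hδ : 0 < δ) : ∀ᶠ y : ℝ in atTop,
    ∃ p : ℕ, p.Prime ∧ y < p ∧ (p : ℝ) ≤ (1 + δ) * y := by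
  have h1 := Pool.Agent.Helper923.PNT.theta_div_tendsto
  have h2 : Tendsto (fun y : ℝ => Chebyshev.theta ((1 + δ) * y) / y) atTop (𝓝 (1 + δ)) := by
    have h3 : Tendsto (fun y : ℝ => (1 + δ) * y) atTop atTop :=
      tendsto_id.const_mul_atTop (by linarith)
    have h4 := (h1.comp h3).const_mul (1 + δ)
    rw [mul_one] at h4
    refine h4.congr' ?_
    filter_upwards [eventually_gt_atTop 0] with y hy
    simp only [Function.comp]
    have : 1 + δ ≠ 0 := by linarith
    field_simp
  have h5 := (h2.sub h1).eventually (lt_mem_nhds (show (0 : ℝ) < 1 + δ - 1 by linarith))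
  filter_upwards [h5, eventually_gt_atTop 0] with y hy hy0
  by_contra hcon
  push Not at hcon
  have h6 : Chebyshev.theta ((1 + δ) * y) = Chebyshev.theta y := by
    unfold Chebyshev.theta
    apply Finset.sum_congr _ (fun _ _ => rfl)
    ext p
    simp only [Finset.mem_filter, Finset.mem_Ioc]
    have h7 : y ≤ (1 + δ) * y := by nlinarith
    constructor
    · rintro ⟨⟨h8, h9⟩, h10⟩
      refine ⟨⟨h8, ?_⟩, h10⟩
      have h11 : (p : ℝ) ≤ (1 + δ) * y := (Nat.le_floor_iff (by positivity)).1 h9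
      apply Nat.le_floor
      by_contra h12
      push Not at h12
      exact absurd h11 (not_le.2 (hcon p h10 h12))
    · rintro ⟨⟨h8, h9⟩, h10⟩
      exact ⟨⟨h8, h9.trans (Nat.floor_le_floor h7)⟩, h10⟩
  rw [h6, sub_self] at hy
  exact lt_irrefl _ hy

theorem count_eq_of_none {a b : ℕ} (hab : a ≤ b) (h : ∀ k, a ≤ k → k < b → ¬ k.Prime) :
    Nat.count Nat.Prime b = Nat.count Nat.Prime a := by
  induction b, hab using Nat.le_induction with
  | base => rfl
  | succ n hn ih =>
    rw [Nat.count_succ, if_neg (h n hn (Nat.lt_succ_self n)), add_zero]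
    exact ih fun k h1 h2 => h k h1 (h2.trans (Nat.lt_succ_self n))

theorem count_next {a b : ℕ} (ha : a.Prime) (hab : a < b)
    (h : ∀ k, a < k → k < b → ¬ k.Prime) :
    Nat.count Nat.Prime b = Nat.count Nat.Prime a + 1 := by
  rw [count_eq_of_none (a := a + 1) hab (fun k h1 h2 => h k h1 h2), Nat.count_succ, if_pos ha]

end Pool.Agent.H312R2.RG.C3
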