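import Pool.Agent.H312R2.RG.Defs
import Pool.Agent.H312R2.RG.C3a

set_option autoImplicit false

/-! TEAM RG, task C3 (helper488): limit points of vectors of consecutive gaps at the record scale. -/

open Finset Filter Topology

namespace Pool.Agent.H312R2.RG

open Pool.Agent.H378R2 (yy)
open Pool.Agent.H256R2.SC (ff t1 t2 t3 t4)

open C3 in
/-- the deterministic part: consecutive primes among the shifts `n + t j`. -/
theorem C3.consecutive {K m : ℕ} (t : Fin K → ℕ) (ht : StrictMono t) (n : ℕ) (B : ℝ)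
    (htB : ∀ j, (t j : ℝ) ≤ B)
    (hc : m + 1 ≤ ((univ : Finset (Fin K)).filter (fun j => (n + t j).Prime)).card)
    (hs : ∀ s : ℕ, (s : ℝ) ≤ B → (n + s).Prime → ∃ j, s = t j) :
    ∃ j : Fin (m + 1) → Fin K, StrictMono j ∧ ∃ n₀ : ℕ,
      ∀ i : Fin (m + 1), Nat.nth Nat.Prime (n₀ + i) = n + t (j i) := by
  classical
  set J := (univ : Finset (Fin K)).filter (fun j => (n + t j).Prime) with hJ
  let f : Fin J.card ↪o Fin K := J.orderEmbOfFin rfl
  have hfJ : ∀ k, (n + t (f k)).Prime := by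
    intro k
    have := J.orderEmbOfFin_mem rfl k
    exact (Finset.mem_filter.1 this).2
  have hJf : ∀ l, (n + t l).Prime → ∃ k, f k = l := by
    intro l hl
    have h1 : l ∈ J := by
      rw [hJ, Finset.mem_filter]
      exact ⟨Finset.mem_univ _, hl⟩
    have h2 : l ∈ Set.range (J.orderEmbOfFin rfl) := by
      rw [Finset.range_orderEmbOfFin]
      exact h1
    exact h2
  let j : Fin (m + 1) → Fin K := fun i => f (Fin.castLE hc i)
  have hj : StrictMono j := fun a b hab => f.strictMono (by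
    rw [Fin.lt_def]
    exact hab)
  refine ⟨j, hj, Nat.count Nat.Prime (n + t (j 0)), ?_⟩
  have key : ∀ i : ℕ, (hi : i < m + 1) →
      Nat.count Nat.Prime (n + t (j ⟨i, hi⟩)) = Nat.count Nat.Prime (n + t (j 0)) + i := by
    intro i
    induction i with
    | zero => intro hi; rfl
    | succ i ih =>
      intro hi
      have h1 : i < m + 1 := by omega
      rw [← add_assoc, ← ih h1]
      have hlt : j ⟨i, h1⟩ < j ⟨i + 1, hi⟩ := hj (by rw [Fin.lt_def]; exact Nat.lt_succ_self i)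
      apply count_next (hfJ _)
      · exact Nat.add_lt_add_left (ht hlt) n
      · intro k hk1 hk2 hkp
        obtain ⟨s, rfl⟩ : ∃ s, k = n + s := by
          have hk0 : n ≤ k := (Nat.le_add_right _ _).trans hk1.le
          exact ⟨k - n, by omega⟩
        have h3 : s < t (j ⟨i + 1, hi⟩) := Nat.lt_of_add_lt_add_left hk2
        have h4 : t (j ⟨i, h1⟩) < s := Nat.lt_of_add_lt_add_left hk1
        obtain ⟨l, rfl⟩ := hs s (by
          have : (s : ℝ) ≤ t (j ⟨i + 1, hi⟩) := by exact_mod_cast h3.le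
          exact this.trans (htB _)) hkp
        obtain ⟨k', rfl⟩ := hJf l hkp
        have h5 : k' < Fin.castLE hc ⟨i + 1, hi⟩ := by
          have := ht.lt_iff_lt.1 h3
          exact f.lt_iff_lt.1 this
        have h6 : Fin.castLE hc ⟨i, h1⟩ < k' := by
          have := ht.lt_iff_lt.1 h4
          exact f.lt_iff_lt.1 this
        rw [Fin.lt_def] at h5 h6
        simp only [Fin.val_castLE] at h5 h6
        omega
  intro i
  have h1 := key i.1 i.2
  have h2 : (⟨i.1, i.2⟩ : Fin (m + 1)) = i := rfl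
  rw [h2] at h1
  rw [← h1]
  exact Nat.nth_count (hfJ _)

open C3 in
/-- Task C3: limit points of vectors of consecutive gaps at the record scale -/
theorem limit_points_of (h : MTRG) : ∀ m : ℕ, ∃ K : ℕ, ∃ c : ℝ, 0 < c ∧ ∀ β : Fin K → ℝ, StrictMono β →
    (∀ j, 0 < β j ∧ β j ≤ c) → ∃ j : Fin (m + 1) → Fin K, StrictMono j ∧ ∀ ε : ℝ, 0 < ε → ∃ᶠ n : ℕ in atTop,
      ∀ i : Fin m, |((Nat.nth Nat.Prime (n + i + 1) : ℝ) - Nat.nth Nat.Prime (n + i)) /
          ff (Nat.nth Nat.Prime n) - (β (j i.succ) - β (j i.castSucc))| < ε := by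
  classical
  intro m
  obtain ⟨K, hK, c₀, hc₀, X0, hMT⟩ := h (m + 1)
  refine ⟨K, c₀ / 2, by positivity, fun β hβ hβc => ?_⟩
  by_contra hcon
  push Not at hcon
  -- uniform epsilon
  have h1 : ∀ j : Fin (m + 1) → Fin K, ∃ ε : ℝ, 0 < ε ∧ (StrictMono j → ∀ᶠ n : ℕ in atTop,
      ∃ i : Fin m, ε ≤ |((Nat.nth Nat.Prime (n + i + 1) : ℝ) - Nat.nth Nat.Prime (n + i)) /
          ff (Nat.nth Nat.Prime n) - (β (j i.succ) - β (j i.castSucc))|) := by
    intro j
    by_cases hj : StrictMono j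
    · obtain ⟨ε, hε, h2⟩ := hcon j hj
      exact ⟨ε, hε, fun _ => h2⟩
    · exact ⟨1, one_pos, fun h => absurd h hj⟩
  choose εf hεf hev using h1
  have : Nonempty (Fin (m + 1) → Fin K) := ⟨fun i => ⟨i.1, by omega⟩⟩
  obtain ⟨jmin, hjmin⟩ := Finite.exists_min εf
  set η := εf jmin with hη
  have hη0 : 0 < η := hεf jmin
  have hev2 : ∀ᶠ n : ℕ in atTop, ∀ j : Fin (m + 1) → Fin K, StrictMono j →
      ∃ i : Fin m, η ≤ |((Nat.nth Nat.Prime (n + i + 1) : ℝ) - Nat.nth Nat.Prime (n + i)) /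
          ff (Nat.nth Nat.Prime n) - (β (j i.succ) - β (j i.castSucc))| := by
    rw [eventually_all]
    intro j
    by_cases hj : StrictMono j
    · filter_upwards [hev j hj] with n hn _
      obtain ⟨i, hi⟩ := hn
      exact ⟨i, (hjmin j).trans hi⟩
    · exact Eventually.of_forall fun n hn => absurd hn hj
  obtain ⟨N₀, hN₀⟩ := eventually_atTop.1 hev2
  -- choice of delta
  have hδ : ∃ δ : ℝ, 0 < δ ∧ δ < 1 ∧ (c₀ + 4) * δ < η ∧ δ < c₀ / 2 ∧
      ∀ i j : Fin K, i < j → β i + δ < β j := by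
    have e1 : ∀ a : ℝ, 0 < a → ∀ᶠ δ : ℝ in 𝓝[>] 0, δ < a := fun a ha => by
      filter_upwards [Ioo_mem_nhdsGT ha] with δ hδ using hδ.2
    have e2 : ∀ᶠ δ : ℝ in 𝓝[>] 0, ∀ i j : Fin K, i < j → β i + δ < β j := by
      rw [eventually_all]
      intro i
      rw [eventually_all]
      intro j
      by_cases hij : i < j
      · filter_upwards [e1 (β j - β i) (by have := hβ hij; linarith)] with δ hδ _
        linarith
      · exact Eventually.of_forall fun δ hn => absurd hn hij
    have e3 : ∀ᶠ δ : ℝ in 𝓝[>] 0, 0 < δ := self_mem_nhdsWithin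
    obtain ⟨δ, h1, h2, h3, h4, h5⟩ := (e3.and ((e1 1 one_pos).and
      ((e1 (η / (c₀ + 4)) (by positivity)).and ((e1 (c₀ / 2) (by positivity)).and e2)))).exists
    refine ⟨δ, h1, h2, ?_, h4, h5⟩
    rw [lt_div_iff₀ (by positivity)] at h3
    linarith
  obtain ⟨δ, hδ0, hδ1, hδη, hδc, hδβ⟩ := hδ
  -- relative error for the primes
  set δ' := δ / c₀ with hδ'
  have hδ'0 : 0 < δ' := by positivity
  have hβδ : ∀ j, δ' * β j ≤ δ := by
    intro j
    rw [hδ', div_mul_eq_mul_div, div_le_iff₀ hc₀]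
    have := (hβc j).2
    nlinarith
  -- choice of X
  have hprimes : ∀ᶠ X : ℝ in atTop, ∀ j : Fin K, ∃ p : ℕ, p.Prime ∧ β j * ff X < p ∧
      (p : ℝ) ≤ (1 + δ') * (β j * ff X) := by
    rw [eventually_all]
    intro j
    have h2 : Tendsto (fun X : ℝ => β j * ff X) atTop atTop :=
      ff_tendsto.const_mul_atTop (hβc j).1
    exact h2.eventually (exists_prime_Ioc δ' hδ'0)
  have hyy : ∀ᶠ X : ℝ in atTop, ∀ j : Fin K, (yy X : ℝ) ≤ β j * ff X := by
    rw [eventually_all]
    intro j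
    have hb := (hβc j).1
    filter_upwards [ff_lower, t2.eventually_ge_atTop (1 / β j), t1.eventually_gt_atTop 0]
      with X h2 h3 h4
    have h5 : (yy X : ℝ) ≤ Real.log X / 1000 := Nat.floor_le (by positivity)
    have h6 : 1 ≤ β j * Real.log (Real.log X) := by
      have h9 := (div_le_iff₀ hb).1 h3
      linarith
    have h7 : β j * (Real.log X * Real.log (Real.log X)) ≤ β j * ff X :=
      mul_le_mul_of_nonneg_left h2 hb.le
    have h8 : Real.log X * 1 ≤ Real.log X * (β j * Real.log (Real.log X)) :=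
      mul_le_mul_of_nonneg_left h6 h4.le
    nlinarith
  obtain ⟨X, hXp, hXy, hXs, hXsm, hX0, hXN, hXpos, hXf⟩ := (hprimes.and (hyy.and
    ((ff_slow δ hδ0).and ((ff_small c₀ hc₀).and ((eventually_ge_atTop X0).and
    ((eventually_ge_atTop ((Nat.nth Nat.Prime N₀ : ℕ) : ℝ)).and ((eventually_gt_atTop 0).and
    (ff_tendsto.eventually_gt_atTop 0)))))))).exists
  choose t htp ht1 ht2 using hXp
  have htc : ∀ j, (t j : ℝ) ≤ (β j + δ) * ff X := by
    intro j
    have := hβδ j
    nlinarith [ht2 j]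
  have htmono : StrictMono t := by
    intro i j hij
    have h2 := hδβ i j hij
    have h3 : (t i : ℝ) < t j := by
      calc (t i : ℝ) ≤ (β i + δ) * ff X := htc i
        _ < β j * ff X := mul_lt_mul_of_pos_right h2 hXf
        _ < t j := ht1 j
    exact_mod_cast h3
  have htB : ∀ j, (t j : ℝ) ≤ c₀ * ff X := by
    intro j
    refine (htc j).trans (mul_le_mul_of_nonneg_right ?_ hXf.le)
    linarith [(hβc j).2]
  obtain ⟨n, hn1, hn2, _, hn4, hn5⟩ := hMT X hX0 t htmono.injective (fun j => ⟨htp j, by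
    have h2 := (hXy j).trans_lt (ht1 j)
    exact_mod_cast h2, htB j⟩) ∅ (by simp; positivity)
  obtain ⟨j, hj, n₀, hnth⟩ := C3.consecutive t htmono n (c₀ * ff X) htB hn4 hn5
  have hp0 : Nat.nth Nat.Prime n₀ = n + t (j 0) := by
    have := hnth 0
    simpa using this
  have hn₀ : N₀ ≤ n₀ := by
    by_contra hlt
    push Not at hlt
    have h2 : Nat.nth Nat.Prime n₀ < Nat.nth Nat.Prime N₀ :=
      Nat.nth_strictMono Nat.infinite_setOf_prime hlt
    rw [hp0] at h2
    have h3 : ((n + t (j 0) : ℕ) : ℝ) < (Nat.nth Nat.Prime N₀ : ℕ) := by exact_mod_cast h2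
    push_cast at h3
    have h4 : (0 : ℝ) ≤ t (j 0) := Nat.cast_nonneg _
    linarith
  obtain ⟨i, hi⟩ := hN₀ n₀ hn₀ j hj
  refine absurd hi (not_le.2 ?_)
  -- the estimate
  have hP1 : X ≤ ((Nat.nth Nat.Prime n₀ : ℕ) : ℝ) := by
    rw [hp0]
    push_cast
    have h4 : (0 : ℝ) ≤ t (j 0) := Nat.cast_nonneg _
    linarith
  have hP2 : ((Nat.nth Nat.Prime n₀ : ℕ) : ℝ) ≤ 4 * X := by
    rw [hp0]
    push_cast
    have h4 := htB (j 0)
    linarith
  have hslow := hXs _ hP1 hP2
  have hA : Nat.nth Nat.Prime (n₀ + i) = n + t (j i.castSucc) := by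
    have := hnth i.castSucc
    simpa using this
  have hB : Nat.nth Nat.Prime (n₀ + i + 1) = n + t (j i.succ) := by
    have := hnth i.succ
    simpa [add_assoc] using this
  rw [hA, hB]
  push_cast
  set P := ff ((Nat.nth Nat.Prime n₀ : ℕ) : ℝ) with hPdef
  set u := β (j i.succ) with hu
  set v := β (j i.castSucc) with hv
  set a : ℝ := (t (j i.succ) : ℝ) with ha
  set b : ℝ := (t (j i.castSucc) : ℝ) with hb
  have hF := hXf
  have a1 : u * ff X < a := ht1 _
  have a2 : a ≤ (u + δ) * ff X := htc _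
  have b1 : v * ff X < b := ht1 _
  have b2 : b ≤ (v + δ) * ff X := htc _
  have q1 : |(a - b) / ff X - (u - v)| ≤ δ := by
    rw [abs_le]
    have e : (a - b) / ff X - (u - v) = (a - b - (u - v) * ff X) / ff X := by
      field_simp
    rw [e]
    constructor
    · rw [le_div_iff₀ hF]
      nlinarith
    · rw [div_le_iff₀ hF]
      nlinarith
  have hu1 := (hβc (j i.succ)).2
  have hu0 := (hβc (j i.succ)).1
  have hv1 := (hβc (j i.castSucc)).2
  have hv0 := (hβc (j i.castSucc)).1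
  have q2 : |(a - b) / ff X| ≤ c₀ / 2 + δ := by
    have e1 : |u - v| ≤ c₀ / 2 := by
      rw [abs_le]
      constructor <;> linarith
    calc |(a - b) / ff X| = |((a - b) / ff X - (u - v)) + (u - v)| := by ring_nf
      _ ≤ |(a - b) / ff X - (u - v)| + |u - v| := abs_add_le _ _
      _ ≤ _ := by linarith
  have e2 : (n + a - (n + b)) / P - (u - v)
      = (a - b) / ff X * (ff X / P - 1) + ((a - b) / ff X - (u - v)) := by
    have : (a - b) / ff X * (ff X / P) = (a - b) / P := by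
      field_simp
    rw [mul_sub, this]
    ring
  rw [e2]
  calc |(a - b) / ff X * (ff X / P - 1) + ((a - b) / ff X - (u - v))|
      ≤ |(a - b) / ff X * (ff X / P - 1)| + |(a - b) / ff X - (u - v)| := abs_add_le _ _
    _ ≤ (c₀ / 2 + δ) * δ + δ := by
        rw [abs_mul]
        have := mul_le_mul q2 hslow.le (abs_nonneg _) (by positivity)
        linarith
    _ ≤ (c₀ + 4) * δ := by nlinarith
    _ < η := hδη

end Pool.Agent.H312R2.RG
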