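import Pool.Agent.H378R2.RGT

set_option autoImplicit false

/-! TEAM RG, task C4 (helper378): patterns of every diameter up to the record scale. -/

namespace Pool.Agent.H312R2.RG

open Finset Filter
open Pool.Agent.H256R2.SC (ff)

open Classical in
/-- patterns of diameter at most `D` realised often as consecutive primes -/
noncomputable def FreqD (m : ℕ) (D : ℝ) (x : ℕ) : Finset (Finset ℕ) :=
  (Pool.Agent.H312R2.base m ⌊D⌋₊).filter (fun H => Pool.Agent.H312R2.Admissible H ∧
    (x : ℝ) ^ (4 / 5 : ℝ) ≤ ((Icc 1 x).filter (fun n => Pool.Agent.H312R2.Realises H n)).card)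

/-- Task C4: patterns of every diameter up to the record scale -/
theorem patterns_of (h : MTRG) (m : ℕ) (hm : 2 ≤ m) : ∃ c : ℝ, 0 < c ∧ ∃ x₀ : ℕ, ∀ x : ℕ, x₀ ≤ x → ∀ D : ℝ,
    Real.log x ≤ D → D ≤ c * ff x → c * D ^ (m - 1) ≤ (FreqD m D x).card :=
  Pool.Agent.H378R2.RGT.T3R_of h m hm

end Pool.Agent.H312R2.RG
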