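import Pool.Agent.H378R2.LSBV7

set_option autoImplicit false
set_option linter.unusedVariables false

/-! Task RG-DS: total of the large sieve errors over the Maynard moduli. -/

namespace Pool.Agent.H312R2.RG

open Finset Filter

section totals
open Pool.Agent.H378R2 Pool.Agent.H378R2.LSBV

/-- divisors of a product of coprime numbers (no condition) -/
theorem ds_sum_divisors (T : ℕ → ℝ) (W q : ℕ) (hW : 1 ≤ W) (hq : 1 ≤ q) (h : W.Coprime q) :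
    ∑ f ∈ (W * q).divisors, T f = ∑ a ∈ W.divisors, ∑ e ∈ q.divisors, T (a * e) := by
  rw [← sum_product']
  have key : ∀ f, f ∣ W * q → Nat.gcd f W * Nat.gcd f q = f := by
    intro f hf
    rw [← Nat.Coprime.gcd_mul f h]
    exact Nat.gcd_eq_left hf
  refine sum_nbij' (fun f => (Nat.gcd f W, Nat.gcd f q)) (fun p => p.1 * p.2) ?_ ?_ ?_ ?_ ?_
  · intro f hf
    rw [Nat.mem_divisors] at hf
    rw [mem_product, Nat.mem_divisors, Nat.mem_divisors]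
    exact ⟨⟨Nat.gcd_dvd_right _ _, by omega⟩, ⟨Nat.gcd_dvd_right _ _, by omega⟩⟩
  · intro p hp
    rw [mem_product, Nat.mem_divisors, Nat.mem_divisors] at hp
    rw [Nat.mem_divisors]
    exact ⟨Nat.mul_dvd_mul hp.1.1 hp.2.1, by positivity⟩
  · intro f hf
    rw [Nat.mem_divisors] at hf
    exact key f hf.1
  · intro p hp
    rw [mem_product, Nat.mem_divisors, Nat.mem_divisors] at hp
    ext
    · exact gcd_left_of_coprime h hp.1.1 hp.2.1
    · exact gcd_right_of_coprime h hp.1.1 hp.2.1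
  · intro f hf
    rw [Nat.mem_divisors] at hf
    simp only
    rw [key f hf.1]

/-- step 1: swapping the summations -/
theorem ds_swap (A : ℕ) (T : ℕ → ℝ) (hT : ∀ f, 0 ≤ T f) (W ps R : ℕ) (hW : 1 ≤ W)
    (F₂ : Finset ℕ) :
    ∑ q ∈ QQ W ps R, (q.divisors.card : ℝ) ^ A * ((1 / (Nat.totient (W * q) : ℝ)) *
        ∑ f₂ ∈ F₂.filter (fun f => f.Coprime q), (1 / (f₂ : ℝ) ^ (3 / 4 : ℝ)) *
          ∑ f ∈ (W * q).divisors, T (f * f₂)) ≤
    (1 / (Nat.totient W : ℝ)) * ((∑ e ∈ Icc 1 R, wt A e) *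
      ∑ p ∈ (F₂ ×ˢ QQ W ps R).filter (fun p => p.2.Coprime p.1),
        (wt A p.2 * (1 / (p.1 : ℝ) ^ (3 / 4 : ℝ))) *
          ∑ a ∈ W.divisors, T (a * (p.2 * p.1))) := by
  have e1 : ∀ q ∈ QQ W ps R, (q.divisors.card : ℝ) ^ A * ((1 / (Nat.totient (W * q) : ℝ)) *
        ∑ f₂ ∈ F₂.filter (fun f => f.Coprime q), (1 / (f₂ : ℝ) ^ (3 / 4 : ℝ)) *
          ∑ f ∈ (W * q).divisors, T (f * f₂)) ≤
      ∑ p ∈ (F₂ ×ˢ QQ W ps R).filter (fun p => p.2.Coprime p.1),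
        if p.2 ∣ q then (1 / (Nat.totient W : ℝ)) * (wt A q * ((1 / (p.1 : ℝ) ^ (3 / 4 : ℝ)) *
          ∑ a ∈ W.divisors, T (a * (p.2 * p.1)))) else 0 := by
    intro q hq
    have hq' := hq
    rw [mem_QQ] at hq
    obtain ⟨⟨hq1, hq2⟩, hqs, hqc⟩ := hq
    have hc : W.Coprime q := (Nat.Coprime.coprime_mul_right_right hqc).symm
    have hφ : (Nat.totient q : ℝ) ≠ 0 := by
      have := Nat.totient_pos.mpr hq1
      positivity
    have hφ' : (Nat.totient W : ℝ) ≠ 0 := by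
      have := Nat.totient_pos.mpr hW
      positivity
    have e2 : (q.divisors.card : ℝ) ^ A * ((1 / (Nat.totient (W * q) : ℝ)) *
        ∑ f₂ ∈ F₂.filter (fun f => f.Coprime q), (1 / (f₂ : ℝ) ^ (3 / 4 : ℝ)) *
          ∑ f ∈ (W * q).divisors, T (f * f₂)) =
        (1 / (Nat.totient W : ℝ)) * (wt A q *
        ∑ f₂ ∈ F₂.filter (fun f => f.Coprime q), (1 / (f₂ : ℝ) ^ (3 / 4 : ℝ)) *
          ∑ f ∈ (W * q).divisors, T (f * f₂)) := by
      rw [Nat.totient_mul hc]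
      unfold wt
      push_cast
      field_simp
    rw [e2, ← sum_filter, ← mul_sum, ← mul_sum]
    apply mul_le_mul_of_nonneg_left _ (by positivity)
    apply mul_le_mul_of_nonneg_left _ (wt_nonneg A q)
    have e3 : ∀ f₂ : ℕ, (1 / (f₂ : ℝ) ^ (3 / 4 : ℝ)) * ∑ f ∈ (W * q).divisors, T (f * f₂) =
        ∑ e ∈ q.divisors, (1 / (f₂ : ℝ) ^ (3 / 4 : ℝ)) * ∑ a ∈ W.divisors, T (a * (e * f₂)) := by
      intro f₂
      rw [ds_sum_divisors (fun f => T (f * f₂)) W q hW hq1 hc, sum_comm, mul_sum]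
      refine sum_congr rfl fun e _ => ?_
      congr 1
      refine sum_congr rfl fun a _ => ?_
      rw [mul_assoc]
    rw [sum_congr rfl fun f₂ _ => e3 f₂, ← sum_product']
    apply sum_le_sum_of_subset_of_nonneg
    · intro p hp
      rw [mem_product, mem_filter, Nat.mem_divisors] at hp
      obtain ⟨⟨h1, h2⟩, h3, h4⟩ := hp
      rw [mem_filter, mem_filter, mem_product, mem_QQ]
      refine ⟨⟨⟨h1, ⟨Nat.pos_of_dvd_of_pos h3 hq1, (Nat.le_of_dvd hq1 h3).trans hq2⟩,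
          hqs.squarefree_of_dvd h3, hqc.coprime_dvd_left h3⟩, ?_⟩, h3⟩
      exact (h2.symm.coprime_dvd_left h3)
    · intro p _ _
      exact mul_nonneg (by positivity) (sum_nonneg fun a _ => hT _)
  refine (sum_le_sum e1).trans ?_
  rw [sum_comm, mul_sum, mul_sum]
  apply sum_le_sum
  intro p hp
  rw [mem_filter, mem_product, mem_QQ] at hp
  rw [← sum_filter, ← mul_sum, ← sum_mul]
  apply mul_le_mul_of_nonneg_left _ (by positivity)
  have h2 := sum_wt_dvd A W ps R p.2 hp.1.2.1.1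
  have hnn : 0 ≤ (1 / (p.1 : ℝ) ^ (3 / 4 : ℝ)) * ∑ a ∈ W.divisors, T (a * (p.2 * p.1)) :=
    mul_nonneg (by positivity) (sum_nonneg fun a _ => hT _)
  calc _ ≤ (wt A p.2 * ∑ e ∈ Icc 1 R, wt A e) * ((1 / (p.1 : ℝ) ^ (3 / 4 : ℝ)) *
        ∑ a ∈ W.divisors, T (a * (p.2 * p.1))) :=
        mul_le_mul_of_nonneg_right h2 hnn
    _ = _ := by ring

/-- step 2: pairs with the same product -/
theorem ds_pairs (G : ℕ → ℝ) (hG : ∀ f, 0 ≤ G f) (C₂ : ℝ)
    (hdiv : ∀ n : ℕ, 1 ≤ n → (n.divisors.card : ℝ) ≤ C₂ * (n : ℝ) ^ (1 / 2 : ℝ))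
    (W ps R R' : ℕ) (F₂ : Finset ℕ)
    (hF : ∀ f ∈ F₂, 1 < f ∧ Squarefree f ∧ f.Coprime (W * ps)) (hR : ∀ f ∈ F₂, R * f ≤ R') :
    ∑ p ∈ (F₂ ×ˢ QQ W ps R).filter (fun p => p.2.Coprime p.1),
      (1 / ((p.2 * p.1 : ℕ) : ℝ) ^ (1 / 2 : ℝ)) * G (p.2 * p.1) ≤
    C₂ * ∑ f ∈ (QQ W ps R').filter (fun f => 2 ≤ f), G f := by
  have hmaps : ∀ p ∈ (F₂ ×ˢ QQ W ps R).filter (fun p => p.2.Coprime p.1),
      p.2 * p.1 ∈ (QQ W ps R').filter (fun f => 2 ≤ f) := by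
    intro p hp
    rw [mem_filter, mem_product, mem_QQ] at hp
    obtain ⟨⟨h1, ⟨h2, h3⟩, h4, h5⟩, h6⟩ := hp
    obtain ⟨g1, g2, g3⟩ := hF p.1 h1
    rw [mem_filter, mem_QQ]
    have h7 : 1 * 2 ≤ p.2 * p.1 := Nat.mul_le_mul h2 g1
    refine ⟨⟨⟨by omega, ?_⟩, ?_, ?_⟩, by omega⟩
    · exact (Nat.mul_le_mul_right _ h3).trans (hR p.1 h1)
    · exact (Nat.squarefree_mul h6).2 ⟨h4, g2⟩
    · exact Nat.Coprime.mul_left h5 g3
  rw [← sum_fiberwise_of_maps_to hmaps, mul_sum]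
  apply sum_le_sum
  intro f hf
  rw [mem_filter, mem_QQ] at hf
  have hf1 : 1 ≤ f := hf.1.1.1
  have hf0 : (0 : ℝ) < f := by exact_mod_cast hf1
  have e1 : ∀ p ∈ ((F₂ ×ˢ QQ W ps R).filter (fun p => p.2.Coprime p.1)).filter
      (fun p => p.2 * p.1 = f), (1 / ((p.2 * p.1 : ℕ) : ℝ) ^ (1 / 2 : ℝ)) * G (p.2 * p.1) =
      (1 / (f : ℝ) ^ (1 / 2 : ℝ)) * G f := by
    intro p hp
    rw [mem_filter] at hp
    rw [hp.2]
  rw [sum_congr rfl e1, sum_const, nsmul_eq_mul]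
  have hcard : (((F₂ ×ˢ QQ W ps R).filter (fun p => p.2.Coprime p.1)).filter
      (fun p => p.2 * p.1 = f)).card ≤ f.divisors.card := by
    apply card_le_card_of_injOn (fun p => p.2)
    · intro p hp
      rw [mem_coe, mem_filter] at hp
      rw [mem_coe, Nat.mem_divisors]
      exact ⟨⟨p.1, hp.2.symm⟩, by omega⟩
    · intro p hp p' hp' h
      rw [mem_coe, mem_filter] at hp hp'
      simp only at h
      have h2 : 0 < p.2 := by
        rcases Nat.eq_zero_or_pos p.2 with h0 | h0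
        · rw [h0, zero_mul] at hp
          omega
        · exact h0
      have h3 : p.2 * p.1 = p.2 * p'.1 := by
        rw [hp.2, h, hp'.2]
      exact Prod.ext (Nat.eq_of_mul_eq_mul_left h2 h3) h
  have hc2 : ((((F₂ ×ˢ QQ W ps R).filter (fun p => p.2.Coprime p.1)).filter
      (fun p => p.2 * p.1 = f)).card : ℝ) ≤ C₂ * (f : ℝ) ^ (1 / 2 : ℝ) :=
    le_trans (by exact_mod_cast hcard) (hdiv f hf1)
  have hpos : (0 : ℝ) < (f : ℝ) ^ (1 / 2 : ℝ) := Real.rpow_pos_of_pos hf0 _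
  calc _ ≤ (C₂ * (f : ℝ) ^ (1 / 2 : ℝ)) * ((1 / (f : ℝ) ^ (1 / 2 : ℝ)) * G f) :=
        mul_le_mul_of_nonneg_right hc2 (mul_nonneg (by positivity) (hG f))
    _ = C₂ * G f := by field_simp

theorem large_total (A : ℕ) : ∃ C X0 : ℝ, 0 < C ∧ ∀ X : ℝ, X0 ≤ X → ∀ (Z ps : ℕ) (S : Finset ℕ),
    GoodP Z ps → ∀ (y₁ : ℝ) (F₂ : Finset ℕ), 1 ≤ y₁ →
    (∀ f ∈ F₂, 1 < f ∧ y₁ ≤ (f : ℝ) ∧ (f : ℝ) ≤ X ^ (1 / 200 : ℝ) ∧ Squarefree f ∧
      f.Coprime (WW X S ps * ps)) →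
    ∑ q ∈ QQ (WW X S ps) ps ⌊X ^ (1 / 100 : ℝ)⌋₊, (q.divisors.card : ℝ) ^ A *
      ((1 / (Nat.totient (WW X S ps * q) : ℝ)) *
        ∑ f₂ ∈ F₂.filter (fun f => f.Coprime q), (1 / (f₂ : ℝ) ^ (3 / 4 : ℝ)) *
          ∑ f ∈ (WW X S ps * q).divisors, TT X (f * f₂)) ≤
      X / (Nat.totient (WW X S ps) : ℝ) * (C * (Real.log X) ^ (2 ^ (A + 1) + 8) / y₁ ^ (1 / 4 : ℝ)) := by
  obtain ⟨C0, X1, hls⟩ := ls_sum
  obtain ⟨C5, hC5, hwt⟩ := wt_le A
  obtain ⟨C2, hC2, hdiv⟩ := Pool.Agent.Helper112.divisor_bound (1 / 2) (by norm_num)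
  set C1 := max C0 1 with hC1
  have hC1p : 1 ≤ C1 := le_max_right _ _
  refine ⟨2 ^ (2 ^ (A + 1)) * (C5 * (C2 * C1)), max X1 4, by positivity,
    fun X hX Z ps S hP y₁ F₂ hy hF => ?_⟩
  have hX4 : 4 ≤ X := le_trans (le_max_right _ _) hX
  have hXX1 : X1 ≤ X := le_trans (le_max_left _ _) hX
  have hX0 : 0 < X := by linarith
  have hX1 : 1 ≤ X := by linarith
  have hL1 : 1 ≤ Real.log X := by
    rw [Real.le_log_iff_exp_le hX0]
    have := Real.exp_one_lt_d9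
    linarith
  set L := Real.log X with hL
  set W := WW X S ps with hWdef
  have hW : 1 ≤ W := WW_pos X S ps
  set R := ⌊X ^ (1 / 100 : ℝ)⌋₊ with hR
  set R' := ⌊X ^ (3 / 200 : ℝ)⌋₊ with hR'
  set F := ⌊X ^ (1 / 50 : ℝ)⌋₊ with hFdef
  have hRle : (R : ℝ) ≤ X ^ (1 / 100 : ℝ) := Nat.floor_le (by positivity)
  have hR'le : (R' : ℝ) ≤ X ^ (3 / 200 : ℝ) := Nat.floor_le (by positivity)
  have hy0 : 0 < y₁ := by linarith
  refine (ds_swap A (TT X) (TT_nonneg X) W ps R hW F₂).trans ?_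
  -- the sum of the weights
  have hWS : ∑ e ∈ Icc 1 R, wt A e ≤ (2 * L) ^ (2 ^ (A + 1)) := by
    refine (sum_wt A R).trans ?_
    have hlogR : Real.log R ≤ L := by
      rcases Nat.eq_zero_or_pos R with h0 | h0
      · rw [h0, Nat.cast_zero, Real.log_zero]
        linarith
      · apply Real.log_le_log (by exact_mod_cast h0)
        refine hRle.trans ?_
        calc X ^ (1 / 100 : ℝ) ≤ X ^ (1 : ℝ) := Real.rpow_le_rpow_of_exponent_le hX1 (by norm_num)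
          _ = X := Real.rpow_one X
    have hlogR0 : 0 ≤ Real.log R := Real.log_natCast_nonneg R
    exact pow_le_pow_left₀ (by linarith) (by linarith) _
  -- the weights of the pairs
  set G : ℕ → ℝ := fun f => ∑ a ∈ W.divisors, TT X (a * f) with hGdef
  have hG : ∀ f, 0 ≤ G f := fun f => sum_nonneg fun a _ => TT_nonneg X _
  have hpairs : ∑ p ∈ (F₂ ×ˢ QQ W ps R).filter (fun p => p.2.Coprime p.1),
        (wt A p.2 * (1 / (p.1 : ℝ) ^ (3 / 4 : ℝ))) * G (p.2 * p.1) ≤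
      (C5 / y₁ ^ (1 / 4 : ℝ)) * ∑ p ∈ (F₂ ×ˢ QQ W ps R).filter (fun p => p.2.Coprime p.1),
        (1 / ((p.2 * p.1 : ℕ) : ℝ) ^ (1 / 2 : ℝ)) * G (p.2 * p.1) := by
    rw [mul_sum]
    apply sum_le_sum
    intro p hp
    rw [mem_filter, mem_product, mem_QQ] at hp
    obtain ⟨⟨h1, ⟨h2, h3⟩, h4, h5⟩, h6⟩ := hp
    obtain ⟨g1, g2, g3, g4, g5⟩ := hF p.1 h1
    rw [← mul_assoc]
    apply mul_le_mul_of_nonneg_right _ (hG _)
    have hp1 : (0 : ℝ) < p.1 := by linarith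
    have hp2 : (0 : ℝ) < p.2 := by exact_mod_cast h2
    have k1 := hwt p.2 h2
    have k2 : 1 / (p.1 : ℝ) ^ (3 / 4 : ℝ) ≤
        (1 / y₁ ^ (1 / 4 : ℝ)) * (1 / (p.1 : ℝ) ^ (1 / 2 : ℝ)) := by
      have k3 : (p.1 : ℝ) ^ (3 / 4 : ℝ) = (p.1 : ℝ) ^ (1 / 4 : ℝ) * (p.1 : ℝ) ^ (1 / 2 : ℝ) := by
        rw [← Real.rpow_add hp1]
        norm_num
      rw [k3, ← one_div_mul_one_div]
      apply mul_le_mul_of_nonneg_right _ (by positivity)
      apply one_div_le_one_div_of_le (by positivity)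
      exact Real.rpow_le_rpow hy0.le g2 (by norm_num)
    calc wt A p.2 * (1 / (p.1 : ℝ) ^ (3 / 4 : ℝ)) ≤
        (C5 / Real.sqrt p.2) * ((1 / y₁ ^ (1 / 4 : ℝ)) * (1 / (p.1 : ℝ) ^ (1 / 2 : ℝ))) :=
          mul_le_mul k1 k2 (by positivity) (by positivity)
      _ = _ := by
          rw [Real.sqrt_eq_rpow]
          push_cast
          rw [Real.mul_rpow hp2.le hp1.le]
          field_simp
  have hpr := ds_pairs G hG C2 hdiv W ps R R' F₂ (fun f hf => ⟨(hF f hf).1, (hF f hf).2.2.2.1,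
    (hF f hf).2.2.2.2⟩) (fun f hf => by
      apply Nat.le_floor
      push_cast
      calc (R : ℝ) * f ≤ X ^ (1 / 100 : ℝ) * X ^ (1 / 200 : ℝ) :=
            mul_le_mul hRle (hF f hf).2.2.1 (by positivity) (by positivity)
        _ = X ^ (3 / 200 : ℝ) := by
            rw [← Real.rpow_add hX0]
            norm_num)
  -- the large sieve
  have hWle : W ≤ primorial (yy X) := Nat.le_of_dvd (primorial_pos _) (WW_dvd_primorial X S ps)
  have hVR : ((primorial (yy X) * R' : ℕ) : ℝ) ≤ X ^ (1 / 50 : ℝ) := by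
    push_cast
    calc (primorial (yy X) : ℝ) * R' ≤ X ^ (1 / 500 : ℝ) * X ^ (3 / 200 : ℝ) :=
          mul_le_mul (primorial_yy_le X hX1) hR'le (by positivity) (by positivity)
      _ = X ^ (1 / 500 + 3 / 200 : ℝ) := by rw [Real.rpow_add hX0]
      _ ≤ _ := Real.rpow_le_rpow_of_exponent_le hX1 (by norm_num)
  have hFle : primorial (yy X) * R' ≤ F := Nat.le_floor hVR
  have hlast : ∑ f ∈ (QQ W ps R').filter (fun f => 2 ≤ f), G f ≤ C1 * X * L ^ 8 := by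
    have h1 : ∑ f ∈ (QQ W ps R').filter (fun f => 2 ≤ f), G f =
        ∑ p ∈ W.divisors ×ˢ (QQ W ps R').filter (fun f => 2 ≤ f), TT X (p.1 * p.2) := by
      simp only [hGdef]
      rw [sum_comm]
      exact (sum_product' W.divisors ((QQ W ps R').filter (fun f => 2 ≤ f))
        (fun a f => TT X (a * f))).symm
    rw [h1]
    have h2 : ∑ p ∈ W.divisors ×ˢ (QQ W ps R').filter (fun f => 2 ≤ f), TT X (p.1 * p.2) ≤
        ∑ f ∈ Icc 2 F, TT X f := by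
      apply pair_inj (TT X) (TT_nonneg X) W ps R'
      · exact product_subset_product_right (filter_subset _ _)
      · intro p hp
        rw [mem_product, mem_filter, Nat.mem_divisors, mem_QQ] at hp
        obtain ⟨⟨h3, h4⟩, ⟨⟨h5, h6⟩, _⟩, h7⟩ := hp
        rw [mem_Icc]
        have h8 : 1 ≤ p.1 := Nat.pos_of_dvd_of_pos h3 hW
        have h9 : p.1 ≤ W := Nat.le_of_dvd hW h3
        constructor
        · calc 2 = 1 * 2 := rfl
            _ ≤ p.1 * p.2 := Nat.mul_le_mul h8 h7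
        · exact (Nat.mul_le_mul (h9.trans hWle) h6).trans hFle
    refine h2.trans ?_
    have h3 : ∑ f ∈ Icc 2 F, TT X f ≤ C0 * X * L ^ 8 := hls X hXX1
    refine h3.trans ?_
    have : C0 ≤ C1 := le_max_left _ _
    gcongr
  have hφ : (0 : ℝ) < Nat.totient W := by exact_mod_cast Nat.totient_pos.mpr hW
  have hpnn : 0 ≤ ∑ p ∈ (F₂ ×ˢ QQ W ps R).filter (fun p => p.2.Coprime p.1),
        (wt A p.2 * (1 / (p.1 : ℝ) ^ (3 / 4 : ℝ))) * G (p.2 * p.1) :=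
    sum_nonneg fun p _ => mul_nonneg (mul_nonneg (wt_nonneg _ _) (by positivity)) (hG _)
  have hmain : ∑ p ∈ (F₂ ×ˢ QQ W ps R).filter (fun p => p.2.Coprime p.1),
        (wt A p.2 * (1 / (p.1 : ℝ) ^ (3 / 4 : ℝ))) * G (p.2 * p.1) ≤
      (C5 / y₁ ^ (1 / 4 : ℝ)) * (C2 * (C1 * X * L ^ 8)) := by
    refine hpairs.trans ?_
    apply mul_le_mul_of_nonneg_left _ (by positivity)
    refine hpr.trans ?_
    exact mul_le_mul_of_nonneg_left hlast hC2.le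
  calc (1 / (Nat.totient W : ℝ)) * ((∑ e ∈ Icc 1 R, wt A e) *
      ∑ p ∈ (F₂ ×ˢ QQ W ps R).filter (fun p => p.2.Coprime p.1),
        (wt A p.2 * (1 / (p.1 : ℝ) ^ (3 / 4 : ℝ))) * G (p.2 * p.1))
      ≤ (1 / (Nat.totient W : ℝ)) * ((2 * L) ^ (2 ^ (A + 1)) *
        ((C5 / y₁ ^ (1 / 4 : ℝ)) * (C2 * (C1 * X * L ^ 8)))) := by
        apply mul_le_mul_of_nonneg_left _ (by positivity)
        exact mul_le_mul hWS hmain hpnn (by positivity)
    _ = _ := by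
        rw [mul_pow, pow_add]
        field_simp
        ring

end totals

end Pool.Agent.H312R2.RG
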