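import Pool.Agent.H312R2.RG.Defs
import Pool.Agent.H256R2.SC.S
import Pool.Agent.H256R2.SC.L
import Pool.Agent.Helper256.KM.Mertens

set_option autoImplicit false

/-! # Task E: the parameters of the repelling weights (helper777) -/

namespace Pool.Agent.H312R2.RG

open Finset Filter
open Pool.Agent.H256R2.SC

/-- largeness conditions -/
theorem ev_par (A B : ℕ) (C₀ CM : ℝ) (hC₀ : 1 ≤ C₀) : ∀ᶠ L : ℝ in atTop,
    1000 ≤ L ∧ 10 ≤ Real.log L ∧ 2 * CM ≤ Real.log L ∧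
    C₀ * A * Real.log L ≤ L ^ (1 / 4 : ℝ) ∧
    1000 * (4 * ((B : ℝ) + 60) * Real.log L + 4) ≤ Real.sqrt L ∧
    6 * Real.exp 1 * L ^ (B + 1) ≤ Real.exp (Real.sqrt L / 2000) := by
  have hlog : ∀ (c r : ℝ), 0 ≤ c → 0 < r → ∀ᶠ L : ℝ in atTop, c * Real.log L ≤ L ^ r := by
    intro c r hc hr
    have e1 := (isLittleO_log_rpow_atTop hr).def (show (0:ℝ) < 1 / (c + 1) by positivity)
    filter_upwards [e1, eventually_ge_atTop (1:ℝ)] with L hL hL1
    have hl0 : 0 ≤ Real.log L := Real.log_nonneg hL1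
    rw [Real.norm_eq_abs, Real.norm_eq_abs, abs_of_nonneg hl0,
      abs_of_nonneg (Real.rpow_nonneg (by linarith) _), div_mul_eq_mul_div, one_mul,
      le_div_iff₀ (by positivity)] at hL
    nlinarith
  have h6 : ∀ᶠ L : ℝ in atTop, 6 * Real.exp 1 * L ^ (B + 1) ≤ Real.exp (Real.sqrt L / 2000) := by
    have e1 := (isLittleO_pow_exp_pos_mul_atTop (k := 2 * (B + 1))
      (show (0:ℝ) < 1 / 2000 by norm_num)).def (show (0:ℝ) < 1 / (6 * Real.exp 1) by positivity)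
    have e2 : Tendsto Real.sqrt atTop atTop := Real.tendsto_sqrt_atTop
    filter_upwards [e2.eventually e1, eventually_ge_atTop (1:ℝ)] with L hL hL1
    have hs : 0 ≤ Real.sqrt L := Real.sqrt_nonneg L
    rw [Real.norm_eq_abs, Real.norm_eq_abs, abs_of_nonneg (by positivity),
      abs_of_nonneg (Real.exp_pos _).le, pow_mul, Real.sq_sqrt (by linarith), div_mul_eq_mul_div,
      one_mul, le_div_iff₀ (by positivity)] at hL
    rw [show Real.sqrt L / 2000 = 1 / 2000 * Real.sqrt L by ring]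
    linarith
  filter_upwards [eventually_ge_atTop (1000:ℝ),
    Real.tendsto_log_atTop.eventually (eventually_ge_atTop 10),
    Real.tendsto_log_atTop.eventually (eventually_ge_atTop (2 * CM)),
    hlog (C₀ * A) (1 / 4) (by positivity) (by norm_num),
    hlog (1000 * (4 * ((B : ℝ) + 60) + 4)) (1 / 2) (by positivity) (by norm_num), h6]
    with L e1 e2 e3 e4 e5 e6
  refine ⟨e1, e2, e3, e4, ?_, e6⟩
  rw [Real.sqrt_eq_rpow]
  nlinarith

/-- the cost of the sieving primes: `∏ p ≤ exp (L / 1000)` forces few primes -/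
theorem card_of_prod {n : ℕ} (p : Fin n → ℝ) (S : Finset (Fin n)) (L : ℝ)
    (hp : ∀ i, Real.exp 1 ≤ p i) (h : ∏ i ∈ S, p i ≤ Real.exp (L / 1000)) :
    (S.card : ℝ) ≤ L / 1000 := by
  have h1 : Real.exp S.card ≤ ∏ i ∈ S, p i := by
    rw [show ((S.card : ℕ) : ℝ) = ∑ _i ∈ S, (1 : ℝ) by simp, Real.exp_sum]
    exact Finset.prod_le_prod (fun _ _ => (Real.exp_pos _).le) fun i _ => hp i
  exact Real.exp_le_exp.1 (h1.trans h)

/-- tail of the sum of the inverse squares -/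
theorem sum_sq_tail (y : ℝ) (hy : 2 ≤ y) (PP : Finset ℕ) (hP : ∀ p ∈ PP, y < (p : ℝ)) :
    ∑ p ∈ PP, (1 / (p : ℝ)) ^ 2 ≤ 2 / y := by
  -- 1/p^2 ≤ 1/(p-1) - 1/p
  have h0 : ∀ M N : ℕ, 1 ≤ M → M ≤ N →
      ∑ p ∈ Finset.Ioc M N, (1 / (p : ℝ)) ^ 2 ≤ 1 / (M : ℝ) - 1 / (N : ℝ) := by
    intro M N hM hMN
    induction N, hMN using Nat.le_induction with
    | base => simp
    | succ N hMN ih =>
      rw [← Finset.insert_Ioc_right_eq_Ioc_add_one (by omega), Finset.sum_insert (by simp)]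
      have hN : (1:ℝ) ≤ N := by exact_mod_cast hM.trans hMN
      have : (1 / ((N + 1 : ℕ) : ℝ)) ^ 2 ≤ 1 / (N : ℝ) - 1 / ((N + 1 : ℕ) : ℝ) := by
        push_cast
        rw [div_sub_div _ _ (by positivity) (by positivity), div_pow, one_pow,
          div_le_div_iff₀ (by positivity) (by positivity)]
        nlinarith
      linarith
  set M : ℕ := ⌊y⌋₊ with hM
  have hM1 : 1 ≤ M := Nat.le_floor (by push_cast; linarith)
  obtain ⟨N, hMN, hN⟩ : ∃ N, M ≤ N ∧ PP ⊆ Finset.Ioc M N := by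
    refine ⟨M + PP.sup id, by omega, fun p hp => ?_⟩
    rw [Finset.mem_Ioc]
    constructor
    · exact (Nat.floor_lt (by linarith)).2 (hP p hp)
    · exact (Finset.le_sup (f := id) hp).trans (by omega)
  have h1 : ∑ p ∈ PP, (1 / (p : ℝ)) ^ 2 ≤ ∑ p ∈ Finset.Ioc M N, (1 / (p : ℝ)) ^ 2 :=
    Finset.sum_le_sum_of_subset_of_nonneg hN fun _ _ _ => by positivity
  have h2 := h0 M N hM1 hMN
  have h3 : (0:ℝ) ≤ 1 / (N : ℝ) := by positivity
  have h4 : y / 2 ≤ M := by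
    have := Nat.lt_floor_add_one y
    rw [← hM] at this
    have h5 : (1:ℝ) ≤ M := by exact_mod_cast hM1
    linarith
  have h6 : 1 / (M : ℝ) ≤ 2 / y := by
    rw [div_le_div_iff₀ (by positivity) (by positivity)]
    linarith
  linarith

/-- sums over the enumeration -/
theorem sum_emb (PP : Finset ℕ) (F : ℕ → ℝ) : ∑ i, F (emb PP i) = ∑ p ∈ PP, F p := by
  have h : PP = univ.map (emb PP) := by
    ext p
    rw [Finset.mem_map]
    constructor
    · intro hp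
      obtain ⟨i, hi⟩ := emb_surj PP hp
      exact ⟨i, Finset.mem_univ _, hi⟩
    · rintro ⟨i, _, rfl⟩
      exact emb_mem PP i
  conv_rhs => rw [h]
  rw [Finset.sum_map]

open Classical in
/-- lower bound for the sums over the scales -/
theorem Asum_ge (c₂ C₀ A l y₁ z x : ℝ) (PP : Finset ℕ) (B : Finset ℕ) (hPP : PP = PS y₁ z B)
    (hAl : c₂ * Real.log x / Real.log y₁ - 1 ≤
      ∑ s ∈ ((PS y₁ z B).powerset.filter (fun s : Finset ℕ => s.Nonempty ∧ ∏ p ∈ s, (p : ℝ) ≤ x)),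
        ∏ p ∈ s, 1 / (p : ℝ)) (j : ℕ) (hx : Real.log x = 2 ^ j * (C₀ * A * l))
    (hy : Real.log y₁ = A * l) (hA : 0 < A) (hl : 0 < l) (hc : 0 < c₂) (hcC : 4 ≤ c₂ * C₀) :
    1 ≤ Asum (pP PP) (gP PP) x ∧
      c₂ / (2 * A * l) * (2 ^ j * (C₀ * A * l)) ≤ Asum (pP PP) (gP PP) x := by
  have h1 : Asum (pP PP) (gP PP) x = ∑ s ∈ (PP.powerset.filter
      (fun s : Finset ℕ => s.Nonempty ∧ ∏ p ∈ s, (p : ℝ) ≤ x)), ∏ p ∈ s, 1 / (p : ℝ) :=
    Asum_enum PP x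
  rw [← hPP, ← h1, hx, hy] at hAl
  have h2 : c₂ * (2 ^ j * (C₀ * A * l)) / (A * l) = c₂ * C₀ * 2 ^ j := by
    field_simp
  have h3 : c₂ / (2 * A * l) * (2 ^ j * (C₀ * A * l)) = c₂ * C₀ * 2 ^ j / 2 := by
    field_simp
  have h4 : (1:ℝ) ≤ 2 ^ j := one_le_pow₀ (by norm_num)
  have h5 : 4 ≤ c₂ * C₀ * 2 ^ j := by nlinarith
  rw [h2] at hAl
  rw [h3]
  constructor <;> linarith

theorem fin1 (L : ℝ) (A B : ℕ) (hA : B + 4 ≤ A) (h1000 : 1000 ≤ L) :
    (2 / L ^ (A - 1)) ^ 2 ≤ 1 / (6 * L ^ (B + 1)) := by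
  have hL : 0 < L := by linarith
  rw [div_pow, ← pow_mul, div_le_div_iff₀ (by positivity) (by positivity)]
  have h1 : L ^ (B + 6) ≤ L ^ ((A - 1) * 2) := pow_le_pow_right₀ (by linarith) (by omega)
  have h2 : L ^ (B + 6) = L ^ (B + 1) * L ^ 5 := by rw [← pow_add]
  have h3 : 1000 ≤ L ^ 5 := by
    calc (1000:ℝ) ≤ L := h1000
      _ = L ^ 1 := (pow_one L).symm
      _ ≤ L ^ 5 := pow_le_pow_right₀ (by linarith) (by norm_num)
  have h4 : 0 < L ^ (B + 1) := by positivity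
  nlinarith

theorem fin2 (L lz c₂ Kc A u lq : ℝ) (B : ℕ) (hu : 1 ≤ u) (h1000 : 1000 ≤ L)
    (hlz1 : 1 ≤ lz) (hlzs : lz ≤ Real.sqrt L) (hc₂ : 0 < c₂) (hKcle : Kc ≤ 32 * A / c₂)
    (huc : u * (128000 * A) ≤ c₂ * L)
    (hexp : 6 * Real.exp 1 * L ^ (B + 1) ≤ Real.exp (Real.sqrt L / 2000))
    (hlq : lq = L / 1000 - lz) :
    Real.exp (2 * u * Kc / lz - lq / lz) ≤ 1 / (6 * L ^ (B + 1)) := by
  have hL : 0 < L := by linarith
  have hsqrt : Real.sqrt L * Real.sqrt L = L := Real.mul_self_sqrt hL.le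
  have h1 : 2 * u * Kc / lz - lq / lz ≤ 1 - Real.sqrt L / 2000 := by
    rw [hlq, ← sub_div, div_le_iff₀ (by linarith)]
    have h2 : 2 * u * Kc ≤ L / 2000 := by
      have h3 : 2 * u * Kc ≤ 2 * u * (32 * A / c₂) :=
        mul_le_mul_of_nonneg_left hKcle (by positivity)
      have h4 : 2 * u * (32 * A / c₂) ≤ L / 2000 := by
        rw [mul_div_assoc', div_le_div_iff₀ hc₂ (by norm_num)]
        linarith
      linarith
    have h5 : Real.sqrt L / 2000 * lz ≤ L / 2000 := by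
      have : Real.sqrt L / 2000 * lz ≤ Real.sqrt L / 2000 * Real.sqrt L :=
        mul_le_mul_of_nonneg_left hlzs (by positivity)
      rw [div_mul_eq_mul_div (Real.sqrt L) 2000 (Real.sqrt L), hsqrt] at this
      exact this
    linarith
  refine (Real.exp_le_exp.2 h1).trans ?_
  rw [Real.exp_sub, div_le_div_iff₀ (Real.exp_pos _) (by positivity)]
  linarith

theorem fin3 (L l S : ℝ) (B J₀ J : ℕ) (hLl : L = Real.exp l) (h1000 : 1000 ≤ L) (hl : 0 < l)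
    (hS : S ≤ l) (hJ1 : ((B : ℝ) + 60) * l ≤ J₀) (hJ : (J : ℝ) = 2 * J₀) :
    (1 / 8 : ℝ) ^ J * Real.exp (50 * S) ≤ 1 / (6 * L ^ (B + 1)) := by
  have hL : 0 < L := by linarith
  have h1 : Real.exp (50 * S) ≤ Real.exp (50 * l) := Real.exp_le_exp.2 (by linarith)
  have h2 : (1 / 8 : ℝ) ^ J ≤ Real.exp (-(2 * (B + 60) * l)) := by
    have h3 : (1 / 8 : ℝ) ≤ Real.exp (-1) := by
      rw [Real.exp_neg, ← one_div]
      apply one_div_le_one_div_of_le (Real.exp_pos _)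
      have : Real.exp 1 < 2.7182818286 := Real.exp_one_lt_d9
      linarith
    calc (1 / 8 : ℝ) ^ J ≤ (Real.exp (-1)) ^ J := pow_le_pow_left₀ (by norm_num) h3 _
      _ = Real.exp (-(J : ℝ)) := by rw [← Real.exp_nat_mul]; congr 1; ring
      _ ≤ _ := by
        apply Real.exp_le_exp.2
        rw [hJ]
        linarith
  have h4 : (1 / 8 : ℝ) ^ J * Real.exp (50 * S) ≤
      Real.exp (-(2 * (B + 60) * l)) * Real.exp (50 * l) :=
    mul_le_mul h2 h1 (Real.exp_pos _).le (Real.exp_pos _).le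
  refine h4.trans ?_
  rw [← Real.exp_add]
  have h5 : Real.exp (-(2 * (B + 60) * l) + 50 * l) ≤ Real.exp (-(((B + 2 : ℕ) : ℝ) * l)) := by
    apply Real.exp_le_exp.2
    push_cast
    have : 0 ≤ (B : ℝ) * l := by positivity
    linarith
  refine h5.trans ?_
  rw [Real.exp_neg, Real.exp_nat_mul, ← hLl, ← one_div]
  apply one_div_le_one_div_of_le (by positivity)
  have h6 : L ^ (B + 2) = L ^ (B + 1) * L := pow_succ _ _
  have h7 : 0 < L ^ (B + 1) := by positivity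
  rw [h6]
  nlinarith

theorem fin_all (L l lz c₂ Kc S A u lq : ℝ) (An B J₀ J : ℕ) (hA : B + 4 ≤ An) (hu : 1 ≤ u)
    (hLl : L = Real.exp l) (h1000 : 1000 ≤ L) (hl : 10 ≤ l)
    (hlz1 : 1 ≤ lz) (hlzs : lz ≤ Real.sqrt L) (hc₂ : 0 < c₂)
    (hKcle : Kc ≤ 32 * A / c₂)
    (huc : u * (128000 * A) ≤ c₂ * L) (hS : S ≤ l) (hJ1 : ((B : ℝ) + 60) * l ≤ J₀)
    (hJ : (J : ℝ) = 2 * J₀) (huL : u ≤ L)
    (hexp : 6 * Real.exp 1 * L ^ (B + 1) ≤ Real.exp (Real.sqrt L / 2000))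
    (hlq : lq = L / 1000 - lz) :
    (u + 1) * ((2 / L ^ (An - 1)) ^ 2 + Real.exp (2 * u * Kc / lz - lq / lz) +
      (1 / 8) ^ J * Real.exp (50 * S)) ≤ 1 / L ^ B := by
  have hL : 0 < L := by linarith
  have p1 := fin1 L An B hA h1000
  have p2 := fin2 L lz c₂ Kc A u lq B hu h1000 hlz1 hlzs hc₂ hKcle huc hexp hlq
  have p3 := fin3 L l S B J₀ J hLl h1000 (by linarith) hS hJ1 hJ
  have p4 : (2 / L ^ (An - 1)) ^ 2 + Real.exp (2 * u * Kc / lz - lq / lz) +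
      (1 / 8) ^ J * Real.exp (50 * S) ≤ 1 / (2 * L ^ (B + 1)) := by
    have : 1 / (2 * L ^ (B + 1)) = 3 * (1 / (6 * L ^ (B + 1))) := by
      field_simp
      norm_num
    rw [this]
    linarith
  calc _ ≤ (2 * L) * (1 / (2 * L ^ (B + 1))) :=
        mul_le_mul (by linarith) p4 (by positivity) (by positivity)
    _ = 1 / L ^ B := by
      rw [pow_succ]
      field_simp

/-- Task E: the parameters -/
theorem params (A B : ℕ) (hA : B + 4 ≤ A) : ∃ c₃ : ℝ, 0 < c₃ ∧ ∀ᶠ X : ℝ in atTop, ∀ (ps : ℕ) (u : ℕ), 1 ≤ u →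
    (u : ℝ) ≤ c₃ * Real.log X →
    ∃ (PP : Finset ℕ) (h : Finset (Fin PP.card) → ℝ) (z Kc δ : ℝ) (J : ℕ),
      (∀ p ∈ PP, p.Prime ∧ (Real.log X) ^ A < p ∧ (p : ℝ) ≤ z ∧ p ≠ ps) ∧
      Hyp (pP PP) (gP PP) h z Kc ∧ Even J ∧ z ≤ X ^ (1 / 1000 : ℝ) ∧
      z ^ J ≤ X ^ (1 / 1000 : ℝ) ∧ ((PP.card : ℝ) + 1) ^ J ≤ X ^ (1 / 1000 : ℝ) ∧
      ∑ i, gP PP i ≤ Real.log (Real.log X) ∧ 4 * (u : ℝ) * ∑ i, (gP PP i) ^ 2 ≤ 1 / 4 ∧
      δ ≤ 2 / (Real.log X) ^ (A - 1) ∧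
      (∀ (κ : Type) [Fintype κ] [DecidableEq κ], ∀ D : Col PP.card κ, qq (pP PP) D ≤ X ^ (1 / 1000 : ℝ) →
        2 * ∑ i with D i ≠ none, gP PP i ≤ δ) ∧
      ((u : ℝ) + 1) * (δ ^ 2 + Real.exp (2 * (u : ℝ) * Kc / Real.log z -
        Real.log (X ^ (1 / 1000 : ℝ) / z) / Real.log z) +
        (1 / 8) ^ J * Real.exp (50 * ∑ i, gP PP i)) ≤ 1 / (Real.log X) ^ B := by
  obtain ⟨c₂, hc₂, hAl⟩ := A_lower
  obtain ⟨CM, hCM⟩ := Pool.Agent.Helper256.KM.mertens_inv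
  have hA4 : (4:ℝ) ≤ A := by exact_mod_cast (by omega : 4 ≤ A)
  set C₀ : ℝ := max 1 (4 / c₂) with hC₀
  have hC₀1 : 1 ≤ C₀ := le_max_left _ _
  have hcC : 4 ≤ c₂ * C₀ := by
    have : 4 / c₂ ≤ C₀ := le_max_right _ _
    rw [div_le_iff₀ hc₂] at this
    linarith
  refine ⟨min 1 (c₂ / (128000 * A)), by positivity, ?_⟩
  filter_upwards [Real.tendsto_log_atTop.eventually (ev_par A B C₀ CM hC₀1),
    eventually_ge_atTop (1:ℝ)] with X hX hX1 ps u hu1 hu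
  set L := Real.log X with hL
  set l := Real.log L with hl
  obtain ⟨h1000, hl10, hCMl, hq4, hJb, hexp⟩ := hX
  have hL0 : 0 < L := by linarith
  have hl0 : 0 < l := by linarith
  have hX0 : 0 < X := by linarith
  have hLl : L = Real.exp l := (Real.exp_log hL0).symm
  have huL : (u : ℝ) ≤ L := by
    refine hu.trans ?_
    have : min 1 (c₂ / (128000 * A)) * L ≤ 1 * L :=
      mul_le_mul_of_nonneg_right (min_le_left _ _) hL0.le
    linarith
  have huc : (u : ℝ) * (128000 * A) ≤ c₂ * L := by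
    have h1 : min 1 (c₂ / (128000 * A)) * L ≤ c₂ / (128000 * A) * L :=
      mul_le_mul_of_nonneg_right (min_le_right _ _) hL0.le
    have h2 := hu.trans h1
    rw [div_mul_eq_mul_div, le_div_iff₀ (by positivity)] at h2
    exact h2
  -- the scales
  set m : ℕ := ⌊l / 4⌋₊ with hm
  have hm1 : l / 4 ≤ (m : ℝ) + 1 := (Nat.lt_floor_add_one _).le
  have hm2 : (m : ℝ) ≤ l / 4 := Nat.floor_le (by positivity)
  set z₀ : ℝ := Real.exp (C₀ * A * l) with hz₀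
  have hlz₀ : Real.log z₀ = C₀ * A * l := Real.log_exp _
  have hCAl : 1 ≤ C₀ * A * l := by
    have h1 : (4:ℝ) ≤ C₀ * A := hA4.trans (le_mul_of_one_le_left (by linarith) hC₀1)
    have h2 : (4:ℝ) * 10 ≤ C₀ * A * l := mul_le_mul h1 hl10 (by norm_num) (by linarith)
    linarith
  have hz₀1 : 1 < z₀ := by
    rw [hz₀, Real.one_lt_exp_iff]
    linarith
  set z : ℝ := z₀ ^ (2 ^ (m + 1 - 1)) with hz
  have hlzj : ∀ j : ℕ, Real.log (z₀ ^ (2 ^ j)) = 2 ^ j * (C₀ * A * l) := by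
    intro j
    rw [Real.log_pow, hlz₀]
    push_cast
    ring
  have hlz : Real.log z = 2 ^ m * (C₀ * A * l) := by
    rw [hz, Nat.add_sub_cancel, hlzj]
  have hz0 : 0 < z := by positivity
  have h2m : (2:ℝ) ^ m ≤ L ^ (1 / 4 : ℝ) := by
    have h1 : (2:ℝ) ^ m ≤ Real.exp m := by
      rw [← Real.exp_one_pow]
      exact pow_le_pow_left₀ (by norm_num) (by have := Real.exp_one_gt_d9; linarith) _
    refine h1.trans ?_
    rw [Real.rpow_def_of_pos hL0]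
    apply Real.exp_le_exp.2
    rw [← hl]
    linarith
  have hL14 : L ^ (1 / 4 : ℝ) * L ^ (1 / 4 : ℝ) = Real.sqrt L := by
    rw [← Real.rpow_add hL0, Real.sqrt_eq_rpow]
    norm_num
  have hlzs : Real.log z ≤ Real.sqrt L := by
    rw [hlz, ← hL14]
    exact mul_le_mul h2m hq4 (by positivity) (by positivity)
  have h2m1 : (1:ℝ) ≤ 2 ^ m := one_le_pow₀ (by norm_num)
  have hlz1 : 1 ≤ Real.log z := by
    rw [hlz]
    exact one_le_mul_of_one_le_of_one_le h2m1 hCAl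
  have hsqrt : Real.sqrt L * Real.sqrt L = L := Real.mul_self_sqrt hL0.le
  have hs30 : 30 ≤ Real.sqrt L := by
    rw [show (30:ℝ) = Real.sqrt (30 ^ 2) from (Real.sqrt_sq (by norm_num)).symm]
    exact Real.sqrt_le_sqrt (by linarith)
  -- the sieving primes
  set y₁ : ℝ := L ^ A with hy₁
  have hly₁ : Real.log y₁ = A * l := by rw [hy₁, Real.log_pow]
  have hy₁3 : L ^ 4 ≤ y₁ := pow_le_pow_right₀ (by linarith) (by omega)
  have hy₁b : 1000 ≤ y₁ := by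
    have : L ≤ L ^ 4 := by
      calc L = L ^ 1 := (pow_one L).symm
        _ ≤ L ^ 4 := pow_le_pow_right₀ (by linarith) (by norm_num)
    linarith
  have hy₁e : y₁ = Real.exp (A * l) := by
    rw [← hly₁, Real.exp_log (by linarith)]
  set PP : Finset ℕ := PS y₁ z {ps} with hPP
  have hPPmem : ∀ p ∈ PP, p.Prime ∧ y₁ < (p : ℝ) ∧ (p : ℝ) ≤ z ∧ p ≠ ps ∧ p ∈ Finset.Icc 1 ⌊z⌋₊ := by
    intro p hp
    rw [hPP, PS, Finset.mem_filter] at hp
    refine ⟨hp.2.1, hp.2.2.1, ?_, ?_, hp.1⟩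
    · exact (Nat.le_floor_iff hz0.le).1 (Finset.mem_Icc.1 hp.1).2
    · intro h
      exact hp.2.2.2 (Finset.mem_singleton.2 h)
  have hpPgt : ∀ i, y₁ < pP PP i := fun i => (hPPmem _ (emb_mem PP i)).2.1
  have hp1 : ∀ i, 1 < pP PP i := fun i => lt_trans (by linarith) (hpPgt i)
  have hg0 : ∀ i, 0 < gP PP i := fun i => one_div_pos.2 (lt_trans one_pos (hp1 i))
  have hgy : ∀ i, gP PP i ≤ 1 / y₁ := fun i =>
    one_div_le_one_div_of_le (by linarith) (hpPgt i).le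
  have hxz : ∀ j < m + 1, z₀ ^ (2 ^ j) ≤ z := by
    intro j hj
    rw [hz]
    exact pow_le_pow_right₀ hz₀1.le (Nat.pow_le_pow_right (by norm_num) (by omega))
  have hyx : ∀ j : ℕ, y₁ ≤ z₀ ^ (2 ^ j) := by
    intro j
    have h1 : y₁ ≤ z₀ := by
      rw [hy₁e, hz₀]
      apply Real.exp_le_exp.2
      have : (A:ℝ) * l ≤ C₀ * (A * l) := le_mul_of_one_le_left (by positivity) hC₀1
      linarith
    refine h1.trans ?_
    calc z₀ = z₀ ^ 1 := (pow_one _).symm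
      _ ≤ z₀ ^ (2 ^ j) := pow_le_pow_right₀ hz₀1.le Nat.one_le_two_pow
  have hAs : ∀ j < m + 1, 1 ≤ Asum (pP PP) (gP PP) (z₀ ^ (2 ^ j)) ∧
      c₂ / (2 * A * l) * (2 ^ j * Real.log z₀) ≤ Asum (pP PP) (gP PP) (z₀ ^ (2 ^ j)) := by
    intro j hj
    rw [hlz₀]
    refine Asum_ge c₂ C₀ A l y₁ z (z₀ ^ (2 ^ j)) PP {ps} hPP ?_ j (hlzj j) hly₁ (by linarith) hl0
      hc₂ hcC
    exact hAl y₁ z _ {ps} (by linarith) (hyx j) (hxz j hj) (by simp; linarith)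
  obtain ⟨h, hh⟩ := exists_h (pP PP) (gP PP) hp1 hg0 (m + 1) (by omega) z₀
    (c₂ / (2 * A * l)) hz₀1 (by positivity) hAs
  set Kc : ℝ := 4 / (c₂ / (2 * A * l) * ((m + 1 : ℕ) : ℝ)) with hKc
  have hKcle : Kc ≤ 32 * A / c₂ := by
    rw [hKc]
    push_cast
    rw [div_le_div_iff₀ (by positivity) hc₂]
    have h1 : c₂ / (2 * A * l) * ((m : ℝ) + 1) ≥ c₂ / (2 * A * l) * (l / 4) :=
      mul_le_mul_of_nonneg_left hm1 (by positivity)
    have h2 : 32 * A * (c₂ / (2 * A * l) * (l / 4)) = 4 * c₂ := by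
      field_simp
      ring
    have h3 : 32 * (A:ℝ) * (c₂ / (2 * A * l) * (l / 4)) ≤ 32 * A * (c₂ / (2 * A * l) * ((m : ℝ) + 1)) :=
      mul_le_mul_of_nonneg_left h1 (by positivity)
    linarith
  -- the length of Bonferroni
  set J₀ : ℕ := ⌈((B : ℝ) + 60) * l⌉₊ with hJ₀
  have hJ1 : ((B : ℝ) + 60) * l ≤ J₀ := Nat.le_ceil _
  have hJ2 : (J₀ : ℝ) ≤ ((B : ℝ) + 60) * l + 1 := (Nat.ceil_lt_add_one (by positivity)).le
  set J : ℕ := 2 * J₀ with hJ
  have hXe : X ^ (1 / 1000 : ℝ) = Real.exp (L / 1000) := by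
    rw [Real.rpow_def_of_pos hX0, ← hL]
    congr 1
    ring
  have hze : z = Real.exp (Real.log z) := (Real.exp_log hz0).symm
  have hJcast : (J : ℝ) = 2 * J₀ := by rw [hJ]; push_cast; ring
  have hJlz : 2 * (J : ℝ) * Real.log z ≤ L / 1000 := by
    have h1 : 2 * (J : ℝ) ≤ Real.sqrt L / 1000 := by
      rw [hJcast]
      linarith
    have h2 : 2 * (J : ℝ) * Real.log z ≤ Real.sqrt L / 1000 * Real.sqrt L :=
      mul_le_mul h1 hlzs (by linarith) (by positivity)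
    have h3 : Real.sqrt L / 1000 * Real.sqrt L = L / 1000 := by
      rw [div_mul_eq_mul_div, hsqrt]
    linarith
  have hz2J : z ^ (2 * J) ≤ X ^ (1 / 1000 : ℝ) := by
    rw [hXe, hze, ← Real.exp_nat_mul]
    apply Real.exp_le_exp.2
    push_cast
    exact hJlz
  have hzz₀ : z₀ ≤ z := by
    have := hxz 0 (by omega)
    simpa using this
  have hz1 : 1 < z := lt_of_lt_of_le hz₀1 hzz₀
  have hz2 : 2 ≤ z := by
    have : y₁ ≤ z := (hyx 0).trans (hxz 0 (by omega))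
    linarith
  have hJpos : 1 ≤ J := by
    have h1 : (0:ℝ) < J₀ := lt_of_lt_of_le (by positivity) hJ1
    have h2 : 0 < J₀ := by exact_mod_cast h1
    omega
  have hcard : (PP.card : ℝ) ≤ z := by
    have h1 : PP.card ≤ (Finset.Icc 1 ⌊z⌋₊).card :=
      Finset.card_le_card fun p hp => (hPPmem p hp).2.2.2.2
    rw [Nat.card_Icc, Nat.add_sub_cancel] at h1
    exact (by exact_mod_cast h1 : (PP.card : ℝ) ≤ (⌊z⌋₊ : ℝ)).trans (Nat.floor_le hz0.le)
  -- the sum of the densities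
  have hsum : ∑ i, gP PP i ≤ l := by
    have h1 : ∑ i, gP PP i = ∑ p ∈ PP, 1 / (p : ℝ) := sum_emb PP fun p => 1 / (p : ℝ)
    have h2 : ∑ p ∈ PP, 1 / (p : ℝ) ≤ ∑ p ∈ (Finset.Icc 1 ⌊z⌋₊).filter Nat.Prime, 1 / (p : ℝ) := by
      refine Finset.sum_le_sum_of_subset_of_nonneg ?_ fun _ _ _ => by positivity
      intro p hp
      exact Finset.mem_filter.2 ⟨(hPPmem p hp).2.2.2.2, (hPPmem p hp).1⟩
    have hz1000 : 1000 ≤ z := hy₁b.trans ((hyx 0).trans (hxz 0 (by omega)))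
    have hN3 : 3 ≤ ⌊z⌋₊ := Nat.le_floor (by push_cast; linarith)
    have h3 := (abs_le.1 (hCM ⌊z⌋₊ hN3)).2
    have hN3' : (3:ℝ) ≤ (⌊z⌋₊ : ℝ) := by exact_mod_cast hN3
    have h4 : Real.log (Real.log (⌊z⌋₊ : ℝ)) ≤ l / 2 := by
      have h5 : Real.log (⌊z⌋₊ : ℝ) ≤ Real.log z :=
        Real.log_le_log (by linarith) (Nat.floor_le hz0.le)
      have h6 : 0 < Real.log (⌊z⌋₊ : ℝ) := Real.log_pos (by linarith)
      have h7 : Real.log (Real.log (⌊z⌋₊ : ℝ)) ≤ Real.log (Real.sqrt L) :=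
        Real.log_le_log h6 (h5.trans hlzs)
      rw [Real.log_sqrt hL0.le] at h7
      exact h7
    rw [h1]
    linarith
  have hsq : ∑ i, (gP PP i) ^ 2 ≤ 2 / y₁ := by
    have h1 : ∑ i, (gP PP i) ^ 2 = ∑ p ∈ PP, (1 / (p : ℝ)) ^ 2 :=
      sum_emb PP fun p => (1 / (p : ℝ)) ^ 2
    rw [h1]
    exact sum_sq_tail y₁ (by linarith) PP fun p hp => (hPPmem p hp).2.1
  have hLA : L ^ A = L * L ^ (A - 1) := by
    rw [← pow_succ', Nat.sub_add_cancel (by omega)]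
  refine ⟨PP, h, z, Kc, 2 / L ^ (A - 1), J, ?_, hh, ⟨J₀, by omega⟩, ?_, ?_, ?_, hsum, ?_, le_rfl,
    ?_, ?_⟩
  · intro p hp
    exact ⟨(hPPmem p hp).1, (hPPmem p hp).2.1, (hPPmem p hp).2.2.1, (hPPmem p hp).2.2.2.1⟩
  · refine le_trans ?_ hz2J
    calc z = z ^ 1 := (pow_one z).symm
      _ ≤ z ^ (2 * J) := pow_le_pow_right₀ hz1.le (by omega)
  · exact (pow_le_pow_right₀ hz1.le (by omega)).trans hz2J
  · refine le_trans ?_ hz2J
    have h0 : 2 * z ≤ z * z := mul_le_mul_of_nonneg_right hz2 hz0.le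
    have h1 : (PP.card : ℝ) + 1 ≤ z ^ 2 := by
      rw [sq]
      linarith
    have h2 : (0:ℝ) ≤ (PP.card : ℝ) + 1 := add_nonneg (Nat.cast_nonneg _) zero_le_one
    calc ((PP.card : ℝ) + 1) ^ J ≤ (z ^ 2) ^ J := pow_le_pow_left₀ h2 h1 _
      _ = z ^ (2 * J) := (pow_mul z 2 J).symm
  · have h1 : 4 * (u : ℝ) * ∑ i, (gP PP i) ^ 2 ≤ 4 * L * (2 / y₁) :=
      mul_le_mul (by linarith) hsq (Finset.sum_nonneg fun _ _ => sq_nonneg _) (by positivity)
    refine h1.trans ?_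
    rw [mul_div_assoc', div_le_div_iff₀ (by linarith) (by norm_num)]
    have h2 : L ^ 4 = L * L ^ 3 := by ring
    have h3 : 1000 ≤ L ^ 3 := by
      calc (1000:ℝ) ≤ L := h1000
        _ = L ^ 1 := (pow_one L).symm
        _ ≤ L ^ 3 := pow_le_pow_right₀ (by linarith) (by norm_num)
    have h5 : L * 1000 ≤ L * L ^ 3 := mul_le_mul_of_nonneg_left h3 hL0.le
    linarith
  · intro κ _ _ D hD
    have h1 : ∏ i ∈ univ.filter (fun i => D i ≠ none), pP PP i ≤ Real.exp (L / 1000) := by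
      rw [← hXe]
      refine le_trans (le_of_eq ?_) hD
      rw [qq, Finset.prod_filter]
      refine Finset.prod_congr rfl fun i _ => ?_
      cases hDi : D i with
      | none => simp [nu1]
      | some k => simp [nu1]
    have h2 := card_of_prod (pP PP) (univ.filter (fun i => D i ≠ none)) L (fun i => by
      have := hpPgt i
      have h3 : Real.exp 1 < 2.7182818286 := Real.exp_one_lt_d9
      linarith) h1
    have h3 : ∑ i with D i ≠ none, gP PP i ≤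
        ((univ.filter (fun i => D i ≠ none)).card : ℝ) * (1 / y₁) := by
      rw [← nsmul_eq_mul]
      exact Finset.sum_le_card_nsmul _ _ _ fun i _ => hgy i
    have h4 : ((univ.filter (fun i => D i ≠ none)).card : ℝ) * (1 / y₁) ≤ L / 1000 * (1 / y₁) :=
      mul_le_mul_of_nonneg_right h2 (by positivity)
    have h5 : L / 1000 * (1 / y₁) = (1 / 1000) * (1 / L ^ (A - 1)) := by
      rw [hy₁, hLA]
      field_simp
    have h6 : (0:ℝ) ≤ 1 / L ^ (A - 1) := by positivity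
    have h7 : 2 / L ^ (A - 1) = 2 * (1 / L ^ (A - 1)) := by ring
    rw [h7]
    linarith
  · exact fin_all L l (Real.log z) c₂ Kc (∑ i, gP PP i) A u (Real.log (X ^ (1 / 1000 : ℝ) / z)) A B
      J₀ J hA (by exact_mod_cast hu1) hLl h1000 hl10 hlz1 hlzs hc₂ hKcle huc hsum hJ1 hJcast huL hexp
      (by rw [Real.log_div (Real.rpow_pos_of_pos hX0 _).ne' hz0.ne', hXe, Real.log_exp])

end Pool.Agent.H312R2.RG
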