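import Pool.Agent.H312R2.RG.Defs
import Pool.Agent.H256R2.SC.H3

set_option autoImplicit false
set_option linter.unusedSectionVars false

/-! Task RG-F (helper473): bound for the Fourier coefficients. -/

namespace Pool.Agent.H312R2.RG

open Finset
open Pool.Agent.H256R2.SC (Col wt nu1 EE nu ind ind_eq_prod sum_wt_ind1)

variable {n : ℕ} {κ : Type} [Fintype κ] [DecidableEq κ]

/-- dual local functions -/
noncomputable def rgfA (g : ℝ) (b : Bool) (c₀ c : Option κ) : ℝ :=
  if b then (if c₀ = none then 0 else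
    if c = none then -g / (1 - (Fintype.card κ : ℝ) * g) else if c = c₀ then 1 else 0)
  else if c₀ = none then 1 else 0

theorem rgf_loc1 (g : ℝ) (d c₀ : Option κ) :
    ∑ c, wt g c * (if d ≠ none → c = d then (1 : ℝ) else 0) * rgfA g false c₀ c =
      if c₀ = none then nu1 g d else 0 := by
  have h : ∀ c : Option κ, wt g c * (if d ≠ none → c = d then (1 : ℝ) else 0) *
      rgfA g false c₀ c = (wt g c * (if d ≠ none → c = d then (1 : ℝ) else 0)) *
        (if c₀ = none then 1 else 0) := by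
    intro c
    simp [rgfA]
  rw [Finset.sum_congr rfl (fun c _ => h c), ← Finset.sum_mul, sum_wt_ind1]
  split_ifs <;> simp

theorem rgf_loc2 (g : ℝ) (hg : (Fintype.card κ : ℝ) * g < 1) (d c₀ : Option κ) :
    ∑ c, wt g c * (if d ≠ none → c = d then (1 : ℝ) else 0) * rgfA g true c₀ c =
      if d ≠ none ∧ c₀ = d then nu1 g d else 0 := by
  unfold rgfA
  have h0 : 1 - (Fintype.card κ : ℝ) * g ≠ 0 := by linarith
  cases c₀ with
  | none =>
    cases d with
    | none => simp
    | some l => simp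
  | some k =>
    cases d with
    | none =>
      simp only [Fintype.sum_option, wt]
      simp
      field_simp
      ring
    | some l =>
      simp only [Fintype.sum_option, wt, nu1]
      by_cases h : k = l
      · subst h; simp
      · simp [h, Ne.symm h]

theorem rgf_loc3 (g : ℝ) (hg0 : 0 ≤ g) (hg : (Fintype.card κ : ℝ) * g < 1) (b : Bool) (c : Option κ) :
    ∑ c₀, |rgfA g b c₀ c| = if b then
      (if c = none then (Fintype.card κ : ℝ) * g / (1 - (Fintype.card κ : ℝ) * g) else 1) else 1 := by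
  unfold rgfA
  have h0 : 0 < 1 - (Fintype.card κ : ℝ) * g := by linarith
  cases b with
  | false => simp [Fintype.sum_option]
  | true =>
    cases c with
    | none =>
      simp only [Fintype.sum_option]
      simp [abs_div, abs_of_nonneg hg0, abs_of_pos h0]
      ring
    | some l =>
      simp [Fintype.sum_option, apply_ite abs]

theorem rgf_wt_nonneg (g : ℝ) (hg0 : 0 ≤ g) (hg : (Fintype.card κ : ℝ) * g < 1) (c : Option κ) :
    0 ≤ wt g c := by
  cases c with
  | none => unfold wt; simp only; linarith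
  | some k => exact hg0

theorem rgf_dual (g : Fin n → ℝ) (hug : ∀ i, (Fintype.card κ : ℝ) * g i < 1) (s : Finset (Fin n))
    (D D₀ : Col n κ) :
    EE g (fun x => ind D x * ∏ i, rgfA (g i) (decide (i ∈ s)) (D₀ i) (x i)) =
      if (∀ i ∈ s, D i ≠ none) ∧ D₀ = rst s D then nu g D else 0 := by
  unfold EE
  have h1 : ∀ x : Col n κ, (∏ i, wt (g i) (x i)) * (ind D x *
      ∏ i, rgfA (g i) (decide (i ∈ s)) (D₀ i) (x i)) =
      ∏ i, (wt (g i) (x i) * (if D i ≠ none → x i = D i then (1 : ℝ) else 0) *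
        rgfA (g i) (decide (i ∈ s)) (D₀ i) (x i)) := by
    intro x
    rw [ind_eq_prod, Finset.prod_mul_distrib, Finset.prod_mul_distrib, mul_assoc]
  rw [Finset.sum_congr rfl (fun x _ => h1 x)]
  have h2 := Finset.prod_univ_sum (fun _ : Fin n => (Finset.univ : Finset (Option κ)))
    (fun i c => wt (g i) c * (if D i ≠ none → c = D i then (1 : ℝ) else 0) *
      rgfA (g i) (decide (i ∈ s)) (D₀ i) c)
  rw [Fintype.piFinset_univ] at h2
  rw [← h2]
  have h3 : ∀ i, ∑ c, wt (g i) c * (if D i ≠ none → c = D i then (1 : ℝ) else 0) *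
      rgfA (g i) (decide (i ∈ s)) (D₀ i) c =
      if (i ∈ s → D i ≠ none) ∧ D₀ i = rst s D i then nu1 (g i) (D i) else 0 := by
    intro i
    by_cases hi : i ∈ s
    · rw [show decide (i ∈ s) = true by simp [hi], rgf_loc2 (g i) (hug i)]
      simp [rst, hi]
    · rw [show decide (i ∈ s) = false by simp [hi], rgf_loc1 (g i)]
      simp [rst, hi]
  rw [Finset.prod_congr rfl (fun i _ => h3 i)]
  by_cases hc : (∀ i ∈ s, D i ≠ none) ∧ D₀ = rst s D
  · rw [if_pos hc]
    unfold nu
    apply Finset.prod_congr rfl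
    intro i _
    rw [if_pos]
    exact ⟨fun h => hc.1 i h, congrFun hc.2 i⟩
  · rw [if_neg hc]
    have : ∃ i, ¬ ((i ∈ s → D i ≠ none) ∧ D₀ i = rst s D i) := by
      by_contra hcon
      push Not at hcon
      apply hc
      exact ⟨fun i hi => (hcon i).1 hi, funext fun i => (hcon i).2⟩
    obtain ⟨i, hi⟩ := this
    exact Finset.prod_eq_zero (Finset.mem_univ i) (if_neg hi)

theorem rgf_sumabs (g : Fin n → ℝ) (hg : ∀ i, 0 ≤ g i)
    (hug : ∀ i, (Fintype.card κ : ℝ) * g i < 1) (s : Finset (Fin n)) (x : Col n κ) :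
    ∑ D₀ : Col n κ, |∏ i, rgfA (g i) (decide (i ∈ s)) (D₀ i) (x i)| = fw g s x := by
  have h1 : ∀ D₀ : Col n κ, |∏ i, rgfA (g i) (decide (i ∈ s)) (D₀ i) (x i)| =
      ∏ i, |rgfA (g i) (decide (i ∈ s)) (D₀ i) (x i)| := fun D₀ => Finset.abs_prod _ _
  rw [Finset.sum_congr rfl (fun D₀ _ => h1 D₀)]
  have h2 := Finset.prod_univ_sum (fun _ : Fin n => (Finset.univ : Finset (Option κ)))
    (fun i c => |rgfA (g i) (decide (i ∈ s)) c (x i)|)
  rw [Fintype.piFinset_univ] at h2
  rw [← h2]
  unfold fw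
  rw [Finset.prod_congr rfl (fun i _ => rgf_loc3 (g i) (hg i) (hug i) (decide (i ∈ s)) (x i))]
  rw [← Finset.prod_subset (Finset.subset_univ s)]
  · apply Finset.prod_congr rfl
    intro i hi
    simp [hi]
  · intro i _ hi
    simp [hi]

/-- Task F: bound for the Fourier coefficients -/
theorem fourier (g : Fin n → ℝ) (hg : ∀ i, 0 ≤ g i) (hug : ∀ i, (Fintype.card κ : ℝ) * g i < 1)
    (f : Col n κ → ℝ) (G : Col n κ → ℝ) (hG : ∀ x, G x = ∑ D, f D * ind D x)
    (s : Finset (Fin n)) (Ψ : Col n κ → ℂ) (hΨ : ∀ D, ‖Ψ D‖ ≤ 1) :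
    ‖∑ D : Col n κ with (∀ i ∈ s, D i ≠ none), ((f D * nu g D : ℝ) : ℂ) * Ψ (rst s D)‖ ≤
      EE g (fun x => |G x| * fw g s x) := by
  set P : Col n κ → Col n κ → ℝ := fun D₀ x => ∏ i, rgfA (g i) (decide (i ∈ s)) (D₀ i) (x i) with hP
  have hdual : ∀ D D₀, EE g (fun x => ind D x * P D₀ x) =
      if (∀ i ∈ s, D i ≠ none) ∧ D₀ = rst s D then nu g D else 0 := fun D D₀ => rgf_dual g hug s D D₀
  have h1 : ∑ D : Col n κ with (∀ i ∈ s, D i ≠ none), ((f D * nu g D : ℝ) : ℂ) * Ψ (rst s D) =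
      ∑ D₀ : Col n κ, ((EE g (fun x => G x * P D₀ x) : ℝ) : ℂ) * Ψ D₀ := by
    have h2 : ∀ D₀ : Col n κ, EE g (fun x => G x * P D₀ x) =
        ∑ D, f D * (if (∀ i ∈ s, D i ≠ none) ∧ D₀ = rst s D then nu g D else 0) := by
      intro D₀
      have : ∀ D, (if (∀ i ∈ s, D i ≠ none) ∧ D₀ = rst s D then nu g D else 0) =
        EE g (fun x => ind D x * P D₀ x) := fun D => (hdual D D₀).symm
      simp_rw [this]
      unfold EE
      simp_rw [hG, Finset.mul_sum, Finset.sum_mul, Finset.mul_sum]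
      rw [Finset.sum_comm]
      apply Finset.sum_congr rfl
      intro D _
      apply Finset.sum_congr rfl
      intro x _
      ring
    simp_rw [h2]
    push_cast
    simp_rw [Finset.sum_mul]
    rw [Finset.sum_comm, Finset.sum_filter]
    apply Finset.sum_congr rfl
    intro D _
    by_cases hD : ∀ i ∈ s, D i ≠ none
    · rw [if_pos hD, Finset.sum_eq_single (rst s D)]
      · rw [if_pos ⟨hD, rfl⟩]
      · intro D₀ _ hne
        rw [if_neg (fun h => hne h.2)]
        simp
      · intro h; exact absurd (Finset.mem_univ _) h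
    · rw [if_neg hD]
      symm
      apply Finset.sum_eq_zero
      intro D₀ _
      rw [if_neg (fun h => hD h.1)]
      simp
  rw [h1]
  have hw : ∀ x : Col n κ, 0 ≤ ∏ i, wt (g i) (x i) := fun x =>
    Finset.prod_nonneg fun i _ => rgf_wt_nonneg (g i) (hg i) (hug i) (x i)
  calc ‖∑ D₀ : Col n κ, ((EE g (fun x => G x * P D₀ x) : ℝ) : ℂ) * Ψ D₀‖
      ≤ ∑ D₀ : Col n κ, ‖((EE g (fun x => G x * P D₀ x) : ℝ) : ℂ) * Ψ D₀‖ := norm_sum_le _ _
    _ ≤ ∑ D₀ : Col n κ, EE g (fun x => |G x| * |P D₀ x|) := by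
        apply Finset.sum_le_sum
        intro D₀ _
        rw [norm_mul, Complex.norm_real, Real.norm_eq_abs]
        have h3 : |EE g (fun x => G x * P D₀ x)| ≤ EE g (fun x => |G x| * |P D₀ x|) := by
          unfold EE
          refine (Finset.abs_sum_le_sum_abs _ _).trans (Finset.sum_le_sum fun x _ => ?_)
          rw [abs_mul, abs_mul, abs_of_nonneg (hw x)]
        calc |EE g (fun x => G x * P D₀ x)| * ‖Ψ D₀‖
            ≤ |EE g (fun x => G x * P D₀ x)| * 1 :=
              mul_le_mul_of_nonneg_left (hΨ D₀) (abs_nonneg _)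
          _ ≤ _ := by rw [mul_one]; exact h3
    _ = EE g (fun x => |G x| * fw g s x) := by
        unfold EE
        rw [Finset.sum_comm]
        apply Finset.sum_congr rfl
        intro x _
        beta_reduce
        rw [← rgf_sumabs g hg hug s x, Finset.mul_sum, Finset.mul_sum]

end Pool.Agent.H312R2.RG
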