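import Pool.Agent.H312R2.RG.A
import Pool.Agent.H312R2.RG.VW
import Pool.Agent.H312R2.RG.COV
import Pool.Agent.H378R2.Final

set_option autoImplicit false

/-! TEAM RG: the main theorem -/

namespace Pool.Agent.H312R2.RG

/-- (RG) Maynard-Tao inside the record windows -/
theorem mtrg : MTRG :=
  mtrg_of Pool.Agent.H378R2.sieveAsymp_holds Pool.Agent.H378R2.bvrel_holds covR weights

end Pool.Agent.H312R2.RG
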