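import Pool.Agent.H256R2.SC.J
import Pool.Agent.H312R2.RG.Defs

set_option autoImplicit false
set_option linter.unusedSectionVars false

/-! TEAM RG, task M2: erasing coordinates, change of densities. -/

namespace Pool.Agent.H312R2.RG

open Finset
open Pool.Agent.H256R2.SC

section
variable {n : ℕ} {κ : Type} [Fintype κ] [DecidableEq κ]

namespace M2

lemma sum_wt1 (g : ℝ) : ∑ c : Option κ, wt g c = 1 := by
  rw [Fintype.sum_option]
  simp only [wt, Finset.sum_const, Finset.card_univ, nsmul_eq_mul]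
  ring

/-- the local factor after summing over the coordinates in `m` -/
lemma fiber_sum (g : Fin n → ℝ) (m : Finset (Fin n)) (y : Col n κ) :
    ∑ x : Col n κ, (∏ i, wt (g i) (x i)) * (if cut m x = y then (1 : ℝ) else 0) =
      ∏ i, (if i ∈ m then (if y i = none then (1 : ℝ) else 0) else wt (g i) (y i)) := by
  have h1 : ∀ x : Col n κ, (∏ i, wt (g i) (x i)) * (if cut m x = y then (1 : ℝ) else 0) =
      ∏ i, (wt (g i) (x i) * (if (if i ∈ m then none else x i) = y i then (1 : ℝ) else 0)) := by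
    intro x
    rw [Finset.prod_mul_distrib]
    congr 1
    by_cases h : cut m x = y
    · rw [if_pos h]
      symm
      apply Finset.prod_eq_one
      intro i _
      rw [if_pos]
      exact congrFun h i
    · rw [if_neg h]
      symm
      have h' : ∃ i, cut m x i ≠ y i := by
        by_contra hc
        push Not at hc
        exact h (funext hc)
      obtain ⟨i, hi⟩ := h'
      apply Finset.prod_eq_zero (Finset.mem_univ i)
      rw [if_neg]
      exact hi
  rw [Finset.sum_congr rfl (fun x _ => h1 x)]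
  have h2 := Finset.prod_univ_sum (fun _ : Fin n => (Finset.univ : Finset (Option κ)))
    (fun i c => wt (g i) c * (if (if i ∈ m then none else c) = y i then (1 : ℝ) else 0))
  rw [Fintype.piFinset_univ] at h2
  rw [show (∑ x : Col n κ, ∏ i, (wt (g i) (x i) *
      (if (if i ∈ m then none else x i) = y i then (1 : ℝ) else 0))) = _ from h2.symm]
  apply Finset.prod_congr rfl
  intro i _
  by_cases hi : i ∈ m
  · simp only [hi, if_true]
    rw [← Finset.sum_mul, sum_wt1, one_mul]
    apply if_congr _ rfl rfl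
    exact eq_comm
  · simp only [hi, if_false]
    simp

end M2

/-- erasing coordinates -/
theorem EE_cut (g : Fin n → ℝ) (m : Finset (Fin n)) (F : Col n κ → ℝ) :
    (∏ i ∈ m, (1 - (Fintype.card κ : ℝ) * g i)) * EE g (fun x => F (cut m x)) =
      EE g (fun x => if ∀ i ∈ m, x i = none then F x else 0) := by
  unfold EE
  have h1 : ∑ x : Col n κ, (∏ i, wt (g i) (x i)) * F (cut m x) =
      ∑ y : Col n κ, F y * ∏ i, (if i ∈ m then (if y i = none then (1 : ℝ) else 0) else wt (g i) (y i)) := by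
    have h2 : ∀ x : Col n κ, (∏ i, wt (g i) (x i)) * F (cut m x) =
        ∑ y : Col n κ, F y * ((∏ i, wt (g i) (x i)) * (if cut m x = y then (1 : ℝ) else 0)) := by
      intro x
      rw [Finset.sum_eq_single (cut m x)]
      · simp only [if_true, mul_one]; ring
      · intro y _ hy
        rw [if_neg (fun h => hy h.symm)]; ring
      · intro h; exact absurd (Finset.mem_univ _) h
    rw [Finset.sum_congr rfl (fun x _ => h2 x), Finset.sum_comm]
    apply Finset.sum_congr rfl
    intro y _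
    rw [← Finset.mul_sum, M2.fiber_sum]
  rw [h1, Finset.mul_sum]
  apply Finset.sum_congr rfl
  intro y _
  beta_reduce
  have h3 : (∏ i ∈ m, (1 - (Fintype.card κ : ℝ) * g i)) =
      ∏ i, (if i ∈ m then (1 - (Fintype.card κ : ℝ) * g i) else 1) := by
    rw [Finset.prod_ite_mem, Finset.univ_inter]
  have h4 : (if ∀ i ∈ m, y i = none then F y else 0) =
      F y * ∏ i, (if i ∈ m then (if y i = none then (1 : ℝ) else 0) else 1) := by
    rw [Finset.prod_ite_mem, Finset.univ_inter, Finset.prod_boole]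
    by_cases h : ∀ i ∈ m, y i = none
    · rw [if_pos h, if_pos h, mul_one]
    · rw [if_neg h, if_neg h, mul_zero]
  rw [h3, h4]
  have h5 : (∏ i, (if i ∈ m then (1 - (Fintype.card κ : ℝ) * g i) else 1)) *
      ∏ i, (if i ∈ m then (if y i = none then (1 : ℝ) else 0) else wt (g i) (y i)) =
      (∏ i, wt (g i) (y i)) * ∏ i, (if i ∈ m then (if y i = none then (1 : ℝ) else 0) else 1) := by
    rw [← Finset.prod_mul_distrib, ← Finset.prod_mul_distrib]
    apply Finset.prod_congr rfl
    intro i _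
    by_cases hi : i ∈ m
    · simp only [hi, if_true]
      by_cases hy : y i = none
      · rw [hy]; simp [wt]
      · simp [hy]
    · simp [hi]
  calc _ = F y * ((∏ i, (if i ∈ m then (1 - (Fintype.card κ : ℝ) * g i) else 1)) *
      ∏ i, (if i ∈ m then (if y i = none then (1 : ℝ) else 0) else wt (g i) (y i))) := by ring
    _ = _ := by rw [h5]; ring

namespace M2

lemma EE_nonneg {g : Fin n → ℝ} (hw : ∀ i (c : Option κ), 0 ≤ wt (g i) c) {F : Col n κ → ℝ}
    (h : ∀ x, 0 ≤ F x) : 0 ≤ EE g F := by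
  unfold EE
  apply Finset.sum_nonneg
  intro x _
  exact mul_nonneg (Finset.prod_nonneg (fun i _ => hw i _)) (h x)

lemma rho_lower (g : Fin n → ℝ) (hg : ∀ i, 0 ≤ g i) (hug : ∀ i, (Fintype.card κ : ℝ) * g i ≤ 1)
    (m : Finset (Fin n)) :
    1 - (Fintype.card κ : ℝ) * ∑ i ∈ m, g i ≤ ∏ i ∈ m, (1 - (Fintype.card κ : ℝ) * g i) := by
  have h := prod_ge_one_sub_sum m (fun i => (Fintype.card κ : ℝ) * g i)
    (fun i => mul_nonneg (Nat.cast_nonneg _) (hg i)) hug
  rw [← Finset.mul_sum] at h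
  exact h

lemma sum_EE {ι : Type} (g : Fin n → ℝ) (m : Finset ι) (F : ι → Col n κ → ℝ) :
    ∑ i ∈ m, EE g (F i) = EE g (fun x => ∑ i ∈ m, F i x) := by
  unfold EE
  rw [Finset.sum_comm]
  apply Finset.sum_congr rfl
  intro x _
  rw [Finset.mul_sum]

end M2

/-- cutting costs at most a factor two -/
theorem cut_upper (g : Fin n → ℝ) (hg : ∀ i, 0 ≤ g i) (hug : ∀ i, (Fintype.card κ : ℝ) * g i ≤ 1)
    (m : Finset (Fin n)) (hm : 2 * (Fintype.card κ : ℝ) * ∑ i ∈ m, g i ≤ 1) (F : Col n κ → ℝ)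
    (hF : ∀ x, 0 ≤ F x) : EE g (fun x => F (cut m x)) ≤ 2 * EE g F := by
  have hw : ∀ i (c : Option κ), 0 ≤ wt (g i) c := fun i c => wt_nonneg (hg i) (hug i) c
  have h1 := EE_cut g m F
  have h2 : EE g (fun x => if ∀ i ∈ m, x i = none then F x else 0) ≤ EE g F := by
    apply EE_mono hw
    intro x
    split_ifs with h
    · exact le_refl _
    · exact hF x
  have h3 := M2.rho_lower g hg hug m
  have h4 : 0 ≤ EE g (fun x => F (cut m x)) := M2.EE_nonneg hw (fun x => hF _)
  have h5 : (1 / 2 : ℝ) ≤ ∏ i ∈ m, (1 - (Fintype.card κ : ℝ) * g i) := by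
    have : (Fintype.card κ : ℝ) * ∑ i ∈ m, g i ≤ 1 / 2 := by linarith
    linarith
  have h6 : (1 / 2 : ℝ) * EE g (fun x => F (cut m x)) ≤ EE g F := by
    calc (1 / 2 : ℝ) * EE g (fun x => F (cut m x)) ≤
        (∏ i ∈ m, (1 - (Fintype.card κ : ℝ) * g i)) * EE g (fun x => F (cut m x)) :=
          mul_le_mul_of_nonneg_right h5 h4
      _ = _ := h1
      _ ≤ _ := h2
  linarith

/-- the change of the mean by cutting -/
theorem cut_dev (g : Fin n → ℝ) (hg : ∀ i, 0 ≤ g i) (hug : ∀ i, (Fintype.card κ : ℝ) * g i ≤ 1)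
    (m : Finset (Fin n)) (hm : 2 * (Fintype.card κ : ℝ) * ∑ i ∈ m, g i ≤ 1) (F : Col n κ → ℝ)
    (hF : ∀ x, 0 ≤ F x) : |EE g (fun x => F (cut m x)) - EE g F| ≤
      2 * (Fintype.card κ : ℝ) * (∑ i ∈ m, g i) * EE g F +
        ∑ i ∈ m, EE g (fun x => if x i = none then 0 else F x) := by
  have hw : ∀ i (c : Option κ), 0 ≤ wt (g i) c := fun i c => wt_nonneg (hg i) (hug i) c
  have h1 := EE_cut g m F
  have h3 := M2.rho_lower g hg hug m
  have hup := cut_upper g hg hug m hm F hF
  have h4 : 0 ≤ EE g (fun x => F (cut m x)) := M2.EE_nonneg hw (fun x => hF _)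
  have hb0 : 0 ≤ EE g F := M2.EE_nonneg hw hF
  have hrho1 : ∏ i ∈ m, (1 - (Fintype.card κ : ℝ) * g i) ≤ 1 := by
    apply Finset.prod_le_one
    · intro i _; linarith [hug i]
    · intro i _; linarith [mul_nonneg (Nat.cast_nonneg (Fintype.card κ) : (0 : ℝ) ≤ _) (hg i)]
  have hrem0 : EE g F - EE g (fun x => if ∀ i ∈ m, x i = none then F x else 0) ≤
      ∑ i ∈ m, EE g (fun x => if x i = none then 0 else F x) := by
    rw [M2.sum_EE, ← EE_sub]
    apply EE_mono hw
    intro x
    have hnn : ∀ i ∈ m, (0 : ℝ) ≤ (if x i = none then 0 else F x) := by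
      intro i _
      split_ifs
      · exact le_refl _
      · exact hF x
    by_cases h : ∀ i ∈ m, x i = none
    · rw [if_pos h, sub_self]
      exact Finset.sum_nonneg hnn
    · rw [if_neg h, sub_zero]
      push Not at h
      obtain ⟨i, him, hi⟩ := h
      calc F x = (if x i = none then 0 else F x) := by rw [if_neg hi]
        _ ≤ _ := Finset.single_le_sum hnn him
  have hle : EE g (fun x => if ∀ i ∈ m, x i = none then F x else 0) ≤ EE g F := by
    apply EE_mono hw
    intro x
    split_ifs with h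
    · exact le_refl _
    · exact hF x
  set a := EE g (fun x => F (cut m x)) with ha
  set b := EE g F with hb
  set r := ∏ i ∈ m, (1 - (Fintype.card κ : ℝ) * g i) with hr
  set e := EE g (fun x => if ∀ i ∈ m, x i = none then F x else 0) with he
  set S := ∑ i ∈ m, EE g (fun x => if x i = none then 0 else F x) with hS
  set d := (Fintype.card κ : ℝ) * ∑ i ∈ m, g i with hd
  have hd0 : 0 ≤ d := mul_nonneg (Nat.cast_nonneg _) (Finset.sum_nonneg (fun i _ => hg i))
  have hS0 : 0 ≤ S := Finset.sum_nonneg (fun i _ => M2.EE_nonneg hw (fun x => by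
    show (0 : ℝ) ≤ (if x i = none then 0 else F x)
    split_ifs
    · exact le_refl _
    · exact hF x))
  have e1 : 2 * (Fintype.card κ : ℝ) * (∑ i ∈ m, g i) * b = 2 * d * b := by rw [hd]; ring
  rw [e1, abs_le]
  have h5 : a * (1 - r) ≤ 2 * b * d := by
    calc a * (1 - r) ≤ a * d := mul_le_mul_of_nonneg_left (by linarith) h4
      _ ≤ 2 * b * d := mul_le_mul_of_nonneg_right hup hd0
  have h6 : 0 ≤ a * (1 - r) := mul_nonneg h4 (by linarith)
  constructor
  · nlinarith [mul_nonneg hd0 hb0]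
  · nlinarith

/-- change of densities, upper bound -/
theorem ratio_upper (g g' : Fin n → ℝ) (h0 : ∀ i, 0 ≤ g i) (h1 : ∀ i, g i ≤ g' i)
    (h2 : ∀ i, g' i ≤ g i * (1 + 2 * g i)) (hug : ∀ i, (Fintype.card κ : ℝ) * g' i ≤ 1)
    (F : Col n κ → ℝ) (hF : ∀ x, 0 ≤ F x) :
    EE g' F ≤ EE g (fun x => (∏ i, (if x i = none then 1 else 1 + 2 * g i)) * F x) := by
  unfold EE
  apply Finset.sum_le_sum
  intro x _
  rw [← mul_assoc, ← Finset.prod_mul_distrib]
  apply mul_le_mul_of_nonneg_right _ (hF x)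
  apply Finset.prod_le_prod
  · intro i _
    exact wt_nonneg ((h0 i).trans (h1 i)) (hug i) _
  · intro i _
    cases hx : x i with
    | none =>
      simp only [wt, if_true, mul_one]
      have := mul_le_mul_of_nonneg_left (h1 i) (Nat.cast_nonneg (Fintype.card κ) : (0 : ℝ) ≤ _)
      linarith
    | some k =>
      simp only [wt]
      rw [if_neg (by simp)]
      exact h2 i

/-- change of densities, lower bound -/
theorem ratio_lower (g g' : Fin n → ℝ) (h0 : ∀ i, 0 ≤ g i) (h1 : ∀ i, g i ≤ g' i)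
    (h2 : ∀ i, g' i ≤ g i * (1 + 2 * g i)) (hug : ∀ i, 4 * (Fintype.card κ : ℝ) * g i ≤ 1)
    (F : Col n κ → ℝ) (hF : ∀ x, 0 ≤ F x) :
    (1 - 4 * (Fintype.card κ : ℝ) * ∑ i, (g i) ^ 2) * EE g F ≤ EE g' F := by
  have hu0 : (0 : ℝ) ≤ Fintype.card κ := Nat.cast_nonneg _
  have hug1 : ∀ i, (Fintype.card κ : ℝ) * g i ≤ 1 / 4 := fun i => by linarith [hug i]
  have hA1 : ∀ i, 4 * (Fintype.card κ : ℝ) * (g i) ^ 2 ≤ 1 := by
    intro i
    rcases Nat.eq_zero_or_pos (Fintype.card κ) with hz | hp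
    · rw [hz]; simp
    · have hu1 : (1 : ℝ) ≤ Fintype.card κ := by exact_mod_cast hp
      have hg1 : g i ≤ 1 := by nlinarith [hug1 i, h0 i]
      nlinarith [hug1 i, h0 i, mul_nonneg hu0 (h0 i)]
  have hA0 : ∀ i, 0 ≤ 4 * (Fintype.card κ : ℝ) * (g i) ^ 2 := fun i => by positivity
  have hP := prod_ge_one_sub_sum Finset.univ (fun i => 4 * (Fintype.card κ : ℝ) * (g i) ^ 2) hA0 hA1
  rw [← Finset.mul_sum] at hP
  unfold EE
  rw [Finset.mul_sum]
  apply Finset.sum_le_sum
  intro x _
  rw [← mul_assoc]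
  apply mul_le_mul_of_nonneg_right _ (hF x)
  have hw : ∀ i (c : Option κ), 0 ≤ wt (g i) c := fun i c => wt_nonneg (h0 i) (by linarith [hug1 i]) c
  calc (1 - 4 * (Fintype.card κ : ℝ) * ∑ i, (g i) ^ 2) * ∏ i, wt (g i) (x i) ≤
      (∏ i, (1 - 4 * (Fintype.card κ : ℝ) * (g i) ^ 2)) * ∏ i, wt (g i) (x i) :=
        mul_le_mul_of_nonneg_right hP (Finset.prod_nonneg (fun i _ => hw i _))
    _ = ∏ i, ((1 - 4 * (Fintype.card κ : ℝ) * (g i) ^ 2) * wt (g i) (x i)) :=
        (Finset.prod_mul_distrib).symm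
    _ ≤ ∏ i, wt (g' i) (x i) := by
        apply Finset.prod_le_prod
        · intro i _
          exact mul_nonneg (by linarith [hA1 i]) (hw i _)
        · intro i _
          cases hx : x i with
          | none =>
            simp only [wt]
            have e1 := mul_le_mul_of_nonneg_left (h2 i) hu0
            have e2 : 0 ≤ (Fintype.card κ : ℝ) * (g i) ^ 2 * (1 - 2 * ((Fintype.card κ : ℝ) * g i)) :=
              mul_nonneg (by positivity) (by linarith [hug1 i])
            nlinarith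
          | some k =>
            simp only [wt]
            nlinarith [hA0 i, h0 i, h1 i, mul_nonneg (hA0 i) (h0 i)]

end

end Pool.Agent.H312R2.RG
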