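import Pool.Agent.H312R2.RG.V2b
import Pool.Agent.H312R2.RG.V1
import Pool.Agent.H312R2.RG.F

set_option autoImplicit false
set_option linter.unusedVariables false
set_option linter.unusedSectionVars false

/-! TEAM RG, task V2 (helper398): class sums with the weight `Phi * Lambda` of a function of the colouring. -/

open Finset Filter

namespace Pool.Agent.H312R2.RG

open Pool.Agent.H378R2 Pool.Agent.H398R2.BV
open Pool.Agent.H256R2.SC (Col)

section
variable {n : ℕ} {κ : Type} [Fintype κ] [DecidableEq κ]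

theorem totient_prod_emb (PP : Finset ℕ) (hP : ∀ p ∈ PP, p.Prime) (s : Finset (Fin PP.card)) :
    (((∏ i ∈ s, Pool.Agent.H256R2.SC.emb PP i).totient : ℕ) : ℝ) =
      ∏ i ∈ s, (((Pool.Agent.H256R2.SC.emb PP i : ℕ) : ℝ) - 1) := by
  classical
  induction s using Finset.induction_on with
  | empty => simp
  | insert a s ha ih =>
    have hap := hP _ (Pool.Agent.H256R2.SC.emb_mem PP a)
    rw [prod_insert ha, prod_insert ha, Nat.totient_mul, Nat.cast_mul, ih, Nat.totient_prime hap,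
      Nat.cast_sub hap.one_le, Nat.cast_one]
    apply Nat.Coprime.prod_right
    intro i hi
    apply Pool.Agent.H256R2.SC.emb_coprime hP
    rintro rfl
    exact ha hi

theorem nu_gQ (PP : Finset ℕ) (hP : ∀ p ∈ PP, p.Prime) (D : Col PP.card κ) :
    Pool.Agent.H256R2.SC.nu (gQ PP) D = 1 / ((Pool.Agent.H256R2.SC.qn PP D).totient : ℝ) := by
  unfold Pool.Agent.H256R2.SC.nu Pool.Agent.H256R2.SC.qn
  rw [Pool.Agent.H256R2.SC.prod_nu1, totient_prod_emb PP hP]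
  unfold gQ
  rw [Finset.prod_div_distrib, Finset.prod_const_one]

theorem gQ_nonneg (PP : Finset ℕ) (hP : ∀ p ∈ PP, p.Prime) (i : Fin PP.card) : 0 ≤ gQ PP i := by
  unfold gQ
  have h : (1 : ℝ) ≤ ((Pool.Agent.H256R2.SC.emb PP i : ℕ) : ℝ) := by
    exact_mod_cast (hP _ (Pool.Agent.H256R2.SC.emb_mem PP i)).one_le
  apply div_nonneg (by norm_num)
  linarith

theorem supp_rst (s : Finset (Fin n)) (D : Col n κ) (h : ∀ i ∈ s, D i ≠ none) :
    Pool.Agent.H256R2.SC.supp (rst s D) = s := by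
  ext i
  rw [Pool.Agent.H256R2.SC.mem_supp]
  unfold rst
  by_cases hi : i ∈ s
  · rw [if_pos hi]
    exact ⟨fun _ => hi, fun _ => h i hi⟩
  · rw [if_neg hi]
    exact ⟨fun h => absurd rfl h, fun h => absurd h hi⟩

/-- representatives of the classes: properties -/
theorem rep_coprime (PP : Finset ℕ) (hP : ∀ p ∈ PP, p.Prime) (res : ℕ → κ → ℤ)
    (hinj : ∀ p ∈ PP, ∀ k l, k ≠ l → ¬ ((p : ℤ) ∣ res p k - res p l)) (N₀ b : ℕ) (hN₀ : 0 < N₀)
    (hbN : b.Coprime N₀) (m : Finset (Fin PP.card))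
    (hres : ∀ i, i ∉ m → ∀ k, ¬ (((Pool.Agent.H256R2.SC.emb PP i : ℕ) : ℤ) ∣
      res (Pool.Agent.H256R2.SC.emb PP i) k))
    (D : Col PP.card κ) (hD : D ∈ DD m) (β : ℕ) (hβ : β ≡ b [MOD N₀])
    (hβ2 : ∀ i, D i ≠ none → Pool.Agent.H256R2.SC.colr PP res (β : ℤ) i = D i) :
    β.Coprime (N₀ * Pool.Agent.H256R2.SC.qn PP D) := by
  rw [Nat.coprime_mul_iff_right]
  constructor
  · have := hβ.gcd_eq
    unfold Nat.Coprime at hbN ⊢
    rw [this]; exact hbN
  · unfold Pool.Agent.H256R2.SC.qn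
    apply Nat.Coprime.prod_right
    intro i hi
    rw [Nat.coprime_comm]
    apply (Nat.Prime.coprime_iff_not_dvd (hP _ (Pool.Agent.H256R2.SC.emb_mem PP i))).mpr
    intro hd
    rw [Pool.Agent.H256R2.SC.mem_supp] at hi
    obtain ⟨k, hk⟩ := Option.ne_none_iff_exists'.mp hi
    have h1 := hβ2 i hi
    rw [hk, Pool.Agent.H256R2.SC.colr_eq hinj] at h1
    have him : i ∉ m := fun h => hi (mem_DD.mp hD i h)
    apply hres i him k
    have h2 : ((Pool.Agent.H256R2.SC.emb PP i : ℕ) : ℤ) ∣ (β : ℤ) := by exact_mod_cast hd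
    have := dvd_sub h2 h1
    have e : (β : ℤ) - ((β : ℤ) - res (Pool.Agent.H256R2.SC.emb PP i) k) =
      res (Pool.Agent.H256R2.SC.emb PP i) k := by ring
    rwa [e] at this

theorem rep_rst (PP : Finset ℕ) (res : ℕ → κ → ℤ) (N₀ b : ℕ) (m : Finset (Fin PP.card))
    (bD : Col PP.card κ → ℕ) (hbD : ∀ D ∈ DD m, ∀ a : ℕ, ((a ≡ b [MOD N₀] ∧
        ∀ i, D i ≠ none → Pool.Agent.H256R2.SC.colr PP res (a : ℤ) i = D i) ↔
      a ≡ bD D [MOD N₀ * Pool.Agent.H256R2.SC.qn PP D])) (s : Finset (Fin PP.card))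
    (D : Col PP.card κ) (hD : D ∈ DD m) (hs : ∀ i ∈ s, D i ≠ none) (f1 : ℕ) (hf1 : f1 ∣ N₀) :
    bD D ≡ bD (rst s D) [MOD f1 * ∏ i ∈ s, Pool.Agent.H256R2.SC.emb PP i] := by
  have h1 := (hbD D hD (bD D)).2 (Nat.ModEq.refl _)
  have hr : rst s D ∈ DD m := by
    rw [mem_DD] at hD ⊢
    intro i hi
    unfold rst
    split_ifs
    · exact hD i hi
    · rfl
  have h2 := (hbD (rst s D) hr (bD D)).1 ⟨h1.1, by
    intro i hi
    have his : i ∈ s := by
      by_contra h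
      apply hi
      unfold rst
      rw [if_neg h]
    have : rst s D i = D i := by unfold rst; rw [if_pos his]
    rw [this]
    exact h1.2 i (hs i his)⟩
  unfold Pool.Agent.H256R2.SC.qn at h2
  rw [supp_rst s D hs] at h2
  exact h2.of_dvd (Nat.mul_dvd_mul_right hf1 _)


theorem exch (f' : Col n κ → ℝ) (H : Finset (Fin n) → Col n κ → ℂ) (𝒮 : Finset (Finset (Fin n)))
    (hS : ∀ D, f' D ≠ 0 → ∀ s, s ⊆ Pool.Agent.H256R2.SC.supp D → s.Nonempty → s ∈ 𝒮)
    (hS' : ∀ s ∈ 𝒮, s.Nonempty) :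
    ∑ D, ((f' D : ℝ) : ℂ) * ∑ s ∈ (Pool.Agent.H256R2.SC.supp D).powerset.filter (fun s => s.Nonempty), H s D =
      ∑ s ∈ 𝒮, ∑ D : Col n κ with (∀ i ∈ s, D i ≠ none), ((f' D : ℝ) : ℂ) * H s D := by
  simp_rw [Finset.sum_filter (s := (univ : Finset (Col n κ)))]
  rw [Finset.sum_comm]
  apply sum_congr rfl
  intro D _
  by_cases h0 : f' D = 0
  · rw [h0]
    simp
  · rw [mul_sum, ← sum_filter]
    apply sum_congr _ (fun _ _ => rfl)
    ext s
    rw [mem_filter, mem_filter, mem_powerset]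
    constructor
    · rintro ⟨h1, h2⟩
      exact ⟨hS D h0 s h1 h2, fun i hi => Pool.Agent.H256R2.SC.mem_supp.1 (h1 hi)⟩
    · rintro ⟨h1, h2⟩
      exact ⟨fun i hi => Pool.Agent.H256R2.SC.mem_supp.2 (h2 i hi), hS' s h1⟩

theorem prod_le_qq (PP : Finset ℕ) (hP : ∀ p ∈ PP, p.Prime) (D : Col PP.card κ)
    (s : Finset (Fin PP.card)) (hs : s ⊆ Pool.Agent.H256R2.SC.supp D) :
    ∏ i ∈ s, pP PP i ≤ Pool.Agent.H256R2.SC.qq (pP PP) D := by
  unfold Pool.Agent.H256R2.SC.qq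
  rw [Pool.Agent.H256R2.SC.prod_nu1]
  have h1 : ∀ i, (1 : ℝ) ≤ pP PP i := by
    intro i
    unfold pP
    exact_mod_cast (hP _ (Pool.Agent.H256R2.SC.emb_mem PP i)).one_le
  rw [← Finset.prod_sdiff hs]
  have h2 : (1 : ℝ) ≤ ∏ i ∈ Pool.Agent.H256R2.SC.supp D \ s, pP PP i := by
    rw [← Finset.prod_const_one (s := Pool.Agent.H256R2.SC.supp D \ s)]
    exact Finset.prod_le_prod (fun _ _ => zero_le_one) (fun i _ => h1 i)
  have h3 : (0 : ℝ) ≤ ∏ i ∈ s, pP PP i := Finset.prod_nonneg fun i _ => zero_le_one.trans (h1 i)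
  nlinarith

end

open Classical in
/-- Task V2 (uses class_iff, EPhi_prim, fourier) -/
theorem class_lam {κ : Type} [Fintype κ] [DecidableEq κ] (X : ℝ) (hX : 4 ≤ X) (PP : Finset ℕ) (hP : ∀ p ∈ PP, p.Prime) (res : ℕ → κ → ℤ)
    (hinj : ∀ p ∈ PP, ∀ k l, k ≠ l → ¬ ((p : ℤ) ∣ res p k - res p l)) (N₀ b : ℕ) (hN₀ : 0 < N₀)
    (hbN : b.Coprime N₀) (hPu : ∀ i, (Fintype.card κ : ℝ) * gQ PP i < 1)
    (m : Finset (Fin PP.card)) (hm : ∀ i, i ∈ m ↔ (Pool.Agent.H256R2.SC.emb PP i) ∣ N₀)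
    (hb : ∀ i ∈ m, ∀ k, ¬ (((Pool.Agent.H256R2.SC.emb PP i : ℕ) : ℤ) ∣
      (b : ℤ) - res (Pool.Agent.H256R2.SC.emb PP i) k))
    (hres : ∀ i, i ∉ m → ∀ k, ¬ (((Pool.Agent.H256R2.SC.emb PP i : ℕ) : ℤ) ∣
      res (Pool.Agent.H256R2.SC.emb PP i) k))
    (G : Col PP.card κ → ℝ) (Q B : ℝ) (hG : Pool.Agent.H256R2.SC.Lv (pP PP) Q B G)
    (hsize : (N₀ : ℝ) * Q ≤ X) :
    |∑ n ∈ (Icc 1 ⌊3 * X⌋₊).filter (fun n => n ≡ b [MOD N₀]),
        Phi (n / X) * ArithmeticFunction.vonMangoldt n *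
          G (Pool.Agent.H256R2.SC.colr PP res (n : ℤ)) -
      (∑ n ∈ (Icc 1 ⌊3 * X⌋₊).filter (fun n => n ≡ b [MOD N₀]),
        Phi (n / X) * ArithmeticFunction.vonMangoldt n) *
        Pool.Agent.H256R2.SC.EE (gQ PP) (fun x => G (cut m x))| ≤
      (1 / (Nat.totient N₀ : ℝ)) *
        ∑ s ∈ (univ : Finset (Fin PP.card)).powerset.filter
          (fun s => s.Nonempty ∧ Disjoint s m ∧ ∏ i ∈ s, pP PP i ≤ Q),
          Pool.Agent.H256R2.SC.EE (gQ PP) (fun x => |G (cut m x)| * fw (gQ PP) s x) *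
            ∑ f ∈ N₀.divisors, Pool.Agent.H378R2.LSBV.TT X (f * ∏ i ∈ s, Pool.Agent.H256R2.SC.emb PP i) +
      B * (8 * (Real.log (3 * X)) ^ 2) := by
  obtain ⟨f, hf1, hf2, hf3⟩ := hG
  have hex : ∀ D : Col PP.card κ, ∃ bD : ℕ, D ∈ DD m → ∀ a : ℕ, ((a ≡ b [MOD N₀] ∧
        ∀ i, D i ≠ none → Pool.Agent.H256R2.SC.colr PP res (a : ℤ) i = D i) ↔
          a ≡ bD [MOD N₀ * Pool.Agent.H256R2.SC.qn PP D]) := by
    intro D
    by_cases hD : D ∈ DD m
    · obtain ⟨bD, h⟩ := class_iff PP hP res hinj N₀ b hN₀ D (fun i hi h =>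
        hi ((mem_DD.mp hD) i ((hm i).mpr h)))
      exact ⟨bD, fun _ => h⟩
    · exact ⟨0, fun h => absurd h hD⟩
  choose bD hbD using hex
  have hGc : ∀ x, G (cut m x) = ∑ D ∈ (DD m : Finset (Col PP.card κ)), f D * Pool.Agent.H256R2.SC.ind D x := by
    intro x
    rw [hf1, G_cut]
  rw [class_expand PP hP res hinj N₀ b hN₀ m hm hb f G hf1 bD hbD _
    (fun n => Phi (n / X) * ArithmeticFunction.vonMangoldt n), EE_cut_eq (gQ PP) m f G hf1]
  set L : ℝ := ∑ n ∈ Icc 1 ⌊3 * X⌋₊, Phi (n / X) * ArithmeticFunction.vonMangoldt n with hL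
  have hcls : ∀ q β : ℕ, ∑ n ∈ (Icc 1 ⌊3 * X⌋₊).filter (fun n => n ≡ β [MOD q]),
      Phi (n / X) * ArithmeticFunction.vonMangoldt n = EPhi X q β + (1 / (q.totient : ℝ)) * L := by
    intro q β
    unfold EPhi
    rw [hL]
    ring
  simp only [hcls]
  have hcop : ∀ D : Col PP.card κ, D ∈ DD m → Nat.Coprime N₀ (Pool.Agent.H256R2.SC.qn PP D) := by
    intro D hD
    apply coprime_qn PP hP
    intro i hi h
    exact hi ((mem_DD.mp hD) i ((hm i).mpr h))
  have e1 : ∑ D ∈ (DD m : Finset (Col PP.card κ)), f D * (EPhi X (N₀ * Pool.Agent.H256R2.SC.qn PP D) (bD D) +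
        (1 / ((N₀ * Pool.Agent.H256R2.SC.qn PP D).totient : ℝ)) * L) -
      (EPhi X N₀ b + (1 / (N₀.totient : ℝ)) * L) *
        ∑ D ∈ (DD m : Finset (Col PP.card κ)), f D * Pool.Agent.H256R2.SC.nu (gQ PP) D =
      ∑ D ∈ (DD m : Finset (Col PP.card κ)), f D * (EPhi X (N₀ * Pool.Agent.H256R2.SC.qn PP D) (bD D) -
        EPhi X N₀ b * (1 / ((Pool.Agent.H256R2.SC.qn PP D).totient : ℝ))) := by
    rw [mul_sum, ← sum_sub_distrib]
    apply sum_congr rfl
    intro D hD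
    rw [nu_gQ PP hP, Nat.totient_mul (hcop D hD)]
    push_cast
    rw [one_div, mul_inv]
    ring
  rw [e1]
  set P : Finset (Fin PP.card) → ℕ := fun s => ∏ i ∈ s, Pool.Agent.H256R2.SC.emb PP i with hPdef
  set H : Finset (Fin PP.card) → Col PP.card κ → ℂ := fun s D =>
    ((Pool.Agent.H256R2.SC.nu (gQ PP) D : ℝ) : ℂ) * ∑ f1 ∈ N₀.divisors, ∑ ψ ∈ Prim (f1 * P s),
      ψ ((bD D : ZMod (f1 * P s))⁻¹) * psiPhi ψ X with hH
  set f' : Col PP.card κ → ℝ := fun D => if D ∈ DD m then f D else 0 with hf'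
  set 𝒮 : Finset (Finset (Fin PP.card)) := (univ : Finset (Fin PP.card)).powerset.filter
          (fun s => s.Nonempty ∧ Disjoint s m ∧ ∏ i ∈ s, pP PP i ≤ Q) with h𝒮
  set R : Col PP.card κ → ℂ := fun D => (1 / (N₀.totient : ℂ)) *
    ∑ s ∈ (Pool.Agent.H256R2.SC.supp D).powerset.filter (fun s => s.Nonempty), H s D with hR
  have hlog : 0 ≤ Real.log (3 * X) := Real.log_nonneg (by linarith)
  have herr : ∀ D : Col PP.card κ, D ∈ DD m → ‖((f D * (EPhi X (N₀ * Pool.Agent.H256R2.SC.qn PP D) (bD D) -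
        EPhi X N₀ b * (1 / ((Pool.Agent.H256R2.SC.qn PP D).totient : ℝ))) : ℝ) : ℂ) -
        (f D : ℂ) * R D‖ ≤ |f D| * (8 * (Real.log (3 * X)) ^ 2) := by
    intro D hD
    by_cases h0 : f D = 0
    · rw [h0]; simp
    have hq := qn_pos PP hP D
    have hrep := (hbD D hD (bD D)).2 (Nat.ModEq.refl _)
    have hco := rep_coprime PP hP res hinj N₀ b hN₀ hbN m hres D hD (bD D) hrep.1 hrep.2
    have hsz : ((N₀ * Pool.Agent.H256R2.SC.qn PP D : ℕ) : ℝ) ≤ X := by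
      rw [Nat.cast_mul, Pool.Agent.H256R2.SC.qn_cast]
      exact le_trans (mul_le_mul_of_nonneg_left (hf3 D h0) (Nat.cast_nonneg _)) hsize
    have h1 := perD X hX N₀ b (Pool.Agent.H256R2.SC.qn PP D) (bD D) hN₀ hq (hcop D hD) hbN hco hrep.1 hsz
    have h2 : ∑ f ∈ (N₀ * Pool.Agent.H256R2.SC.qn PP D).divisors.filter (fun f => ¬ f ∣ N₀),
        ∑ ψ ∈ Prim f, ψ ((bD D : ZMod f)⁻¹) * psiPhi ψ X =
        ∑ s ∈ (Pool.Agent.H256R2.SC.supp D).powerset.filter (fun s => s.Nonempty),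
          ∑ f ∈ N₀.divisors, ∑ ψ ∈ Prim (f * P s), ψ ((bD D : ZMod (f * P s))⁻¹) * psiPhi ψ X := by
      exact sum_div_not (fun i => Pool.Agent.H256R2.SC.emb PP i) (Pool.Agent.H256R2.SC.supp D)
        (fun i _ => hP _ (Pool.Agent.H256R2.SC.emb_mem PP i))
        (fun i _ j _ h => (Pool.Agent.H256R2.SC.emb PP).injective h) N₀ hN₀
        (fun i hi h => (Pool.Agent.H256R2.SC.mem_supp.1 hi) ((mem_DD.mp hD) i ((hm i).mpr h)))
        (fun f => ∑ ψ ∈ Prim f, ψ ((bD D : ZMod f)⁻¹) * psiPhi ψ X)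
    rw [h2] at h1
    have h3 : R D = (1 / (N₀.totient : ℂ)) *
        ((1 / ((Pool.Agent.H256R2.SC.qn PP D).totient : ℝ) : ℝ) : ℂ) *
        ∑ s ∈ (Pool.Agent.H256R2.SC.supp D).powerset.filter (fun s => s.Nonempty),
          ∑ f ∈ N₀.divisors, ∑ ψ ∈ Prim (f * P s), ψ ((bD D : ZMod (f * P s))⁻¹) * psiPhi ψ X := by
      rw [hR]
      simp only [hH]
      rw [← mul_sum, nu_gQ PP hP]
      ring
    rw [h3]
    have e2 : ((f D * (EPhi X (N₀ * Pool.Agent.H256R2.SC.qn PP D) (bD D) -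
        EPhi X N₀ b * (1 / ((Pool.Agent.H256R2.SC.qn PP D).totient : ℝ))) : ℝ) : ℂ) =
        (f D : ℂ) * ((EPhi X (N₀ * Pool.Agent.H256R2.SC.qn PP D) (bD D) -
        EPhi X N₀ b * (1 / ((Pool.Agent.H256R2.SC.qn PP D).totient : ℝ)) : ℝ) : ℂ) := by
      rw [Complex.ofReal_mul]
    rw [e2, ← mul_sub, norm_mul, Complex.norm_real, Real.norm_eq_abs]
    exact mul_le_mul_of_nonneg_left h1 (abs_nonneg _)
  have hff : ∀ D, (f' D : ℝ) ≠ 0 → D ∈ DD m ∧ f D ≠ 0 ∧ f' D = f D := by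
    intro D h
    simp only [hf'] at h ⊢
    by_cases hD : D ∈ (DD m : Finset (Col PP.card κ))
    · rw [if_pos hD] at h ⊢
      exact ⟨hD, h, rfl⟩
    · rw [if_neg hD] at h
      exact absurd rfl h
  -- main part
  have hmainR : ‖∑ D ∈ (DD m : Finset (Col PP.card κ)), (f D : ℂ) * R D‖ ≤
      (1 / (Nat.totient N₀ : ℝ)) * ∑ s ∈ 𝒮,
        Pool.Agent.H256R2.SC.EE (gQ PP) (fun x => |G (cut m x)| * fw (gQ PP) s x) *
            ∑ f ∈ N₀.divisors, Pool.Agent.H378R2.LSBV.TT X (f * P s) := by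
    have e3 : ∑ D ∈ (DD m : Finset (Col PP.card κ)), (f D : ℂ) * R D =
        (1 / (N₀.totient : ℂ)) * ∑ D, ((f' D : ℝ) : ℂ) *
          ∑ s ∈ (Pool.Agent.H256R2.SC.supp D).powerset.filter (fun s => s.Nonempty), H s D := by
      rw [mul_sum, ← Finset.sum_subset (Finset.subset_univ (DD m : Finset (Col PP.card κ)))]
      · apply sum_congr rfl
        intro D hD
        simp only [hf', hR]
        rw [if_pos hD]
        ring
      · intro D _ hD
        simp only [hf']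
        rw [if_neg hD]
        simp
    have hS : ∀ D, f' D ≠ 0 → ∀ s, s ⊆ Pool.Agent.H256R2.SC.supp D → s.Nonempty → s ∈ 𝒮 := by
      intro D hD s hs hne
      obtain ⟨hD1, hD2, hD3⟩ := hff D hD
      rw [h𝒮, mem_filter, mem_powerset]
      refine ⟨Finset.subset_univ _, hne, ?_, ?_⟩
      · rw [Finset.disjoint_left]
        intro i hi him
        exact (Pool.Agent.H256R2.SC.mem_supp.1 (hs hi)) (mem_DD.mp hD1 i him)
      · exact (prod_le_qq PP hP D s hs).trans (hf3 D hD2)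
    rw [e3, exch f' H 𝒮 hS (fun s hs => by
      rw [h𝒮, mem_filter] at hs
      exact hs.2.1), norm_mul, norm_div, norm_one, Complex.norm_natCast]
    apply mul_le_mul_of_nonneg_left _ (by positivity)
    refine (norm_sum_le _ _).trans (sum_le_sum fun s hs => ?_)
    -- one `s`
    have e4 : ∑ D : Col PP.card κ with (∀ i ∈ s, D i ≠ none), ((f' D : ℝ) : ℂ) * H s D =
        ∑ f1 ∈ N₀.divisors, ∑ ψ ∈ Prim (f1 * P s), psiPhi ψ X *
          ∑ D : Col PP.card κ with (∀ i ∈ s, D i ≠ none),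
            ((f' D * Pool.Agent.H256R2.SC.nu (gQ PP) D : ℝ) : ℂ) *
              ψ ((bD (rst s D) : ZMod (f1 * P s))⁻¹) := by
      have e5 : ∀ D ∈ (univ : Finset (Col PP.card κ)).filter (fun D => ∀ i ∈ s, D i ≠ none),
          ((f' D : ℝ) : ℂ) * H s D = ∑ f1 ∈ N₀.divisors, ∑ ψ ∈ Prim (f1 * P s), psiPhi ψ X *
            (((f' D * Pool.Agent.H256R2.SC.nu (gQ PP) D : ℝ) : ℂ) *
              ψ ((bD (rst s D) : ZMod (f1 * P s))⁻¹)) := by
        intro D hD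
        rw [mem_filter] at hD
        by_cases h0 : f' D = 0
        · rw [h0]; simp
        obtain ⟨hD1, hD2, hD3⟩ := hff D h0
        simp only [hH]
        rw [mul_sum, mul_sum]
        apply sum_congr rfl
        intro f1 hf1'
        rw [mul_sum, mul_sum]
        apply sum_congr rfl
        intro ψ _
        have h5 : bD D ≡ bD (rst s D) [MOD f1 * P s] :=
          rep_rst PP res N₀ b m bD hbD s D hD1 hD.2 f1 (Nat.dvd_of_mem_divisors hf1')
        have h6 : (bD D : ZMod (f1 * P s)) = (bD (rst s D) : ZMod (f1 * P s)) :=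
          (ZMod.natCast_eq_natCast_iff _ _ _).2 h5
        rw [h6]
        push_cast
        ring
      rw [sum_congr rfl e5, sum_comm]
      apply sum_congr rfl
      intro f1 _
      rw [sum_comm]
      apply sum_congr rfl
      intro ψ _
      rw [mul_sum]
    rw [e4, mul_sum]
    refine (norm_sum_le _ _).trans (sum_le_sum fun f1 _ => ?_)
    unfold Pool.Agent.H378R2.LSBV.TT
    rw [mul_sum]
    refine (norm_sum_le _ _).trans (sum_le_sum fun ψ _ => ?_)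
    rw [norm_mul, mul_comm]
    apply mul_le_mul_of_nonneg_right _ (norm_nonneg _)
    have hG' : ∀ x, G (cut m x) = ∑ D, f' D * Pool.Agent.H256R2.SC.ind D x := by
      intro x
      rw [hGc x, ← Finset.sum_subset (Finset.subset_univ (DD m : Finset (Col PP.card κ)))]
      · apply sum_congr rfl
        intro D hD
        simp only [hf']
        rw [if_pos hD]
      · intro D _ hD
        simp only [hf']
        rw [if_neg hD, zero_mul]
    exact fourier (gQ PP) (gQ_nonneg PP hP) hPu f' (fun x => G (cut m x)) hG' s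
      (fun D => ψ ((bD D : ZMod (f1 * P s))⁻¹)) (fun D => DirichletCharacter.norm_le_one _ _)
  -- conclusion
  have hfin : |∑ D ∈ (DD m : Finset (Col PP.card κ)), f D * (EPhi X (N₀ * Pool.Agent.H256R2.SC.qn PP D) (bD D) -
        EPhi X N₀ b * (1 / ((Pool.Agent.H256R2.SC.qn PP D).totient : ℝ)))| =
      ‖∑ D ∈ (DD m : Finset (Col PP.card κ)), (((f D * (EPhi X (N₀ * Pool.Agent.H256R2.SC.qn PP D) (bD D) -
        EPhi X N₀ b * (1 / ((Pool.Agent.H256R2.SC.qn PP D).totient : ℝ))) : ℝ) : ℂ) - (f D : ℂ) * R D) +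
        ∑ D ∈ (DD m : Finset (Col PP.card κ)), (f D : ℂ) * R D‖ := by
    rw [← sum_add_distrib]
    simp only [sub_add_cancel]
    rw [← Complex.ofReal_sum, Complex.norm_real, Real.norm_eq_abs]
  rw [hfin, add_comm ((1 / (Nat.totient N₀ : ℝ)) * _) _]
  refine (norm_add_le _ _).trans (add_le_add ?_ hmainR)
  refine (norm_sum_le _ _).trans ((sum_le_sum herr).trans ?_)
  rw [← sum_mul]
  apply mul_le_mul_of_nonneg_right _ (by positivity)
  exact (Finset.sum_le_sum_of_subset_of_nonneg (Finset.subset_univ _) (fun _ _ _ => abs_nonneg _)).trans hf2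

end Pool.Agent.H312R2.RG
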