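import Mathlib

set_option autoImplicit false

/-! Task RG-V2 (helper398), part a: divisors of a product with distinct primes. -/

open Finset

namespace Pool.Agent.H312R2.RG

theorem sum_divisors_mul_prime {M : Type*} [AddCommMonoid M] (N p : ℕ) (hN : 0 < N) (hp : p.Prime)
    (hpN : ¬ p ∣ N) (F : ℕ → M) :
    ∑ f ∈ (N * p).divisors, F f = ∑ f ∈ N.divisors, F f + ∑ f ∈ N.divisors, F (f * p) := by
  classical
  have h1 : (N * p).divisors = N.divisors ∪ N.divisors.image (fun f => f * p) := by
    ext f
    rw [mem_union, mem_image, Nat.mem_divisors, Nat.mem_divisors]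
    constructor
    · rintro ⟨hd, h0⟩
      by_cases hpf : p ∣ f
      · right
        obtain ⟨g, rfl⟩ := hpf
        refine ⟨g, ?_, mul_comm _ _⟩
        rw [Nat.mem_divisors]
        refine ⟨?_, hN.ne'⟩
        rw [mul_comm N p] at hd
        exact (Nat.mul_dvd_mul_iff_left hp.pos).1 hd
      · left
        refine ⟨?_, hN.ne'⟩
        have hc : Nat.Coprime f p := (Nat.coprime_comm.1 ((Nat.Prime.coprime_iff_not_dvd hp).2 hpf))
        exact hc.dvd_of_dvd_mul_right hd
    · rintro (⟨hd, _⟩ | ⟨g, hg, rfl⟩)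
      · exact ⟨hd.mul_right p, by have := hp.pos; positivity⟩
      · rw [Nat.mem_divisors] at hg
        exact ⟨Nat.mul_dvd_mul_right hg.1 p, by have := hp.pos; positivity⟩
  have h2 : Disjoint N.divisors (N.divisors.image (fun f => f * p)) := by
    rw [Finset.disjoint_left]
    intro f hf hf2
    rw [mem_image] at hf2
    obtain ⟨g, _, rfl⟩ := hf2
    rw [Nat.mem_divisors] at hf
    exact hpN ((dvd_mul_left p g).trans hf.1)
  rw [h1, sum_union h2, sum_image]
  intro a _ b _ hab
  exact Nat.eq_of_mul_eq_mul_right hp.pos hab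

theorem sum_div_prod {M ι : Type*} [AddCommMonoid M] [DecidableEq ι] (e : ι → ℕ) (T : Finset ι)
    (he : ∀ i ∈ T, (e i).Prime) (hinj : ∀ i ∈ T, ∀ j ∈ T, e i = e j → i = j) (N : ℕ) (hN : 0 < N)
    (hc : ∀ i ∈ T, ¬ e i ∣ N) (F : ℕ → M) :
    ∑ f ∈ (N * ∏ i ∈ T, e i).divisors, F f =
      ∑ s ∈ T.powerset, ∑ f ∈ N.divisors, F (f * ∏ i ∈ s, e i) := by
  induction T using Finset.induction_on generalizing F with
  | empty => simp
  | insert a T ha ih =>
    have hap := he a (mem_insert_self _ _)
    have h1 : N * ∏ i ∈ insert a T, e i = (N * ∏ i ∈ T, e i) * e a := by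
      rw [prod_insert ha]; ring
    have hpos : 0 < N * ∏ i ∈ T, e i :=
      Nat.mul_pos hN (prod_pos fun i hi => (he i (mem_insert_of_mem hi)).pos)
    have h2 : ¬ e a ∣ N * ∏ i ∈ T, e i := by
      intro hd
      rcases hap.dvd_mul.1 hd with h | h
      · exact hc a (mem_insert_self _ _) h
      · rw [Prime.dvd_finsetProd_iff hap.prime] at h
        obtain ⟨i, hi, hdi⟩ := h
        have h3 := (Nat.prime_dvd_prime_iff_eq hap (he i (mem_insert_of_mem hi))).1 hdi
        have h4 := hinj a (mem_insert_self _ _) i (mem_insert_of_mem hi) h3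
        subst h4
        exact ha hi
    rw [h1, sum_divisors_mul_prime _ _ hpos hap h2]
    have ih' := fun F => ih (fun i hi => he i (mem_insert_of_mem hi))
      (fun i hi j hj => hinj i (mem_insert_of_mem hi) j (mem_insert_of_mem hj))
      (fun i hi => hc i (mem_insert_of_mem hi)) F
    rw [ih' F, ih' (fun f => F (f * e a)), sum_powerset_insert ha]
    congr 1
    apply sum_congr rfl
    intro s hs
    apply sum_congr rfl
    intro f _
    have has : a ∉ s := fun h => ha (mem_powerset.1 hs h)
    rw [prod_insert has]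
    congr 1
    ring

end Pool.Agent.H312R2.RG
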