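import Pool.Agent.H312R2.RG.VW1
import Pool.Agent.H312R2.RG.V1
import Pool.Agent.H312R2.RG.V2

set_option autoImplicit false

/-! TEAM RG, task VW, part 2: class sums -/

open Finset Filter

namespace Pool.Agent.H312R2.RG

open Pool.Agent.H378R2
open Pool.Agent.H378R2.LSBV (QQ mem_QQ TT)
open Pool.Agent.H256R2.SC (Col emb colr Lv emb_mem emb_surj colr_eq qq wt_nonneg)

/-- the sieving primes dividing `N` -/
noncomputable def mq (PP : Finset ℕ) (N : ℕ) : Finset (Fin PP.card) :=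
  univ.filter (fun i => (emb PP i : ℕ) ∣ N)

/-- the residues killing the shifts `k` -/
def resU (U : Finset ℕ) (s : ℤ) : ℕ → ↥U → ℤ := fun _ k => s - ((k : ℕ) : ℤ)

/-- the sieving primes are medium -/
def MedP (ps : ℕ) (y : ℝ) (PP : Finset ℕ) : Prop :=
  ∀ p ∈ PP, p.Prime ∧ y < p ∧ p ≠ ps

theorem natAbs_lt {a b : ℕ} {y : ℝ} (ha : (a : ℝ) ≤ y) (hb : (b : ℝ) ≤ y) :
    |((a : ℤ) - b : ℤ)| ≤ ⌊y⌋₊ := by
  have h1 : a ≤ ⌊y⌋₊ := Nat.le_floor ha
  have h2 : b ≤ ⌊y⌋₊ := Nat.le_floor hb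
  rw [abs_le]
  constructor <;> omega

theorem not_dvd_diff {a b p : ℕ} {y : ℝ} (ha : (a : ℝ) ≤ y) (hb : (b : ℝ) ≤ y) (hp : y < p) (hab : a ≠ b) :
    ¬ ((p : ℤ) ∣ (a : ℤ) - b) := by
  intro h
  have hne : (a : ℤ) - b ≠ 0 := by
    intro h0
    apply hab
    omega
  have h1 := Int.le_of_dvd (abs_pos.2 hne) ((dvd_abs _ _).2 h)
  have h2 := natAbs_lt ha hb
  have h3 : (p : ℤ) ≤ ⌊y⌋₊ := h1.trans h2
  have h4 : p ≤ ⌊y⌋₊ := by exact_mod_cast h3
  have hy : 0 ≤ y := le_trans (Nat.cast_nonneg a) ha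
  have h5 : (p : ℝ) ≤ y := (Nat.le_floor_iff hy).1 h4
  linarith

theorem resU_inj {U : Finset ℕ} {y : ℝ} (hU : ∀ k ∈ U, (k : ℝ) ≤ y) (s : ℤ) {p : ℕ} (hp : y < p)
    (k l : ↥U) (hkl : k ≠ l) : ¬ ((p : ℤ) ∣ resU U s p k - resU U s p l) := by
  have h1 : resU U s p k - resU U s p l = ((l : ℕ) : ℤ) - ((k : ℕ) : ℤ) := by
    unfold resU; ring
  rw [h1]
  exact not_dvd_diff (hU l l.2) (hU k k.2) hp (fun h => hkl (Subtype.ext h.symm))

/-- shifting the argument of the colouring -/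
theorem colr_shift {U : Finset ℕ} {y : ℝ} (hU : ∀ k ∈ U, (k : ℝ) ≤ y) {PP : Finset ℕ}
    (hPP : ∀ p ∈ PP, y < (p : ℝ)) (a s : ℤ) :
    colr PP (resU U 0) (a - s) = colr PP (resU U s) a := by
  have hi1 : ∀ p ∈ PP, ∀ k l : ↥U, k ≠ l → ¬ ((p : ℤ) ∣ resU U 0 p k - resU U 0 p l) :=
    fun p hp k l => resU_inj hU 0 (hPP p hp) k l
  have hi2 : ∀ p ∈ PP, ∀ k l : ↥U, k ≠ l → ¬ ((p : ℤ) ∣ resU U s p k - resU U s p l) :=
    fun p hp k l => resU_inj hU s (hPP p hp) k l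
  funext i
  have hk : ∀ k : ↥U, colr PP (resU U 0) (a - s) i = some k ↔ colr PP (resU U s) a i = some k := by
    intro k
    rw [colr_eq hi1, colr_eq hi2]
    have h1 : a - s - resU U 0 (emb PP i) k = a - resU U s (emb PP i) k := by
      unfold resU; ring
    rw [h1]
  cases h1 : colr PP (resU U 0) (a - s) i with
  | none =>
    cases h2 : colr PP (resU U s) a i with
    | none => rfl
    | some k =>
      have := (hk k).2 h2
      rw [h1] at this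
      exact absurd this (by simp)
  | some k => exact ((hk k).1 h1).symm

/-- class sums with the weight `Phi` -/
theorem classA_of {K : ℕ} (X : ℝ) (hX : 4 ≤ X) (t : Fin K → ℕ) (U : Finset ℕ) (ps : ℕ) (S : Finset ℕ) (y : ℝ)
    (PP : Finset ℕ) (hPP : MedP ps y PP) (hyy : (yy X : ℝ) ≤ y) (ht : ∀ j, (t j : ℝ) ≤ y)
    (hU : ∀ k ∈ U, (k : ℝ) ≤ y) (htU : ∀ j, t j ∉ U) (G : Col PP.card ↥U → ℝ) (Q₁ B₁ : ℝ) (hQ₁ : 0 ≤ Q₁)
    (hG : Lv (pP PP) Q₁ B₁ G) (hsize : (WW X S ps : ℝ) * X ^ (1 / 100 : ℝ) * Q₁ ≤ X) :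
    ClassA X (WW X S ps) ps t (fun a => G (colr PP (resU U 0) a)) (Pool.Agent.H256R2.SC.EE (gP PP) G)
      (fun q => MPhi X * (1 / (WW X S ps : ℝ)) * (1 / (q : ℝ)) *
        |Pool.Agent.H256R2.SC.EE (gP PP) (fun x => G (cut (mq PP (WW X S ps * q)) x)) -
          Pool.Agent.H256R2.SC.EE (gP PP) G| + 5 * B₁) := by
  intro q b hq hb
  rw [mem_QQ] at hq
  obtain ⟨⟨hq1, hqR⟩, hsq, hcop⟩ := hq
  set W := WW X S ps with hW
  have hWpos : 0 < W := WW_pos X S ps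
  have hWr : (0 : ℝ) < W := by exact_mod_cast hWpos
  have hqr : (0 : ℝ) < q := by exact_mod_cast hq1
  have hN₀ : 0 < W * q := Nat.mul_pos hWpos hq1
  have hqX : (q : ℝ) ≤ X ^ (1 / 100 : ℝ) := by
    rw [← exp_two_LL X (by linarith)]
    exact (Nat.le_floor_iff (Real.exp_pos _).le).1 hqR
  have h1 := class_phi X hX PP (fun p hp => (hPP p hp).1) (resU U 0)
    (fun p hp k l => resU_inj hU 0 (hPP p hp).2.1 k l) (W * q) b hN₀ (mq PP (W * q))
    (fun i => by unfold mq; rw [mem_filter]; exact ⟨fun h => h.2, fun h => ⟨mem_univ _, h⟩⟩)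
    (by
      intro i hi k hd
      unfold mq at hi
      rw [mem_filter] at hi
      obtain ⟨hp, hyp, _⟩ := hPP _ (emb_mem PP i)
      rcases (Nat.Prime.dvd_mul hp).1 hi.2 with h | h
      · have h2 := (mem_PW.1 ((prime_dvd_WW hp).1 h)).1
        have h3 : ((emb PP i : ℕ) : ℝ) ≤ yy X := by exact_mod_cast h2
        linarith
      · obtain ⟨j, hj⟩ := hb _ hp h
        have h2 : ((emb PP i : ℕ) : ℤ) ∣ (t j : ℤ) - ((k : ℕ) : ℤ) := by
          have h3 := dvd_sub hj hd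
          have h4 : (b : ℤ) + t j - ((b : ℤ) - resU U 0 (emb PP i) k) = (t j : ℤ) - ((k : ℕ) : ℤ) := by
            unfold resU; ring
          rwa [h4] at h3
        exact not_dvd_diff (ht j) (hU k k.2) hyp (fun h => htU j (h ▸ k.2)) h2)
    G Q₁ B₁ hG (by
      push_cast
      calc (W : ℝ) * q * Q₁ ≤ W * X ^ (1 / 100 : ℝ) * Q₁ := by gcongr
        _ ≤ X := hsize)
  set Ec := Pool.Agent.H256R2.SC.EE (gP PP) (fun x => G (cut (mq PP (W * q)) x)) with hEc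
  set E0 := Pool.Agent.H256R2.SC.EE (gP PP) G with hE0
  have hMnn : 0 ≤ MPhi X := by
    unfold MPhi
    exact Finset.sum_nonneg fun n _ => Phi_nonneg _
  have h2 : ((W * q : ℕ) : ℝ) = (W : ℝ) * q := by push_cast; ring
  rw [h2] at h1
  have h3 : MPhi X * (1 / ((W : ℝ) * q)) = MPhi X * (1 / (W : ℝ)) * (1 / (q : ℝ)) := by
    field_simp
  rw [h3] at h1
  set P := MPhi X * (1 / (W : ℝ)) * (1 / (q : ℝ)) with hP
  have hPnn : 0 ≤ P := by rw [hP]; positivity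
  have h4 : E0 * (MPhi X * (1 / (W : ℝ))) * (1 / (q : ℝ)) = P * E0 := by rw [hP]; ring
  have h5 : ∑ n ∈ (Icc 1 ⌊3 * X⌋₊).filter (fun n => n ≡ b [MOD W * q]), Phi (n / X) *
      (fun a => G (colr PP (resU U 0) a)) (n : ℤ) =
      ∑ n ∈ (Icc 1 ⌊3 * X⌋₊).filter (fun n => n ≡ b [MOD W * q]), Phi (n / X) *
        G (colr PP (resU U 0) (n : ℤ)) := rfl
  rw [h5]
  have h6 : ∑ n ∈ (Icc 1 ⌊3 * X⌋₊).filter (fun n => n ≡ b [MOD W * q]), Phi (n / X) *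
        G (colr PP (resU U 0) (n : ℤ)) - E0 * (MPhi X * (1 / (W : ℝ))) * (1 / (q : ℝ)) =
      (∑ n ∈ (Icc 1 ⌊3 * X⌋₊).filter (fun n => n ≡ b [MOD W * q]), Phi (n / X) *
        G (colr PP (resU U 0) (n : ℤ)) - P * Ec) + P * (Ec - E0) := by
    rw [h4]; ring
  rw [h6]
  refine (abs_add_le _ _).trans ?_
  rw [abs_mul, abs_of_nonneg hPnn]
  linarith

open Classical in
/-- the error of the class sums with the weight `Phi * Lambda` -/
noncomputable def errB (X : ℝ) (W : ℕ) (PP : Finset ℕ) {κ : Type} [Fintype κ] [DecidableEq κ]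
    (G : Col PP.card κ → ℝ) (Q₁ B₁ : ℝ) (Bc : ℕ → ℕ) (q : ℕ) : ℝ :=
  |EPhi X (W * q) (Bc q)| * |Pool.Agent.H256R2.SC.EE (gQ PP) (fun x => G (cut (mq PP (W * q)) x))| +
  LPhi X * (1 / (W.totient : ℝ)) * (1 / (q.totient : ℝ)) *
    |Pool.Agent.H256R2.SC.EE (gQ PP) (fun x => G (cut (mq PP (W * q)) x)) -
          Pool.Agent.H256R2.SC.EE (gQ PP) G| +
  (1 / (Nat.totient (W * q) : ℝ)) *
        ∑ s ∈ (univ : Finset (Fin PP.card)).powerset.filter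
          (fun s => s.Nonempty ∧ Disjoint s (mq PP (W * q)) ∧ ∏ i ∈ s, pP PP i ≤ Q₁),
          Pool.Agent.H256R2.SC.EE (gQ PP) (fun x => |G (cut (mq PP (W * q)) x)| * fw (gQ PP) s x) *
            ∑ f ∈ (W * q).divisors, TT X (f * ∏ i ∈ s, emb PP i) +
  B₁ * (8 * (Real.log (3 * X)) ^ 2)

/-- class sums with the weight `Phi * Lambda` -/
theorem classB_of {K : ℕ} (X : ℝ) (hX : 4 ≤ X) (t : Fin K → ℕ) (U : Finset ℕ) (ps : ℕ) (S : Finset ℕ) (y : ℝ)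
    (PP : Finset ℕ) (hPP : MedP ps y PP) (hyy : (yy X : ℝ) ≤ y) (ht : ∀ j, (t j : ℝ) ≤ y)
    (hU : ∀ k ∈ U, (k : ℝ) ≤ y) (htU : ∀ j, t j ∉ U)
    (hPu : ∀ i, (Fintype.card ↥U : ℝ) * gQ PP i < 1)
    (Bc : ℕ → ℕ) (hBc : ∀ q, 1 ≤ q → ∀ b' : ℕ, b'.Coprime (WW X S ps * q) →
      |EPhi X (WW X S ps * q) b'| ≤ |EPhi X (WW X S ps * q) (Bc q)|)
    (G : Col PP.card ↥U → ℝ) (Q₁ B₁ : ℝ) (hQ₁ : 0 ≤ Q₁)
    (hG : Lv (pP PP) Q₁ B₁ G) (hsize : (WW X S ps : ℝ) * X ^ (1 / 100 : ℝ) * Q₁ ≤ X) (i : Fin K) :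
    ClassB X (WW X S ps) ps t i (fun a => G (colr PP (resU U 0) a)) (Pool.Agent.H256R2.SC.EE (gQ PP) G)
      (errB X (WW X S ps) PP G Q₁ B₁ Bc) := by
  classical
  intro q b hq hbc hb
  rw [mem_QQ] at hq
  obtain ⟨⟨hq1, hqR⟩, hsq, hcop⟩ := hq
  set W := WW X S ps with hW
  have hWpos : 0 < W := WW_pos X S ps
  have hWr : (0 : ℝ) < W := by exact_mod_cast hWpos
  have hqr : (0 : ℝ) < q := by exact_mod_cast hq1
  have hN₀ : 0 < W * q := Nat.mul_pos hWpos hq1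
  have hcWq : Nat.Coprime W q := (Nat.Coprime.coprime_mul_right_right hcop).symm
  have hqX : (q : ℝ) ≤ X ^ (1 / 100 : ℝ) := by
    rw [← exp_two_LL X (by linarith)]
    exact (Nat.le_floor_iff (Real.exp_pos _).le).1 hqR
  have hmqi : ∀ j, j ∈ mq PP (W * q) ↔ (emb PP j : ℕ) ∣ W * q := by
    intro j
    unfold mq
    rw [mem_filter]
    exact ⟨fun h => h.2, fun h => ⟨mem_univ _, h⟩⟩
  have h1 := class_lam X hX PP (fun p hp => (hPP p hp).1) (resU U (t i : ℤ))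
    (fun p hp k l => resU_inj hU (t i : ℤ) (hPP p hp).2.1 k l) (W * q) b hN₀ hbc hPu (mq PP (W * q)) hmqi
    (by
      intro i' hi k hd
      rw [hmqi] at hi
      obtain ⟨hp, hyp, _⟩ := hPP _ (emb_mem PP i')
      rcases (Nat.Prime.dvd_mul hp).1 hi with h | h
      · have h2 := (mem_PW.1 ((prime_dvd_WW hp).1 h)).1
        have h3 : ((emb PP i' : ℕ) : ℝ) ≤ yy X := by exact_mod_cast h2
        linarith
      · obtain ⟨j, hji, hj⟩ := hb _ hp h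
        have h2 : ((emb PP i' : ℕ) : ℤ) ∣ (t j : ℤ) - ((k : ℕ) : ℤ) := by
          have h3 := dvd_sub hj hd
          have h4 : (b : ℤ) + t j - t i - ((b : ℤ) - resU U (t i : ℤ) (emb PP i') k) =
              (t j : ℤ) - ((k : ℕ) : ℤ) := by
            unfold resU; ring
          rwa [h4] at h3
        exact not_dvd_diff (ht j) (hU k k.2) hyp (fun h => htU j (h ▸ k.2)) h2)
    (by
      intro i' _ k hd
      obtain ⟨hp, hyp, _⟩ := hPP _ (emb_mem PP i')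
      exact not_dvd_diff (ht i) (hU k k.2) hyp (fun h => htU i (h ▸ k.2)) hd)
    G Q₁ B₁ hG (by
      push_cast
      calc (W : ℝ) * q * Q₁ ≤ W * X ^ (1 / 100 : ℝ) * Q₁ := by gcongr
        _ ≤ X := hsize)
  have hshift : ∀ n : ℕ, colr PP (resU U 0) ((n : ℤ) - t i) = colr PP (resU U (t i : ℤ)) (n : ℤ) :=
    fun n => colr_shift hU (fun p hp => (hPP p hp).2.1) (n : ℤ) (t i : ℤ)
  have h5 : ∑ n ∈ (Icc 1 ⌊3 * X⌋₊).filter (fun n => n ≡ b [MOD W * q]),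
      Phi (n / X) * ArithmeticFunction.vonMangoldt n *
        (fun a => G (colr PP (resU U 0) a)) ((n : ℤ) - t i) =
      ∑ n ∈ (Icc 1 ⌊3 * X⌋₊).filter (fun n => n ≡ b [MOD W * q]),
      Phi (n / X) * ArithmeticFunction.vonMangoldt n * G (colr PP (resU U (t i : ℤ)) (n : ℤ)) := by
    apply Finset.sum_congr rfl
    intro n _
    simp only [hshift n]
  rw [h5]
  set Ec := Pool.Agent.H256R2.SC.EE (gQ PP) (fun x => G (cut (mq PP (W * q)) x)) with hEc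
  set E0 := Pool.Agent.H256R2.SC.EE (gQ PP) G with hE0
  set A1 := ∑ n ∈ (Icc 1 ⌊3 * X⌋₊).filter (fun n => n ≡ b [MOD W * q]),
      Phi (n / X) * ArithmeticFunction.vonMangoldt n * G (colr PP (resU U (t i : ℤ)) (n : ℤ)) with hA1
  set A2 := ∑ n ∈ (Icc 1 ⌊3 * X⌋₊).filter (fun n => n ≡ b [MOD W * q]),
      Phi (n / X) * ArithmeticFunction.vonMangoldt n with hA2
  have hEP : EPhi X (W * q) b = A2 - LPhi X * (1 / ((W * q).totient : ℝ)) := EPhi_eq X (W * q) b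
  have htot : ((W * q).totient : ℝ) = (W.totient : ℝ) * q.totient := by
    rw [Nat.totient_mul hcWq]; push_cast; ring
  have hLnn : 0 ≤ LPhi X := by
    unfold LPhi
    exact Finset.sum_nonneg fun n _ => mul_nonneg (Phi_nonneg _) ArithmeticFunction.vonMangoldt_nonneg
  have h6 : A1 - E0 * (LPhi X * (1 / (W.totient : ℝ))) * (1 / (q.totient : ℝ)) =
      (A1 - A2 * Ec) + EPhi X (W * q) b * Ec +
        LPhi X * (1 / (W.totient : ℝ)) * (1 / (q.totient : ℝ)) * (Ec - E0) := by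
    rw [hEP, htot]
    have : 1 / ((W.totient : ℝ) * q.totient) = (1 / (W.totient : ℝ)) * (1 / (q.totient : ℝ)) := by
      rw [one_div_mul_one_div]
    rw [this]
    ring
  rw [h6]
  have hb1 := hBc q hq1 b hbc
  refine (abs_add_le _ _).trans ?_
  have h7 : |A1 - A2 * Ec + EPhi X (W * q) b * Ec| ≤ |A1 - A2 * Ec| + |EPhi X (W * q) (Bc q)| * |Ec| := by
    refine (abs_add_le _ _).trans ?_
    rw [abs_mul]
    have := mul_le_mul_of_nonneg_right hb1 (abs_nonneg Ec)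
    linarith
  have h8 : |LPhi X * (1 / (W.totient : ℝ)) * (1 / (q.totient : ℝ)) * (Ec - E0)| =
      LPhi X * (1 / (W.totient : ℝ)) * (1 / (q.totient : ℝ)) * |Ec - E0| := by
    rw [abs_mul, abs_of_nonneg (by positivity)]
  rw [h8]
  unfold errB
  linarith

end Pool.Agent.H312R2.RG
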