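import Pool.Agent.H312R2.RG.VW3

set_option autoImplicit false

/-! TEAM RG, task VW, part 4: total errors -/

open Finset Filter

namespace Pool.Agent.H312R2.RG

open Pool.Agent.H378R2
open Pool.Agent.H378R2.LSBV (QQ mem_QQ TT TT_nonneg sum_wt)
open Pool.Agent.H256R2.SC (Col emb colr Lv emb_mem emb_surj colr_eq qq Hyp Zs Zs_ge_one SS)

theorem tot_split (K : ℕ) (X : ℝ) (hX : 4 ≤ X) (W ps : ℕ) (α β : ℝ) (hα : 0 ≤ α) (hβ : 0 ≤ β) (err : ℕ → ℝ)
    (herr : ∀ q ∈ QQ W ps ⌊Real.exp (2 * LL X)⌋₊, err q ≤ α * (1 / (q.totient : ℝ)) + β) :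
    tot K X W ps err ≤ (α + β * X ^ (1 / 100 : ℝ)) * (2 * Real.log X) ^ (2 ^ (2 * K + 1)) := by
  have hX0 : 0 < X := by linarith
  have hL1 : 1 ≤ Real.log X := by
    rw [Real.le_log_iff_exp_le hX0]
    have := Real.exp_one_lt_d9
    linarith
  have hR : Real.exp (2 * LL X) = X ^ (1 / 100 : ℝ) := exp_two_LL X hX0
  unfold tot
  rw [hR] at herr ⊢
  have h1 : ∀ q ∈ QQ W ps ⌊X ^ (1 / 100 : ℝ)⌋₊, (q.divisors.card : ℝ) ^ (2 * K) * err q ≤
      (α + β * X ^ (1 / 100 : ℝ)) * LSBV.wt (2 * K) q := by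
    intro q hq
    have h2 := herr q hq
    rw [mem_QQ] at hq
    have hq1 : 1 ≤ q := hq.1.1
    have hqR : (q : ℝ) ≤ X ^ (1 / 100 : ℝ) := (Nat.le_floor_iff (by positivity)).1 hq.1.2
    have hφ : (0 : ℝ) < q.totient := by exact_mod_cast Nat.totient_pos.2 hq1
    have hφq : (q.totient : ℝ) ≤ q := by exact_mod_cast Nat.totient_le q
    have h3 : err q ≤ (α + β * X ^ (1 / 100 : ℝ)) * (1 / (q.totient : ℝ)) := by
      refine h2.trans ?_
      rw [add_mul]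
      apply add_le_add_right
      rw [mul_one_div, le_div_iff₀ hφ]
      exact mul_le_mul_of_nonneg_left (hφq.trans hqR) hβ
    calc (q.divisors.card : ℝ) ^ (2 * K) * err q ≤
        (q.divisors.card : ℝ) ^ (2 * K) * ((α + β * X ^ (1 / 100 : ℝ)) * (1 / (q.totient : ℝ))) :=
          mul_le_mul_of_nonneg_left h3 (by positivity)
      _ = _ := by unfold LSBV.wt; ring
  refine (Finset.sum_le_sum h1).trans ?_
  rw [← Finset.mul_sum]
  apply mul_le_mul_of_nonneg_left _ (by positivity)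
  have h2 : ∑ q ∈ QQ W ps ⌊X ^ (1 / 100 : ℝ)⌋₊, LSBV.wt (2 * K) q ≤ ∑ q ∈ Icc 1 ⌊X ^ (1 / 100 : ℝ)⌋₊, LSBV.wt (2 * K) q := by
    apply Finset.sum_le_sum_of_subset_of_nonneg
    · unfold QQ
      exact Finset.filter_subset _ _
    · intro q _ _
      unfold LSBV.wt
      positivity
  refine h2.trans ((sum_wt (2 * K) _).trans ?_)
  have h3 : Real.log (⌊X ^ (1 / 100 : ℝ)⌋₊ : ℝ) ≤ Real.log X := by
    have h4 : (1 : ℝ) ≤ ⌊X ^ (1 / 100 : ℝ)⌋₊ := by
      have : 1 ≤ ⌊X ^ (1 / 100 : ℝ)⌋₊ := Nat.le_floor (by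
        rw [Nat.cast_one]; exact Real.one_le_rpow (by linarith) (by norm_num))
      exact_mod_cast this
    apply Real.log_le_log (by linarith)
    calc (⌊X ^ (1 / 100 : ℝ)⌋₊ : ℝ) ≤ X ^ (1 / 100 : ℝ) := Nat.floor_le (by positivity)
      _ ≤ X ^ (1 : ℝ) := Real.rpow_le_rpow_of_exponent_le (by linarith) (by norm_num)
      _ = X := Real.rpow_one X
  have h5 : 0 ≤ Real.log (⌊X ^ (1 / 100 : ℝ)⌋₊ : ℝ) := Real.log_natCast_nonneg _
  exact pow_le_pow_left₀ (by linarith) (by linarith) _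

/-- closing inequality -/
theorem close_tot (X W L Z a β α : ℝ) (E B : ℕ) (hX : 0 < X) (hW : 0 < W) (hL : 0 < L) (hZ : 1 ≤ Z) (Xs : ℝ)
    (hα : α ≤ Z * (X / W) * a) (h1 : a * (2 * L) ^ E * (4 * L ^ B) ≤ 1)
    (h2 : β * Xs * (2 * L) ^ E * (4 * L ^ B) * W ≤ X) :
    (α + β * Xs) * (2 * L) ^ E ≤ 1 / 2 * (Z * (X / (W * L ^ B))) := by
  have hE : 0 < (2 * L) ^ E := by positivity
  have hB : 0 < L ^ B := by positivity
  have g1 : α * (2 * L) ^ E ≤ 1 / 4 * (Z * (X / (W * L ^ B))) := by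
    calc α * (2 * L) ^ E ≤ Z * (X / W) * a * (2 * L) ^ E := mul_le_mul_of_nonneg_right hα hE.le
      _ = (Z * (X / (W * L ^ B)) / 4) * (a * (2 * L) ^ E * (4 * L ^ B)) := by field_simp
      _ ≤ (Z * (X / (W * L ^ B)) / 4) * 1 := mul_le_mul_of_nonneg_left h1 (by positivity)
      _ = _ := by ring
  have g2 : β * Xs * (2 * L) ^ E ≤ 1 / 4 * (Z * (X / (W * L ^ B))) := by
    have h3 : β * Xs * (2 * L) ^ E ≤ 1 / 4 * (X / (W * L ^ B)) := by
      have h4 : 1 / 4 * (X / (W * L ^ B)) = X / (4 * L ^ B * W) := by field_simp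
      rw [h4, le_div_iff₀ (by positivity)]
      calc β * Xs * (2 * L) ^ E * (4 * L ^ B * W) = β * Xs * (2 * L) ^ E * (4 * L ^ B) * W := by ring
        _ ≤ X := h2
    refine h3.trans ?_
    apply mul_le_mul_of_nonneg_left _ (by norm_num)
    exact le_mul_of_one_le_left (by positivity) hZ
  rw [add_mul]
  linarith

/-- growth: powers of the logarithm -/
theorem ev_pow_lt (C : ℝ) (m n : ℕ) (h : m < n) : ∀ᶠ X : ℝ in atTop, C * (Real.log X) ^ m ≤ (Real.log X) ^ n := by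
  filter_upwards [Real.tendsto_log_atTop.eventually_ge_atTop (max 1 |C|)] with X hX
  have h1 : 1 ≤ Real.log X := (le_max_left _ _).trans hX
  have h2 : C ≤ Real.log X := (le_abs_self C).trans ((le_max_right _ _).trans hX)
  have h0 : 0 ≤ (Real.log X) ^ m := by positivity
  calc C * (Real.log X) ^ m ≤ Real.log X * (Real.log X) ^ m := mul_le_mul_of_nonneg_right h2 h0
    _ = (Real.log X) ^ (m + 1) := by ring
    _ ≤ (Real.log X) ^ n := pow_le_pow_right₀ h1 h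

/-- growth: the power saving -/
theorem ev_power (C : ℝ) (hC : 0 ≤ C) (N : ℕ) : ∀ᶠ X : ℝ in atTop, ∀ W : ℝ, 0 ≤ W → W ≤ Real.exp (Real.log X / 700) →
    C * (Real.log X) ^ N * X ^ (1 / 10 : ℝ) * W ≤ X := by
  filter_upwards [Real.tendsto_log_atTop.eventually (ev_pow_exp N (1 / 10) C (by norm_num)),
    eventually_gt_atTop 0, Real.tendsto_log_atTop.eventually_ge_atTop 1] with X h1 h2 h3
  intro W hW0 hW
  have h4 : X ^ (1 / 10 : ℝ) = Real.exp (1 / 10 * Real.log X) := by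
    rw [Real.rpow_def_of_pos h2]; congr 1; ring
  rw [h4]
  calc C * (Real.log X) ^ N * Real.exp (1 / 10 * Real.log X) * W ≤
      Real.exp (1 / 10 * Real.log X) * Real.exp (1 / 10 * Real.log X) * Real.exp (Real.log X / 700) := by
        gcongr
    _ = Real.exp (1 / 10 * Real.log X + 1 / 10 * Real.log X + Real.log X / 700) := by
        rw [Real.exp_add, Real.exp_add]
    _ ≤ Real.exp (Real.log X) := Real.exp_le_exp.2 (by linarith)
    _ = X := Real.exp_log h2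

section
variable {X : ℝ} {A ps : ℕ} {U PP : Finset ℕ} {h : Finset (Fin PP.card) → ℝ} {z Kc : ℝ}

open Classical in
/-- the products of the sieving primes -/
noncomputable def F2 (PP : Finset ℕ) (Q₁ : ℝ) : Finset ℕ :=
  ((univ : Finset (Fin PP.card)).powerset.filter (fun s => s.Nonempty ∧ ∏ i ∈ s, pP PP i ≤ Q₁)).image
    (fun s => ∏ i ∈ s, (emb PP i : ℕ))

theorem prod_emb_cast (s : Finset (Fin PP.card)) : ((∏ i ∈ s, (emb PP i : ℕ) : ℕ) : ℝ) = ∏ i ∈ s, pP PP i := by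
  rw [Nat.cast_prod]; rfl

theorem prod_emb_primeFactors (hP : ∀ p ∈ PP, p.Prime) (s : Finset (Fin PP.card)) (i : Fin PP.card) :
    (emb PP i : ℕ) ∣ ∏ j ∈ s, (emb PP j : ℕ) ↔ i ∈ s := by
  constructor
  · intro h
    have hp := hP _ (emb_mem PP i)
    obtain ⟨j, hj, hd⟩ := (Prime.dvd_finsetProd_iff hp.prime _).1 h
    have h2 := (Nat.prime_dvd_prime_iff_eq hp (hP _ (emb_mem PP j))).1 hd
    have h3 : i = j := (emb PP).injective h2
    rw [h3]; exact hj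
  · intro h
    exact Finset.dvd_prod_of_mem _ h

theorem prod_emb_squarefree (hP : ∀ p ∈ PP, p.Prime) (s : Finset (Fin PP.card)) :
    Squarefree (∏ j ∈ s, (emb PP j : ℕ)) := by
  classical
  induction s using Finset.induction_on with
  | empty => rw [Finset.prod_empty]; exact squarefree_one
  | insert i s his ih =>
    rw [Finset.prod_insert his]
    have hp := hP _ (emb_mem PP i)
    rw [Nat.squarefree_mul]
    · exact ⟨hp.squarefree, ih⟩
    · rw [Nat.Prime.coprime_iff_not_dvd hp, prod_emb_primeFactors hP]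
      exact his

theorem F2_facts (hmed : MedP ps ((Real.log X) ^ A) PP) (hX : 4 ≤ X) (hA : 1 ≤ A) (hL : 100 ≤ Real.log X)
    (S : Finset ℕ) {Z₀ : ℕ} (hps : GoodP Z₀ ps) (Q₁ : ℝ) (hQ₁ : Q₁ ≤ X ^ (1 / 200 : ℝ)) :
    ∀ f ∈ F2 PP Q₁, 1 < f ∧ (Real.log X) ^ A ≤ (f : ℝ) ∧ (f : ℝ) ≤ X ^ (1 / 200 : ℝ) ∧ Squarefree f ∧
      f.Coprime (WW X S ps * ps) := by
  classical
  intro f hf
  unfold F2 at hf
  rw [Finset.mem_image] at hf
  obtain ⟨s, hs, rfl⟩ := hf
  rw [mem_filter] at hs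
  obtain ⟨_, ⟨i, hi⟩, hsQ⟩ := hs
  have hP : ∀ p ∈ PP, p.Prime := fun p hp => (hmed p hp).1
  have hL0 : 0 < Real.log X := by linarith
  have hsq := prod_emb_squarefree hP s
  have hpos : 0 < ∏ j ∈ s, (emb PP j : ℕ) := Nat.pos_of_ne_zero hsq.ne_zero
  have hdvd : (emb PP i : ℕ) ∣ ∏ j ∈ s, (emb PP j : ℕ) := Finset.dvd_prod_of_mem _ hi
  have hle : (emb PP i : ℕ) ≤ ∏ j ∈ s, (emb PP j : ℕ) := Nat.le_of_dvd hpos hdvd
  have hi1 := (hP _ (emb_mem PP i)).one_lt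
  have hiL := (hmed _ (emb_mem PP i)).2.1
  refine ⟨by omega, ?_, ?_, hsq, ?_⟩
  · have h1 : ((emb PP i : ℕ) : ℝ) ≤ ((∏ j ∈ s, (emb PP j : ℕ) : ℕ) : ℝ) := by exact_mod_cast hle
    linarith
  · rw [prod_emb_cast]; exact hsQ.trans hQ₁
  · apply Nat.Coprime.prod_left
    intro j _
    obtain ⟨hp, hpL, hpps⟩ := hmed _ (emb_mem PP j)
    rw [Nat.Prime.coprime_iff_not_dvd hp]
    intro hd
    rcases (Nat.Prime.dvd_mul hp).1 hd with h | h
    · have h2 := (mem_PW.1 ((prime_dvd_WW hp).1 h)).1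
      have h3 : ((emb PP j : ℕ) : ℝ) ≤ yy X := by exact_mod_cast h2
      have h4 : (yy X : ℝ) ≤ Real.log X / 1000 := Nat.floor_le (by linarith)
      have h5 : (Real.log X) ^ 1 ≤ (Real.log X) ^ A := pow_le_pow_right₀ (by linarith) hA
      rw [pow_one] at h5
      linarith
    · rcases hps with h1 | h1
      · rw [h1] at h
        exact hp.one_lt.ne' (Nat.dvd_one.1 h)
      · exact hpps ((Nat.prime_dvd_prime_iff_eq hp h1.1).1 h)

/-- comparison of the large sieve parts -/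
theorem VHyp.partLS (V : VHyp X A ps U PP h z Kc) (Q Q₁ : ℝ) (S : Finset ℕ) {q : ℕ} (hq1 : 1 ≤ q)
    (hq : (q : ℝ) ≤ X ^ (1 / 100 : ℝ)) :
    ∑ s ∈ (univ : Finset (Fin PP.card)).powerset.filter
          (fun s => s.Nonempty ∧ Disjoint s (mq PP (WW X S ps * q)) ∧ ∏ i ∈ s, pP PP i ≤ Q₁),
          Pool.Agent.H256R2.SC.EE (gQ PP) (fun x : Col PP.card ↥U =>
            |V2 (pP PP) (gP PP) h Q (cut (mq PP (WW X S ps * q)) x)| * fw (gQ PP) s x) *
            ∑ f ∈ (WW X S ps * q).divisors, TT X (f * ∏ i ∈ s, (emb PP i : ℕ)) ≤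
      2 * ((Real.log X) ^ 8 * Zs ↥U (gP PP) h) *
        ∑ f₂ ∈ (F2 PP Q₁).filter (fun f => f.Coprime q), (1 / (f₂ : ℝ) ^ (3 / 4 : ℝ)) *
          ∑ f ∈ (WW X S ps * q).divisors, TT X (f * f₂) := by
  classical
  have hP : ∀ p ∈ PP, p.Prime := fun p hp => (V.med p hp).1
  have hL0 := V.L0
  have hZ := V.Z1
  have hZ0 : 0 ≤ Zs ↥U (gP PP) h := by linarith
  set φ : ℕ → ℝ := fun f₂ => (1 / (f₂ : ℝ) ^ (3 / 4 : ℝ)) * ∑ f ∈ (WW X S ps * q).divisors, TT X (f * f₂) with hφ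
  have hφ0 : ∀ f₂, 0 ≤ φ f₂ := fun f₂ => mul_nonneg (by positivity) (Finset.sum_nonneg fun f _ => TT_nonneg X _)
  set Sf := (univ : Finset (Fin PP.card)).powerset.filter
          (fun s => s.Nonempty ∧ Disjoint s (mq PP (WW X S ps * q)) ∧ ∏ i ∈ s, pP PP i ≤ Q₁) with hSf
  have h1 : ∀ s ∈ Sf, Pool.Agent.H256R2.SC.EE (gQ PP) (fun x : Col PP.card ↥U =>
            |V2 (pP PP) (gP PP) h Q (cut (mq PP (WW X S ps * q)) x)| * fw (gQ PP) s x) *
            ∑ f ∈ (WW X S ps * q).divisors, TT X (f * ∏ i ∈ s, (emb PP i : ℕ)) ≤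
      2 * ((Real.log X) ^ 8 * Zs ↥U (gP PP) h) * φ (∏ i ∈ s, (emb PP i : ℕ)) := by
    intro s hs
    rw [hSf, mem_filter] at hs
    have h2 := V.fwB Q S hq1 hq s hs.2.2.1
    have h3 : 0 ≤ ∑ f ∈ (WW X S ps * q).divisors, TT X (f * ∏ i ∈ s, (emb PP i : ℕ)) :=
      Finset.sum_nonneg fun f _ => TT_nonneg X _
    have h4 := mul_le_mul_of_nonneg_right h2 h3
    refine h4.trans (le_of_eq ?_)
    rw [hφ]
    simp only
    rw [prod_emb_cast]
    ring
  refine (Finset.sum_le_sum h1).trans ?_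
  rw [← Finset.mul_sum]
  apply mul_le_mul_of_nonneg_left _ (by positivity)
  have hinj : Set.InjOn (fun s : Finset (Fin PP.card) => ∏ i ∈ s, (emb PP i : ℕ)) (Sf : Set (Finset (Fin PP.card))) := by
    intro s _ s' _ hss
    simp only at hss
    ext i
    rw [← prod_emb_primeFactors hP s i, ← prod_emb_primeFactors hP s' i, hss]
  rw [← Finset.sum_image (f := φ) hinj]
  apply Finset.sum_le_sum_of_subset_of_nonneg
  · intro f hf
    rw [Finset.mem_image] at hf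
    obtain ⟨s, hs, rfl⟩ := hf
    rw [hSf, mem_filter] at hs
    rw [mem_filter]
    refine ⟨?_, ?_⟩
    · unfold F2
      rw [Finset.mem_image]
      refine ⟨s, ?_, rfl⟩
      rw [mem_filter]
      exact ⟨hs.1, hs.2.1, hs.2.2.2⟩
    · apply Nat.Coprime.prod_left
      intro j hj
      rw [Nat.Prime.coprime_iff_not_dvd (hP _ (emb_mem PP j))]
      intro hd
      have h2 : j ∈ mq PP (WW X S ps * q) := by
        unfold mq
        rw [mem_filter]
        exact ⟨mem_univ _, Dvd.dvd.mul_left hd _⟩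
      exact Finset.disjoint_left.1 hs.2.2.1 hj h2
  · intro f _ _
    exact hφ0 f

end

end Pool.Agent.H312R2.RG
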